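import Mathlib
import Pool.Agent.Q302.DJ.Stmts
import Pool.Agent.Q302.DJ.Comp
import Pool.Agent.Q302.DJ.TaskNull
import Pool.Agent.Q302.DJ.TaskSub
import Pool.Agent.Q302.DJ.TaskZero
import Pool.Agent.Q302.DJ.TaskUniq
import Pool.Agent.Q302.DJ.TaskRestr
import Pool.Agent.Q302.DJ.TaskCongr

/-!
# States: sets of rational intervals on which the integral is known
-/

set_option autoImplicit false

namespace Pool.Agent.Zk92.Den

open MeasureTheory Set Filter Topology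
open Pool.Agent.Q302.DJ

theorem uniq : TaskUniq :=
  TaskUniq.main TaskSub.main (TaskZero.main TaskNull.main TaskSub.main)

theorem pt_lt {a b : ℝ} (h : a < b) {q r : ℚ} : pt a b q < pt a b r ↔ q < r := Comp.pt_lt h

theorem pt_le {a b : ℝ} (h : a < b) {q r : ℚ} : pt a b q ≤ pt a b r ↔ q ≤ r := Comp.pt_le h

theorem pt_zero (a b : ℝ) : pt a b 0 = a := by simp [pt]

theorem pt_one (a b : ℝ) : pt a b 1 = b := by simp [pt]

theorem pt_sub (a b : ℝ) (q r : ℚ) : pt a b r - pt a b q = (b - a) * ((r : ℝ) - q) := by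
  unfold pt; ring

/-- rational points are dense -/
theorem exists_pt {a b : ℝ} (h : a < b) {s t : ℝ} (hst : s < t) : ∃ q : ℚ, s < pt a b q ∧ pt a b q < t := by
  have h0 : 0 < b - a := sub_pos.2 h
  obtain ⟨q, h1, h2⟩ := exists_rat_btwn (show (s - a) / (b - a) < (t - a) / (b - a) by
    rw [div_lt_div_iff_of_pos_right h0]; linarith)
  rw [div_lt_iff₀ h0] at h1
  rw [lt_div_iff₀ h0] at h2
  refine ⟨q, ?_, ?_⟩
  · unfold pt; linarith
  · unfold pt; linarith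

def Valid (J : ℚ × ℚ) : Prop := 0 ≤ J.1 ∧ J.1 < J.2 ∧ J.2 ≤ 1

/-- the relative interior (in `[a, b]`) of `[pt J.1, pt J.2]` -/
def Op (a b : ℝ) (J : ℚ × ℚ) : Set ℝ :=
  {x | (pt a b J.1 < x ∨ J.1 = 0) ∧ (x < pt a b J.2 ∨ J.2 = 1)}

theorem isOpen_Op (a b : ℝ) (J : ℚ × ℚ) : IsOpen (Op a b J) := by
  have h1 : IsOpen {x : ℝ | pt a b J.1 < x ∨ J.1 = 0} := by
    by_cases hw : J.1 = 0
    · simp [hw]
    · have e1 : {x : ℝ | pt a b J.1 < x ∨ J.1 = 0} = Ioi (pt a b J.1) := by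
        ext x
        simp [hw]
      rw [e1]
      exact isOpen_Ioi
  have h2 : IsOpen {x : ℝ | x < pt a b J.2 ∨ J.2 = 1} := by
    by_cases hw : J.2 = 1
    · simp [hw]
    · have e1 : {x : ℝ | x < pt a b J.2 ∨ J.2 = 1} = Iio (pt a b J.2) := by
        ext x
        simp [hw]
      rw [e1]
      exact isOpen_Iio
  exact h1.inter h2

/-- the points which are not in the relative interior of a member of `U` -/
def KU (a b : ℝ) (U : Set (ℚ × ℚ)) : Set ℝ := Icc a b \ ⋃ J ∈ U, Op a b J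

theorem isClosed_KU (a b : ℝ) (U : Set (ℚ × ℚ)) : IsClosed (KU a b U) :=
  isClosed_Icc.sdiff (isOpen_biUnion fun J _ => isOpen_Op a b J)

theorem KU_anti {a b : ℝ} {U V : Set (ℚ × ℚ)} (h : U ⊆ V) : KU a b V ⊆ KU a b U := by
  intro x hx
  refine ⟨hx.1, fun hc => hx.2 ?_⟩
  obtain ⟨J, hJ, hxJ⟩ := mem_iUnion₂.1 hc
  exact mem_iUnion₂.2 ⟨J, h hJ, hxJ⟩

theorem not_mem_KU {a b : ℝ} {U : Set (ℚ × ℚ)} {J : ℚ × ℚ} (hJ : J ∈ U) {x : ℝ}
    (hx : x ∈ Op a b J) : x ∉ KU a b U := fun hc => hc.2 (mem_iUnion₂.2 ⟨J, hJ, hx⟩)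

/-- the closure properties of a state -/
structure St (U : Set (ℚ × ℚ)) : Prop where
  val : ∀ J ∈ U, Valid J
  sub : ∀ q r q' r' : ℚ, (q, r) ∈ U → q ≤ q' → q' < r' → r' ≤ r → (q', r') ∈ U
  glue : ∀ p q p' q' : ℚ, (p, q) ∈ U → (p', q') ∈ U → p ≤ p' → p' < q → q ≤ q' → (p, q') ∈ U

/-- compactness -/
theorem St.cover {a b : ℝ} (h : a < b) {U : Set (ℚ × ℚ)} (hU : St U) {q r : ℚ} (hv : Valid (q, r))
    (hsub : ∀ x ∈ Icc (pt a b q) (pt a b r), x ∉ KU a b U) : (q, r) ∈ U := by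
  obtain ⟨hq, hqr, hr⟩ := hv
  dsimp only at hq hqr hr
  have hmem : ∀ x ∈ Icc (pt a b q) (pt a b r), ∃ q₁ r₁ : ℚ, (q₁, r₁) ∈ U ∧ x ∈ Op a b (q₁, r₁) := by
    intro x hx
    have h1 := hsub x hx
    have h2 : x ∈ Icc a b := by
      refine ⟨?_, ?_⟩
      · have := (pt_le h).2 hq
        rw [pt_zero] at this
        exact this.trans hx.1
      · have := (pt_le h).2 hr
        rw [pt_one] at this
        exact hx.2.trans this
    have h3 : x ∈ ⋃ J ∈ U, Op a b J := by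
      by_contra hc
      exact h1 ⟨h2, hc⟩
    obtain ⟨⟨q₁, r₁⟩, h4, h5⟩ := mem_iUnion₂.1 h3
    exact ⟨q₁, r₁, h4, h5⟩
  set S : Set ℝ := {x | ∃ s : ℚ, q < s ∧ s ≤ r ∧ (q, s) ∈ U ∧ x = pt a b s} with hS
  have hSle : ∀ x ∈ S, x ≤ pt a b r := by
    rintro x ⟨s, -, hs, -, rfl⟩
    exact (pt_le h).2 hs
  have hbdd : BddAbove S := ⟨pt a b r, hSle⟩
  have hne : S.Nonempty := by
    obtain ⟨q₁, r₁, h1, h4, h5⟩ := hmem _ (left_mem_Icc.2 ((pt_lt h).2 hqr).le)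
    have hq1 : q₁ ≤ q := by
      rcases h4 with h4 | h4
      · exact ((pt_lt h).1 h4).le
      · have h4' : q₁ = 0 := h4
        rw [h4']; exact hq
    have hr1 : q < r₁ := by
      rcases h5 with h5 | h5
      · exact (pt_lt h).1 h5
      · have h5' : r₁ = 1 := h5
        rw [h5']; exact hqr.trans_le hr
    exact ⟨_, min r₁ r, lt_min hr1 hqr, min_le_right _ _,
      hU.sub q₁ r₁ q _ h1 hq1 (lt_min hr1 hqr) (min_le_left _ _), rfl⟩
  set x := sSup S with hx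
  have hxr : x ≤ pt a b r := csSup_le hne hSle
  have hqx : pt a b q ≤ x := by
    obtain ⟨y, hy⟩ := hne
    obtain ⟨s, hs, -, -, rfl⟩ := id hy
    exact ((pt_lt h).2 hs).le.trans (le_csSup hbdd hy)
  obtain ⟨q₁, r₁, h3, h4, h6⟩ := hmem x ⟨hqx, hxr⟩
  obtain ⟨s, hqs, hsr, hgs, hs1⟩ : ∃ s : ℚ, q < s ∧ s ≤ r ∧ (q, s) ∈ U ∧ q₁ < s := by
    rcases h4 with h4 | h4
    · obtain ⟨y, ⟨s, hs1, hs2, hs3, rfl⟩, hy⟩ := exists_lt_of_lt_csSup hne h4
      exact ⟨s, hs1, hs2, hs3, (pt_lt h).1 hy⟩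
    · obtain ⟨y, s, hs1, hs2, hs3, rfl⟩ := hne
      have h4' : q₁ = 0 := h4
      exact ⟨s, hs1, hs2, hs3, by rw [h4']; exact hq.trans_lt hs1⟩
  have hsr1 : s ≤ r₁ := by
    rcases h6 with h6 | h6
    · exact ((pt_lt h).1 ((le_csSup hbdd ⟨s, hqs, hsr, hgs, rfl⟩).trans_lt h6)).le
    · have h6' : r₁ = 1 := h6
      rw [h6']; exact hsr.trans hr
  have hgood' : (q, r₁) ∈ U := by
    rcases le_total q₁ q with h7 | h7
    · exact hU.sub q₁ r₁ q r₁ h3 h7 (hqs.trans_le hsr1) le_rfl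
    · exact hU.glue q s q₁ r₁ hgs h3 h7 hs1 hsr1
  rcases le_or_gt r r₁ with h8 | h8
  · exact hU.sub q r₁ q r hgood' le_rfl hqr h8
  · exfalso
    have h9 : pt a b r₁ ≤ x :=
      le_csSup hbdd ⟨r₁, hqs.trans_le hsr1, h8.le, hgood', rfl⟩
    rcases h6 with h6 | h6
    · exact absurd h6 (not_lt.2 h9)
    · have h6' : r₁ = 1 := h6
      rw [h6'] at h8
      exact absurd hr (not_le.2 h8)

/-- the variation bound -/
def VB (U V : Set (ℚ × ℚ)) (Fv : ℚ × ℚ → ℝ) (I : ℚ × ℚ) (M : ℕ) : Prop :=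
  ∀ (n : ℕ) (x y : Fin n → ℚ), (∀ i, I.1 ≤ x i ∧ x i < y i ∧ y i ≤ I.2 ∧ (x i, y i) ∈ U) →
    (∀ i j, i < j → y i < x j ∧ (y i, x j) ∉ V) → ∑ i, |Fv (x i, y i)| ≤ M

/-- uniform continuity -/
def UC (U : Set (ℚ × ℚ)) (Fv : ℚ × ℚ → ℝ) (I : ℚ × ℚ) : Prop :=
  ∀ k : ℕ, ∃ m : ℕ, ∀ x y : ℚ, I.1 ≤ x → x < y → y ≤ I.2 → (x, y) ∈ U →
    (y : ℝ) - x < 1 / ((m : ℝ) + 1) → |Fv (x, y)| ≤ 1 / ((k : ℝ) + 1)

/-- the truncated integral of `ψ` over the unresolved part of `I` is at most `M` -/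
def IB (a b : ℝ) (ψ : ℝ → ENNReal) (U : Set (ℚ × ℚ)) (I : ℚ × ℚ) (n M : ℕ) : Prop :=
  ∫⁻ x in Icc (pt a b I.1) (pt a b I.2) ∩ KU a b U, min (ψ x) n ≤ M

/-- the condition for the extension to the interval `I` -/
def Pr (a b : ℝ) (ψ : ℝ → ENNReal) (U : Set (ℚ × ℚ)) (Fv : ℚ × ℚ → ℝ) (I : ℚ × ℚ) (M : ℕ) : Prop :=
  VB U U Fv I M ∧ UC U Fv I ∧ ∀ n, IB a b ψ U I n M

theorem Valid.lt {a b : ℝ} (h : a < b) {I : ℚ × ℚ} (hI : Valid I) : pt a b I.1 < pt a b I.2 :=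
  (pt_lt h).2 hI.2.1

theorem Valid.le_left {a b : ℝ} (h : a < b) {I : ℚ × ℚ} (hI : Valid I) : a ≤ pt a b I.1 := by
  have := (pt_le h).2 hI.1
  rwa [pt_zero] at this

theorem Valid.right_le {a b : ℝ} (h : a < b) {I : ℚ × ℚ} (hI : Valid I) : pt a b I.2 ≤ b := by
  have := (pt_le h).2 hI.2.2
  rwa [pt_one] at this

theorem Valid.sub_Icc {a b : ℝ} (h : a < b) {I : ℚ × ℚ} (hI : Valid I) :
    Icc (pt a b I.1) (pt a b I.2) ⊆ Icc a b :=
  Icc_subset_Icc (hI.le_left h) (hI.right_le h)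

/-- extension by the density of the rational points -/
theorem dens {a b : ℝ} (h : a < b) {f : ℝ → ℝ} {u v C : ℝ} (hf : ContinuousOn f (Icc u v))
    (hC : 0 ≤ C)
    (hq : ∀ q r : ℚ, u < pt a b q → q < r → pt a b r < v → |f (pt a b r) - f (pt a b q)| ≤ C) :
    ∀ s ∈ Icc u v, ∀ t ∈ Icc u v, |f t - f s| ≤ C := by
  have key : ∀ s ∈ Icc u v, ∀ t ∈ Icc u v, s < t → |f t - f s| ≤ C := by
    intro s hs t ht hst
    refine le_of_forall_pos_le_add fun η hη => ?_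
    have h1 := hf s hs
    have h2 := hf t ht
    rw [Metric.continuousWithinAt_iff] at h1 h2
    obtain ⟨δ₁, hδ₁, h1⟩ := h1 (η / 2) (half_pos hη)
    obtain ⟨δ₂, hδ₂, h2⟩ := h2 (η / 2) (half_pos hη)
    set m := (s + t) / 2 with hm
    obtain ⟨q, hq1, hq2⟩ := exists_pt h (show s < min m (s + δ₁) from
      lt_min (by rw [hm]; linarith) (by linarith))
    obtain ⟨r, hr1, hr2⟩ := exists_pt h (show max m (t - δ₂) < t from
      max_lt (by rw [hm]; linarith) (by linarith))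
    rw [lt_min_iff] at hq2
    rw [max_lt_iff] at hr1
    have hqr : q < r := (pt_lt h).1 (hq2.1.trans hr1.1)
    have h3 := hq q r (hs.1.trans_lt hq1) hqr (hr2.trans_le ht.2)
    have h4 := @h1 (pt a b q) ⟨hs.1.trans hq1.le, by linarith [hq2.1, ht.2, hst]⟩
      (by rw [Real.dist_eq, abs_of_pos (by linarith)]; linarith [hq2.2])
    have h5 := @h2 (pt a b r) ⟨by linarith [hr1.1, hs.1, hst], hr2.le.trans ht.2⟩
      (by rw [Real.dist_eq, abs_sub_comm, abs_of_pos (by linarith)]; linarith [hr1.2])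
    rw [Real.dist_eq] at h4 h5
    have e : f t - f s = -(f (pt a b r) - f t) + (f (pt a b r) - f (pt a b q)) +
      (f (pt a b q) - f s) := by ring
    rw [e]
    calc _ ≤ |-(f (pt a b r) - f t)| + |f (pt a b r) - f (pt a b q)| + |f (pt a b q) - f s| :=
          abs_add_three _ _ _
      _ ≤ C + η := by rw [abs_neg]; linarith
  intro s hs t ht
  rcases lt_trichotomy s t with hst | rfl | hst
  · exact key s hs t ht hst
  · simpa using hC
  · rw [abs_sub_comm]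
    exact key t ht s hs hst

end Pool.Agent.Zk92.Den
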