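import Mathlib
import Pool.Agent.Zk92.Den.Basic

/-!
# The primitive on a gap
-/

set_option autoImplicit false

namespace Pool.Agent.Zk92.Den

open MeasureTheory Set Filter Topology
open Pool.Agent.Q302.DJ

theorem prim_congr {φ F G : ℝ → ℝ} {c d C : ℝ} (hcd : c < d) (h : ∀ x ∈ Icc c d, F x = G x + C)
    (hG : IsPrim φ G c d) : IsPrim φ F c d := TaskCongr.main φ F G c d C hcd h hG

theorem prim_restr {φ F : ℝ → ℝ} {c d c' d' : ℝ} (h1 : c ≤ c') (h2 : c' < d') (h3 : d' ≤ d)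
    (h : IsPrim φ F c d) : IsPrim φ F c' d' := TaskRestr.main φ F c d c' d' h1 h2 h3 h

theorem cauchy_lim {A : ℝ → ℝ} {l : Filter ℝ} [l.NeBot]
    (h : ∀ ε : ℝ, 0 < ε → ∃ S ∈ l, ∀ s ∈ S, ∀ t ∈ S, |A t - A s| ≤ ε) :
    ∃ L, Tendsto A l (𝓝 L) := by
  rw [← cauchy_map_iff_exists_tendsto, cauchy_map_iff']
  rw [Metric.uniformity_basis_dist.tendsto_right_iff]
  intro ε hε
  obtain ⟨S, hS, hSε⟩ := h (ε / 2) (half_pos hε)
  filter_upwards [prod_mem_prod hS hS] with p hp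
  have := hSε p.2 hp.2 p.1 hp.1
  simp only [Real.dist_eq]
  linarith

theorem gap_prim {φ : ℝ → ℝ} {u v : ℝ} (huv : u < v)
    (hprim : ∀ s t, u < s → s < t → t < v → ∃ F, IsPrim φ F s t)
    (huc : ∀ ε : ℝ, 0 < ε → ∃ δ : ℝ, 0 < δ ∧ ∀ F s t, u < s → s < t → t < v → t - s < δ →
      IsPrim φ F s t → |F t - F s| ≤ ε) :
    ∃ A : ℝ → ℝ, ContinuousOn A (Icc u v) ∧ ∀ s t, u < s → s < t → t < v → IsPrim φ A s t := by
  classical
  -- increments
  have hD : ∀ s t : ℝ, ∃ D : ℝ, u < s → s < t → t < v → ∀ F, IsPrim φ F s t → F t - F s = D := by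
    intro s t
    by_cases hc : u < s ∧ s < t ∧ t < v
    · obtain ⟨F, hF⟩ := hprim s t hc.1 hc.2.1 hc.2.2
      refine ⟨F t - F s, fun _ _ _ G hG => ?_⟩
      exact uniq φ G F s t hc.2.1 hG hF t ⟨hc.2.1.le, le_rfl⟩
    · exact ⟨0, fun h1 h2 h3 => absurd ⟨h1, h2, h3⟩ hc⟩
  choose D hD using hD
  set m : ℝ := (u + v) / 2 with hm
  have hum : u < m := by rw [hm]; linarith
  have hmv : m < v := by rw [hm]; linarith
  set A : ℝ → ℝ := fun x => if m < x then D m x else if x < m then - D x m else 0 with hA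
  have hAeq : ∀ s t, u < s → s < m → m < t → t < v → ∀ F, IsPrim φ F s t →
      ∀ x ∈ Icc s t, A x = F x + (- F m) := by
    intro s t h1 h2 h3 h4 F hF x hx
    rw [hA]
    dsimp only
    rcases lt_trichotomy m x with hmx | hmx | hmx
    · rw [if_pos hmx, ← hD m x hum hmx (hx.2.trans_lt h4) F (prim_restr h2.le hmx hx.2 hF)]
      ring
    · rw [← hmx]
      simp
    · rw [if_neg (not_lt.2 hmx.le), if_pos hmx,
        ← hD x m (h1.trans_le hx.1) hmx hmv F (prim_restr hx.1 hmx h3.le hF)]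
      ring
  have hAprim : ∀ s t, u < s → s < t → t < v → IsPrim φ A s t := by
    intro s t h1 h2 h3
    have h4 : u < min s ((u + m) / 2) := lt_min h1 (by linarith)
    have h5 : max t ((m + v) / 2) < v := max_lt h3 (by linarith)
    have h6 : min s ((u + m) / 2) < m := (min_le_right _ _).trans_lt (by linarith)
    have h7 : m < max t ((m + v) / 2) := lt_of_lt_of_le (by linarith) (le_max_right _ _)
    obtain ⟨F, hF⟩ := hprim _ _ h4 (h6.trans h7) h5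
    exact prim_restr (min_le_left _ _) h2 (le_max_left _ _)
      (prim_congr (h6.trans h7) (hAeq _ _ h4 h6 h7 h5 F hF) hF)
  have hAinc : ∀ ε : ℝ, 0 < ε → ∃ δ : ℝ, 0 < δ ∧ ∀ s t, s ∈ Ioo u v → t ∈ Ioo u v → |t - s| < δ →
      |A t - A s| ≤ ε := by
    intro ε hε
    obtain ⟨δ, hδ, h⟩ := huc ε hε
    refine ⟨δ, hδ, fun s t hs ht hst => ?_⟩
    rcases lt_trichotomy s t with h1 | rfl | h1
    · exact h A s t hs.1 h1 ht.2 ((le_abs_self _).trans_lt hst) (hAprim s t hs.1 h1 ht.2)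
    · simpa using hε.le
    · rw [abs_sub_comm] at hst ⊢
      exact h A t s ht.1 h1 hs.2 ((le_abs_self _).trans_lt hst) (hAprim t s ht.1 h1 hs.2)
  have hAc : ContinuousOn A (Ioo u v) := by
    rw [Metric.continuousOn_iff]
    intro x hx ε hε
    obtain ⟨δ, hδ, h⟩ := hAinc (ε / 2) (half_pos hε)
    refine ⟨δ, hδ, fun y hy hxy => ?_⟩
    rw [Real.dist_eq] at hxy ⊢
    linarith [h x y hx hy hxy]
  obtain ⟨la, hla⟩ : ∃ la, Tendsto A (𝓝[>] u) (𝓝 la) := by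
    refine cauchy_lim fun ε hε => ?_
    obtain ⟨δ, hδ, h⟩ := hAinc ε hε
    refine ⟨Ioo u (min v (u + δ)), Ioo_mem_nhdsGT (lt_min huv (by linarith)), ?_⟩
    intro s hs t ht
    have h1 := lt_min_iff.1 hs.2
    have h2 := lt_min_iff.1 ht.2
    refine h s t ⟨hs.1, h1.1⟩ ⟨ht.1, h2.1⟩ ?_
    rw [abs_lt]
    constructor <;> linarith [hs.1, ht.1]
  obtain ⟨lb, hlb⟩ : ∃ lb, Tendsto A (𝓝[<] v) (𝓝 lb) := by
    refine cauchy_lim fun ε hε => ?_
    obtain ⟨δ, hδ, h⟩ := hAinc ε hε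
    refine ⟨Ioo (max u (v - δ)) v, Ioo_mem_nhdsLT (max_lt huv (by linarith)), ?_⟩
    intro s hs t ht
    have h1 := max_lt_iff.1 hs.1
    have h2 := max_lt_iff.1 ht.1
    refine h s t ⟨h1.1, hs.2⟩ ⟨h2.1, ht.2⟩ ?_
    rw [abs_lt]
    constructor <;> linarith [hs.2, ht.2]
  refine ⟨extendFrom (Ioo u v) A, continuousOn_Icc_extendFrom_Ioo hAc hla hlb, ?_⟩
  intro s t h1 h2 h3
  refine prim_congr (C := 0) h2 (fun x hx => ?_) (hAprim s t h1 h2 h3)
  rw [add_zero]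
  have hx' : x ∈ Ioo u v := ⟨h1.trans_le hx.1, hx.2.trans_lt h3⟩
  exact extendFrom_eq (subset_closure hx') (hAc x hx')

end Pool.Agent.Zk92.Den
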