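import Mathlib
import Pool.Agent.Q302.DJ.Stmts

/-!
# Sum of functions on the gaps of a closed set
-/

set_option autoImplicit false

namespace Pool.Agent.Zk92.Den

open MeasureTheory Set Filter Topology
open Pool.Agent.Q302.DJ (osc ACStar)

/-- the next point of `P` after `u` -/
noncomputable def nx (P : Set ℝ) (u : ℝ) : ℝ := sInf (P ∩ Ioi u)

/-- the left ends of the gaps of `P` below `d` -/
def gl (P : Set ℝ) (d : ℝ) : Set ℝ := {u | u ∈ P ∧ u < d ∧ u < nx P u}

theorem nx_mem {P : Set ℝ} {d u : ℝ} (hP : IsClosed P) (hd : d ∈ P) (hu : u ∈ gl P d) :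
    nx P u ∈ P := by
  have h1 : (P ∩ Ioi u).Nonempty := ⟨d, hd, hu.2.1⟩
  have h2 : BddBelow (P ∩ Ioi u) := ⟨u, fun x hx => le_of_lt hx.2⟩
  have h3 : nx P u ∈ closure (P ∩ Ioi u) := csInf_mem_closure h1 h2
  exact (hP.closure_subset_iff.2 inter_subset_left) h3

theorem nx_le {P : Set ℝ} {u x : ℝ} (hx : x ∈ P) (hux : u < x) : nx P u ≤ x :=
  csInf_le ⟨u, fun _ hy => le_of_lt hy.2⟩ ⟨hx, hux⟩

theorem not_mem_gap {P : Set ℝ} {u x : ℝ} (h1 : u < x) (h2 : x < nx P u) : x ∉ P :=
  fun hx => absurd (nx_le hx h1) (not_le.2 h2)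

/-- clamp -/
def cl (u v x : ℝ) : ℝ := max u (min x v)

theorem cl_mem {u v : ℝ} (h : u ≤ v) (x : ℝ) : cl u v x ∈ Icc u v :=
  ⟨le_max_left _ _, max_le h (min_le_right _ _)⟩

theorem cl_of_mem {u v x : ℝ} (h : x ∈ Icc u v) : cl u v x = x := by
  unfold cl
  rw [min_eq_left h.2, max_eq_right h.1]

theorem cl_of_le {u v x : ℝ} (h : x ≤ u) : cl u v x = u := by
  unfold cl
  exact max_eq_left ((min_le_left _ _).trans h)

theorem cl_of_ge {u v x : ℝ} (huv : u ≤ v) (h : v ≤ x) : cl u v x = v := by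
  unfold cl
  rw [min_eq_right h, max_eq_right huv]

theorem continuous_cl (u v : ℝ) : Continuous (cl u v) := by
  unfold cl
  fun_prop

section

variable (P : Set ℝ) (d : ℝ) (Fi : ℝ → ℝ → ℝ) (ω : ℝ → ℝ)

/-- the sum of the increments over the gaps -/
noncomputable def Hs (x : ℝ) : ℝ := ∑' u : gl P d, (Fi u (cl u (nx P u) x) - Fi u u)

structure Hyp : Prop where
  hP : IsClosed P
  hd : d ∈ P
  hle : ∀ x ∈ P, x ≤ d
  hc : ∀ u ∈ gl P d, ContinuousOn (Fi u) (Icc u (nx P u))
  hω : ∀ u ∈ gl P d, ∀ s ∈ Icc u (nx P u), ∀ t ∈ Icc u (nx P u), |Fi u t - Fi u s| ≤ ω u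
  hs : Summable fun u : gl P d => ω u

variable {P d Fi ω}

theorem Hyp.ω_nonneg (h : Hyp P d Fi ω) {u : ℝ} (hu : u ∈ gl P d) : 0 ≤ ω u := by
  have := h.hω u hu u ⟨le_rfl, hu.2.2.le⟩ u ⟨le_rfl, hu.2.2.le⟩
  exact (abs_nonneg _).trans this

theorem Hyp.term_bound (h : Hyp P d Fi ω) (u : gl P d) (x : ℝ) :
    ‖Fi u (cl u (nx P u) x) - Fi u u‖ ≤ ω u :=
  h.hω u u.2 u ⟨le_rfl, u.2.2.2.le⟩ _ (cl_mem u.2.2.2.le x)

theorem Hyp.summable (h : Hyp P d Fi ω) (x : ℝ) :
    Summable fun u : gl P d => (Fi u (cl u (nx P u) x) - Fi u u) :=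
  Summable.of_norm_bounded h.hs (fun u => h.term_bound u x)

theorem Hyp.continuous (h : Hyp P d Fi ω) : Continuous (Hs P d Fi) := by
  unfold Hs
  refine continuous_tsum (u := fun u : gl P d => ω u) ?_ h.hs (fun u x => h.term_bound u x)
  intro u
  refine Continuous.sub ?_ continuous_const
  exact (h.hc u u.2).comp_continuous (continuous_cl _ _) (fun x => cl_mem u.2.2.2.le x)

open Classical in
/-- the bound for the increments -/
theorem Hyp.incr (h : Hyp P d Fi ω) (s t : ℝ) (hst : s ≤ t) :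
    |Hs P d Fi t - Hs P d Fi s| ≤ ∑' u : gl P d, if (u : ℝ) < t ∧ s < nx P u then ω u else 0 := by
  unfold Hs
  rw [← (h.summable t).tsum_sub (h.summable s)]
  have hsum : Summable fun u : gl P d => if (u : ℝ) < t ∧ s < nx P u then ω u else 0 := by
    refine Summable.of_nonneg_of_le (fun u => ?_) (fun u => ?_) h.hs
    · split_ifs
      · exact h.ω_nonneg u.2
      · exact le_rfl
    · split_ifs
      · exact le_rfl
      · exact h.ω_nonneg u.2
  have hb : ∀ u : gl P d, ‖(Fi u (cl u (nx P u) t) - Fi u u) - (Fi u (cl u (nx P u) s) - Fi u u)‖ ≤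
      if (u : ℝ) < t ∧ s < nx P u then ω u else 0 := by
    intro u
    have e : (Fi u (cl u (nx P u) t) - Fi u u) - (Fi u (cl u (nx P u) s) - Fi u u) =
        Fi u (cl u (nx P u) t) - Fi u (cl u (nx P u) s) := by ring
    rw [e]
    split_ifs with hc
    · exact h.hω u u.2 _ (cl_mem u.2.2.2.le s) _ (cl_mem u.2.2.2.le t)
    · rw [not_and_or, not_lt, not_lt] at hc
      rcases hc with hc | hc
      · rw [cl_of_le hc, cl_of_le (hst.trans hc)]
        simp
      · rw [cl_of_ge u.2.2.2.le hc, cl_of_ge u.2.2.2.le (hc.trans hst)]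
        simp
  exact (tsum_of_norm_bounded hsum.hasSum hb)

/-- the increments on a gap -/
theorem Hyp.on_gap (h : Hyp P d Fi ω) {u : ℝ} (hu : u ∈ gl P d) {s t : ℝ}
    (hs : s ∈ Icc u (nx P u)) (ht : t ∈ Icc u (nx P u)) :
    Hs P d Fi t - Hs P d Fi s = Fi u t - Fi u s := by
  unfold Hs
  rw [← (h.summable t).tsum_sub (h.summable s)]
  rw [tsum_eq_single (⟨u, hu⟩ : gl P d)]
  · simp only
    rw [cl_of_mem hs, cl_of_mem ht]
    ring
  · intro u' hne
    have hne' : (u' : ℝ) ≠ u := fun e => hne (Subtype.ext e)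
    rcases lt_or_gt_of_ne hne' with h1 | h1
    · have h2 : nx P u' ≤ u := nx_le hu.1 h1
      rw [cl_of_ge u'.2.2.2.le (h2.trans hs.1), cl_of_ge u'.2.2.2.le (h2.trans ht.1)]
      ring
    · have h2 : nx P u ≤ u' := nx_le u'.2.1 h1
      rw [cl_of_le (hs.2.trans h2), cl_of_le (ht.2.trans h2)]
      ring

theorem gl_countable (P : Set ℝ) (d : ℝ) : (gl P d).Countable := by
  refine Set.PairwiseDisjoint.countable_of_Ioo (y := nx P) ?_ (fun u hu => hu.2.2)
  intro u hu v hv huv
  rw [Function.onFun, Set.disjoint_left]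
  rintro x ⟨h1, h2⟩ ⟨h3, h4⟩
  rcases lt_or_gt_of_ne huv with h | h
  · exact absurd (nx_le hv.1 h) (not_le.2 (h3.trans h2))
  · exact absurd (nx_le hu.1 h) (not_le.2 (h1.trans h4))

/-- the atomic measure -/
noncomputable def nu (P : Set ℝ) (d : ℝ) (ω : ℝ → ℝ) : Measure ℝ :=
  Measure.sum fun u : gl P d =>
    ENNReal.ofReal (ω u) • (Measure.dirac (u : ℝ) + Measure.dirac (nx P u))

theorem dirac_sing (x : ℝ) : Measure.dirac x ⟂ₘ (volume : Measure ℝ) :=
  ⟨{x}ᶜ, (measurableSet_singleton x).compl, by simp, by simp⟩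

theorem nu_sing : nu P d ω ⟂ₘ volume := by
  have : Countable (gl P d) := (gl_countable P d).to_subtype
  unfold nu
  rw [Measure.MutuallySingular.sum_left]
  intro u
  exact (Measure.MutuallySingular.add_left (dirac_sing _) (dirac_sing _)).smul _

theorem Hyp.nu_finite (h : Hyp P d Fi ω) : nu P d ω univ ≠ ⊤ := by
  unfold nu
  rw [Measure.sum_apply _ MeasurableSet.univ]
  have e : ∀ u : gl P d, (ENNReal.ofReal (ω u) • (Measure.dirac (u : ℝ) +
      Measure.dirac (nx P u))) univ = ENNReal.ofReal (ω u) * 2 := by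
    intro u
    simp only [Measure.smul_apply, Measure.add_apply, measure_univ, smul_eq_mul]
    norm_num
  simp_rw [e]
  rw [ENNReal.tsum_mul_right]
  refine ENNReal.mul_ne_top ?_ (by norm_num)
  exact h.hs.tsum_ofReal_ne_top

open Classical in
theorem Hyp.incr_nu (h : Hyp P d Fi ω) {s t : ℝ} (hst : s ≤ t) (hP : s ∈ P ∨ t ∈ P) :
    ENNReal.ofReal |Hs P d Fi t - Hs P d Fi s| ≤ nu P d ω (Icc s t) := by
  refine (ENNReal.ofReal_le_ofReal (h.incr s t hst)).trans ?_
  unfold nu
  rw [Measure.sum_apply _ measurableSet_Icc]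
  rw [ENNReal.ofReal_tsum_of_nonneg]
  · refine ENNReal.tsum_le_tsum fun u => ?_
    split_ifs with hc
    · simp only [Measure.smul_apply, Measure.add_apply, smul_eq_mul]
      refine le_mul_of_one_le_right bot_le ?_
      rcases hP with hP | hP
      · have h1 : s ≤ (u : ℝ) := by
          by_contra hcon
          exact not_mem_gap (not_le.1 hcon) hc.2 hP
        refine le_trans ?_ (le_add_right le_rfl)
        have hm : (u : ℝ) ∈ Icc s t := ⟨h1, hc.1.le⟩
        rw [Measure.dirac_apply' _ measurableSet_Icc, indicator_of_mem hm]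
        simp
      · have h1 : nx P u ≤ t := nx_le hP hc.1
        refine le_trans ?_ (le_add_left le_rfl)
        have hm : nx P u ∈ Icc s t := ⟨hc.2.le, h1⟩
        rw [Measure.dirac_apply' _ measurableSet_Icc, indicator_of_mem hm]
        simp
    · simp
  · intro u
    split_ifs
    · exact h.ω_nonneg u.2
    · exact le_rfl
  · refine Summable.of_nonneg_of_le (fun u => ?_) (fun u => ?_) h.hs
    · split_ifs
      · exact h.ω_nonneg u.2
      · exact le_rfl
    · split_ifs
      · exact le_rfl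
      · exact h.ω_nonneg u.2

theorem Hyp.deriv (h : Hyp P d Fi ω) : ∀ᵐ x, x ∈ P → HasDerivAt (Hs P d Fi) 0 x := by
  have : IsFiniteMeasure (nu P d ω) := ⟨lt_top_iff_ne_top.2 h.nu_finite⟩
  filter_upwards [Besicovitch.ae_tendsto_rnDeriv (nu P d ω) volume,
    (nu_sing (P := P) (d := d) (ω := ω)).rnDeriv_ae_eq_zero] with x hx h0 hxP
  rw [h0] at hx
  rw [hasDerivAt_iff_isLittleO, Asymptotics.isLittleO_iff]
  intro c hc
  have h1 : ∀ᶠ r in 𝓝[>] (0 : ℝ), nu P d ω (Metric.closedBall x r) /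
      volume (Metric.closedBall x r) < ENNReal.ofReal (c / 2) := by
    refine hx.eventually_lt_const ?_
    simp [hc]
  have h2 : ∀ᶠ r in 𝓝[>] (0 : ℝ), nu P d ω (Metric.closedBall x r) ≤ ENNReal.ofReal (c * r) := by
    filter_upwards [h1, self_mem_nhdsWithin] with r hr hr0
    have hr0' : 0 < r := hr0
    rw [Real.volume_closedBall] at hr
    have h3 : ENNReal.ofReal (2 * r) ≠ 0 := by simp [hr0']
    rw [ENNReal.div_lt_iff (Or.inl h3) (Or.inl ENNReal.ofReal_ne_top)] at hr
    refine hr.le.trans (le_of_eq ?_)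
    rw [← ENNReal.ofReal_mul (by positivity)]
    congr 1
    ring
  rw [eventually_nhdsWithin_iff, Metric.eventually_nhds_iff] at h2
  obtain ⟨ρ, hρ, h2⟩ := h2
  rw [Metric.eventually_nhds_iff]
  refine ⟨ρ, hρ, fun y hy => ?_⟩
  rw [smul_zero, sub_zero, Real.norm_eq_abs, Real.norm_eq_abs]
  rcases eq_or_ne y x with rfl | hne
  · simp
  have hpos : 0 < |y - x| := abs_pos.2 (sub_ne_zero.2 hne)
  have h3 := h2 (y := |y - x|) (by rw [Real.dist_eq, sub_zero, abs_abs, ← Real.dist_eq]; exact hy) hpos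
  have h4 : ENNReal.ofReal |Hs P d Fi y - Hs P d Fi x| ≤ nu P d ω (Metric.closedBall x |y - x|) := by
    rcases le_total y x with hyx | hyx
    · rw [abs_sub_comm]
      refine (h.incr_nu hyx (Or.inr hxP)).trans (measure_mono ?_)
      intro z hz
      rw [Metric.mem_closedBall, Real.dist_eq, abs_sub_comm, abs_of_nonneg (by linarith [hz.2]),
        abs_sub_comm y x, abs_of_nonneg (by linarith)]
      linarith [hz.1]
    · refine (h.incr_nu hyx (Or.inl hxP)).trans (measure_mono ?_)
      intro z hz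
      rw [Metric.mem_closedBall, Real.dist_eq, abs_of_nonneg (by linarith [hz.1]),
        abs_of_nonneg (by linarith)]
      linarith [hz.2]
  exact (ENNReal.ofReal_le_ofReal_iff (by positivity)).1 (h4.trans h3)

/-- the oscillation is at most a common bound -/
theorem osc_le {F : ℝ → ℝ} {c d C : ℝ} (hcd : c ≤ d)
    (h : ∀ s ∈ Icc c d, ∀ t ∈ Icc c d, |F s - F t| ≤ C) : osc F c d ≤ C := by
  unfold osc
  refine csSup_le ⟨_, ⟨(c, c), ⟨⟨le_rfl, hcd⟩, ⟨le_rfl, hcd⟩⟩, rfl⟩⟩ ?_
  rintro _ ⟨⟨s, t⟩, ⟨hs, ht⟩, rfl⟩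
  exact h s hs t ht

open Classical in
theorem Hyp.acstar (h : Hyp P d Fi ω) : ACStar (Hs P d Fi) P := by
  intro ε hε
  -- a finite set with a small remainder
  obtain ⟨T, hT⟩ : ∃ T : Finset (gl P d), ∑' u : gl P d, ω u < (∑ u ∈ T, ω u) + ε := by
    have := (h.hs.hasSum.eventually (lt_mem_nhds (show ∑' u : gl P d, ω u - ε < ∑' u : gl P d, ω u by
      linarith))).exists
    obtain ⟨T, hT⟩ := this
    exact ⟨T, by linarith⟩
  obtain ⟨δ, hδ, hδT⟩ : ∃ δ : ℝ, 0 < δ ∧ ∀ u ∈ T, δ ≤ nx P u - u := by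
    by_cases hne : T.Nonempty
    · refine ⟨T.inf' hne fun u => nx P u - u, ?_, fun u hu => Finset.inf'_le _ hu⟩
      rw [Finset.lt_inf'_iff]
      intro u _
      exact sub_pos.2 u.2.2.2
    · rw [Finset.not_nonempty_iff_eq_empty] at hne
      exact ⟨1, one_pos, by simp [hne]⟩
  refine ⟨δ, hδ, fun n x y hxy hdis hsum => ?_⟩
  set f : Fin n → gl P d → ℝ := fun i u => if x i ≤ (u : ℝ) ∧ (u : ℝ) < y i then ω u else 0 with hf
  have hfs : ∀ i, Summable (f i) := by
    intro i
    refine Summable.of_nonneg_of_le (fun u => ?_) (fun u => ?_) h.hs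
    · rw [hf]; dsimp only
      split_ifs
      · exact h.ω_nonneg u.2
      · exact le_rfl
    · rw [hf]; dsimp only
      split_ifs
      · exact le_rfl
      · exact h.ω_nonneg u.2
  have hosc : ∀ i, osc (Hs P d Fi) (x i) (y i) ≤ ∑' u, f i u := by
    intro i
    refine osc_le (hxy i).2.2.le ?_
    have key : ∀ s ∈ Icc (x i) (y i), ∀ t ∈ Icc (x i) (y i), s ≤ t →
        |Hs P d Fi t - Hs P d Fi s| ≤ ∑' u, f i u := by
      intro s hs t ht hst
      refine (h.incr s t hst).trans ?_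
      refine Summable.tsum_le_tsum (fun u => ?_) ?_ (hfs i)
      · split_ifs with hc
        · have h1 : x i ≤ (u : ℝ) := by
            by_contra hcon
            exact not_mem_gap (not_le.1 hcon) (hs.1.trans_lt hc.2) (hxy i).1
          have h2 : (u : ℝ) < y i := hc.1.trans_le ht.2
          rw [hf]; dsimp only
          rw [if_pos ⟨h1, h2⟩]
        · rw [hf]; dsimp only
          split_ifs
          · exact h.ω_nonneg u.2
          · exact le_rfl
      · refine Summable.of_nonneg_of_le (fun u => ?_) (fun u => ?_) h.hs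
        · split_ifs
          · exact h.ω_nonneg u.2
          · exact le_rfl
        · split_ifs
          · exact le_rfl
          · exact h.ω_nonneg u.2
    intro s hs t ht
    rcases le_total s t with hst | hst
    · rw [abs_sub_comm]
      exact key s hs t ht hst
    · exact key t ht s hs hst
  have h1 : ∑ i, osc (Hs P d Fi) (x i) (y i) ≤ ∑ i, ∑' u, f i u :=
    Finset.sum_le_sum fun i _ => hosc i
  have h2 : ∑ i, ∑' u, f i u = ∑' u, ∑ i, f i u :=
    (Summable.tsum_finsetSum fun i _ => hfs i).symm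
  set g : gl P d → ℝ := fun u => if u ∈ T then 0 else ω u with hg
  have hgs : Summable g := by
    refine Summable.of_nonneg_of_le (fun u => ?_) (fun u => ?_) h.hs
    · rw [hg]; dsimp only
      split_ifs
      · exact le_rfl
      · exact h.ω_nonneg u.2
    · rw [hg]; dsimp only
      split_ifs
      · exact h.ω_nonneg u.2
      · exact le_rfl
  have h3 : ∑' u, ∑ i, f i u ≤ ∑' u, g u := by
    refine Summable.tsum_le_tsum (fun u => ?_) (summable_sum fun i _ => hfs i) hgs
    by_cases hex : ∃ i, x i ≤ (u : ℝ) ∧ (u : ℝ) < y i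
    · obtain ⟨i, hi1, hi2⟩ := hex
      have huniq : ∀ j, j ≠ i → f j u = 0 := by
        intro j hj
        rw [hf]; dsimp only
        rw [if_neg]
        rintro ⟨hj1, hj2⟩
        have := hdis i j hj.symm
        rw [Set.disjoint_left] at this
        obtain ⟨z, hz1, hz2⟩ := exists_between (lt_min hi2 hj2)
        exact this ⟨hi1.trans_lt hz1, hz2.trans_le (min_le_left _ _)⟩
          ⟨hj1.trans_lt hz1, hz2.trans_le (min_le_right _ _)⟩
      rw [Finset.sum_eq_single i (fun j _ hj => huniq j hj) (by simp)]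
      have hnT : u ∉ T := by
        intro huT
        have h4 := hδT u huT
        have h5 : nx P u ≤ y i := nx_le (hxy i).2.1 hi2
        have h6 : y i - x i ≤ ∑ j, (y j - x j) :=
          Finset.single_le_sum (f := fun j => y j - x j) (fun j _ => (sub_pos.2 (hxy j).2.2).le)
            (Finset.mem_univ i)
        linarith
      rw [hf, hg]; dsimp only
      rw [if_neg hnT]
      split_ifs
      · exact le_rfl
      · exact h.ω_nonneg u.2
    · push Not at hex
      have : ∑ i, f i u = 0 := by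
        refine Finset.sum_eq_zero fun i _ => ?_
        rw [hf]; dsimp only
        rw [if_neg]
        rintro ⟨h4, h5⟩
        exact absurd h5 (not_lt.2 (hex i h4))
      rw [this, hg]; dsimp only
      split_ifs
      · exact le_rfl
      · exact h.ω_nonneg u.2
  have h4 : ∑' u, g u = ∑' u : gl P d, ω u - ∑ u ∈ T, ω u := by
    have e1 : ∀ u : gl P d, ω u = g u + (if u ∈ T then ω u else 0) := by
      intro u
      rw [hg]; dsimp only
      split_ifs <;> simp
    have hs2 : Summable fun u : gl P d => if u ∈ T then ω u else 0 :=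
      summable_of_ne_finset_zero (s := T) (fun u hu => if_neg hu)
    have e2 : ∑' u : gl P d, ω u = ∑' u, g u + ∑' u : gl P d, (if u ∈ T then ω u else 0) := by
      rw [← hgs.tsum_add hs2]
      exact tsum_congr e1
    have e3 : ∑' u : gl P d, (if u ∈ T then ω u else 0) = ∑ u ∈ T, ω u := by
      rw [tsum_eq_sum (s := T) (fun u hu => if_neg hu)]
      exact Finset.sum_congr rfl fun u hu => if_pos hu
    linarith
  linarith

end

end Pool.Agent.Zk92.Den
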