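import Mathlib
import Pool.Agent.Q302.DJ.Stmts
import Pool.Agent.Zk92.Den.Hsum

/-!
# The indefinite Lebesgue integral
-/

set_option autoImplicit false

namespace Pool.Agent.Zk92.Den

open MeasureTheory Set Filter Topology
open Pool.Agent.Q302.DJ (osc ACStar)

theorem int_acstar {h : ℝ → ℝ} (hi : Integrable h) (c : ℝ) (K : Set ℝ) :
    ACStar (fun x => ∫ t in c..x, h t) K := by
  intro ε hε
  have hfin : ∫⁻ x, ‖h x‖ₑ ≠ ⊤ := by
    have := hi.2
    rw [hasFiniteIntegral_iff_enorm] at this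
    exact this.ne
  obtain ⟨δ, hδ, hA⟩ := exists_pos_setLIntegral_lt_of_measure_lt hfin
    (ε := ENNReal.ofReal ε) (by simpa using hε)
  obtain ⟨δ', hδ', hδδ⟩ : ∃ δ' : ℝ, 0 < δ' ∧ ENNReal.ofReal δ' ≤ δ := by
    rcases eq_or_ne δ ⊤ with rfl | htop
    · exact ⟨1, one_pos, le_top⟩
    · exact ⟨δ.toReal, ENNReal.toReal_pos hδ.ne' htop, (ENNReal.ofReal_toReal htop).le⟩
  refine ⟨δ', hδ', fun n x y hxy hdis hsum => ?_⟩
  have hosc : ∀ i, osc (fun x => ∫ t in c..x, h t) (x i) (y i) ≤ ∫ t in Ioo (x i) (y i), ‖h t‖ := by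
    intro i
    refine osc_le (hxy i).2.2.le ?_
    intro s hs t ht
    rw [intervalIntegral.integral_interval_sub_left hi.intervalIntegrable hi.intervalIntegrable]
    rw [← integral_Ioc_eq_integral_Ioo]
    refine (intervalIntegral.norm_integral_le_integral_norm_uIoc (f := h) (a := t) (b := s)
      (μ := volume)).trans ?_
    refine setIntegral_mono_set hi.norm.integrableOn (Eventually.of_forall fun _ => norm_nonneg _) ?_
    refine (HasSubset.Subset.eventuallyLE ?_)
    intro z hz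
    rw [uIoc, mem_Ioc] at hz
    refine ⟨?_, ?_⟩
    · exact (le_min ht.1 hs.1).trans_lt hz.1
    · exact hz.2.trans (max_le ht.2 hs.2)
  have h1 : ∑ i, osc (fun x => ∫ t in c..x, h t) (x i) (y i) ≤
      ∑ i, ∫ t in Ioo (x i) (y i), ‖h t‖ := Finset.sum_le_sum fun i _ => hosc i
  have hdis' : Pairwise (Function.onFun Disjoint fun i => Ioo (x i) (y i)) :=
    fun i j hij => hdis i j hij
  have h2 : ∫ t in ⋃ i, Ioo (x i) (y i), ‖h t‖ = ∑ i, ∫ t in Ioo (x i) (y i), ‖h t‖ :=
    integral_iUnion_fintype (fun i => measurableSet_Ioo) hdis' (fun i => hi.norm.integrableOn)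
  have h3 : volume (⋃ i, Ioo (x i) (y i)) < δ := by
    rw [measure_iUnion hdis' (fun i => measurableSet_Ioo)]
    simp only [Real.volume_Ioo]
    rw [tsum_fintype, ← ENNReal.ofReal_sum_of_nonneg (fun i _ => (sub_pos.2 (hxy i).2.2).le)]
    exact ((ENNReal.ofReal_lt_ofReal_iff hδ').2 hsum).trans_le hδδ
  have h4 := hA _ h3
  have h5 : ∫ t in ⋃ i, Ioo (x i) (y i), ‖h t‖ < ε := by
    rw [integral_norm_eq_lintegral_enorm hi.1.restrict]
    exact (ENNReal.lt_ofReal_iff_toReal_lt (h4.trans_le le_top).ne).1 h4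
  linarith

theorem int_continuous {h : ℝ → ℝ} (hi : Integrable h) (c : ℝ) :
    Continuous (fun x => ∫ t in c..x, h t) :=
  intervalIntegral.continuous_primitive (fun _ _ => hi.intervalIntegrable) c

theorem int_deriv {h : ℝ → ℝ} (hi : Integrable h) (c : ℝ) :
    ∀ᵐ x, HasDerivAt (fun x => ∫ t in c..x, h t) (h x) x := by
  filter_upwards [LocallyIntegrable.ae_hasDerivAt_integral hi.locallyIntegrable] with x hx
  exact hx c

end Pool.Agent.Zk92.Den
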