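import Mathlib
import Pool.Agent.Zk92.Den.Basic
import Pool.Agent.Zk92.Den.Gap
import Pool.Agent.Zk92.Den.Hsum
import Pool.Agent.Zk92.Den.Integ
import Pool.Agent.Q302.DJ.TaskACc
import Pool.Agent.Q302.DJ.TaskClos
import Pool.Agent.Q302.DJ.TaskGlue

/-!
# The extension of the integral (Cauchy–Harnack)
-/

set_option autoImplicit false

namespace Pool.Agent.Zk92.Den

open MeasureTheory Set Filter Topology
open Pool.Agent.Q302.DJ

theorem glueTask : TaskGlue := TaskGlue.main TaskClos.main TaskRestr.main TaskCongr.main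

theorem acstar_congr {F G : ℝ → ℝ} {P : Set ℝ} {c d : ℝ} (hP : P ⊆ Icc c d)
    (h : ∀ x ∈ Icc c d, F x = G x) (hG : ACStar G P) : ACStar F P := by
  intro ε hε
  obtain ⟨δ, hδ, hh⟩ := hG ε hε
  refine ⟨δ, hδ, fun n x y hxy hdis hsum => ?_⟩
  have := hh n x y hxy hdis hsum
  rwa [Finset.sum_congr rfl fun i _ => TaskCongr.osc_congr (C := 0) (fun x hx => by
    rw [h x hx, add_zero]) (hP (hxy i).1) (hP (hxy i).2.1)]

theorem acstar_mono {F : ℝ → ℝ} {P Q : Set ℝ} (hPQ : P ⊆ Q) (h : ACStar F Q) : ACStar F P := by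
  intro ε hε
  obtain ⟨δ, hδ, hh⟩ := h ε hε
  exact ⟨δ, hδ, fun n x y hxy hdis hsum =>
    hh n x y (fun i => ⟨hPQ (hxy i).1, hPQ (hxy i).2.1, (hxy i).2.2⟩) hdis hsum⟩

theorem lintegral_le_of_trunc {ψ : ℝ → ENNReal} {S : Set ℝ}
    (hψ : AEMeasurable ψ (volume.restrict S)) {C : ENNReal}
    (h : ∀ n : ℕ, ∫⁻ x in S, min (ψ x) n ≤ C) : ∫⁻ x in S, ψ x ≤ C := by
  have h1 : ∀ x, ψ x = ⨆ n : ℕ, min (ψ x) n := by
    intro x
    apply le_antisymm
    · rcases eq_or_ne (ψ x) ⊤ with htop | htop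
      · rw [htop]
        simp only [le_top, inf_of_le_right]
        rw [ENNReal.iSup_natCast]
      · obtain ⟨n, hn⟩ := exists_nat_gt (ψ x).toNNReal
        refine le_iSup_of_le n (le_min le_rfl ?_)
        rw [← ENNReal.coe_toNNReal htop]
        exact_mod_cast hn.le
    · exact iSup_le fun n => min_le_left _ _
  calc ∫⁻ x in S, ψ x = ∫⁻ x in S, ⨆ n : ℕ, min (ψ x) n := by simp_rw [← h1]
    _ = ⨆ n : ℕ, ∫⁻ x in S, min (ψ x) n := by
        refine lintegral_iSup' (fun n => hψ.min aemeasurable_const) ?_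
        refine Eventually.of_forall fun x n m hnm => ?_
        exact min_le_min le_rfl (by exact_mod_cast hnm)
    _ ≤ C := iSup_le h

/-- what we get on a resolved interval -/
def Nice (a b : ℝ) (h : a ≤ b) (φ : ℝ → ℝ) (U : Set (ℚ × ℚ)) (I : ℚ × ℚ) (F : CC a b) : Prop :=
  ACStar (ex h F) (KU a b U ∩ Icc (pt a b I.1) (pt a b I.2)) ∧
  (∀ᵐ x, x ∈ KU a b U ∩ Icc (pt a b I.1) (pt a b I.2) → HasDerivAt (ex h F) (φ x) x) ∧
  IsPrim φ (ex h F) (pt a b I.1) (pt a b I.2)

theorem harnack {a b : ℝ} (hab : a < b) {φ : ℝ → ℝ}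
    (hφ : AEStronglyMeasurable φ (volume.restrict (Icc a b))) {Φ : Y} (hΦ : TrueInt a b φ Φ)
    {U : Set (ℚ × ℚ)} (hU : St U) (hT : ∀ J ∈ U, (Φ J).2 = true) {I : ℚ × ℚ} (hI : Valid I) {M : ℕ}
    (hPr : Pr a b (fun x => ‖φ x‖ₑ) U (fun J => (Φ J).1) I M) :
    ∃ F : CC a b, Nice a b hab.le φ U I F := by
  classical
  obtain ⟨hVB, hUC, hIB⟩ := hPr
  set c := pt a b I.1 with hc
  set d := pt a b I.2 with hd
  have hcd : c < d := hI.lt hab
  have hba : 0 < b - a := sub_pos.2 hab
  have hIcc : Icc c d ⊆ Icc a b := hI.sub_Icc hab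
  set K := KU a b U ∩ Icc c d with hK
  have hKc : IsClosed K := (isClosed_KU a b U).inter isClosed_Icc
  set P : Set ℝ := K ∪ {c, d} with hP
  have hPc : IsClosed P := hKc.union ((Set.toFinite {c, d}).isClosed)
  have hcP : c ∈ P := Or.inr (by simp)
  have hdP : d ∈ P := Or.inr (by simp)
  have hPs : P ⊆ Icc c d := by
    rintro x (hx | hx)
    · exact hx.2
    · rcases hx with rfl | hx
      · exact ⟨le_rfl, hcd.le⟩
      · rw [mem_singleton_iff] at hx
        rw [hx]; exact ⟨hcd.le, le_rfl⟩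
  -- true values
  have hval : ∀ q r : ℚ, Valid (q, r) → ∀ F, IsPrim φ F (pt a b q) (pt a b r) →
      (Φ (q, r)).1 = F (pt a b r) - F (pt a b q) := fun q r hv F hF =>
    (hΦ q r hv.1 hv.2.1 hv.2.2).2 F hF
  have hprimJ : ∀ q r : ℚ, (q, r) ∈ U → ∃ F, IsPrim φ F (pt a b q) (pt a b r) := by
    intro q r hqr
    have hv := hU.val _ hqr
    exact (hΦ q r hv.1 hv.2.1 hv.2.2).1.1 (hT _ hqr)
  -- the intervals in the gaps
  have hgapU : ∀ u ∈ gl P d, ∀ q r : ℚ, u < pt a b q → q < r → pt a b r < nx P u →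
      (q, r) ∈ U ∧ I.1 ≤ q ∧ r ≤ I.2 := by
    intro u hu q r h1 h2 h3
    have hv : nx P u ∈ P := nx_mem hPc hdP hu
    have h4 : I.1 ≤ q := ((pt_lt hab).1 ((hPs hu.1).1.trans_lt h1)).le
    have h5 : r ≤ I.2 := ((pt_lt hab).1 (h3.trans_le (hPs hv).2)).le
    refine ⟨hU.cover hab ⟨hI.1.trans h4, h2, h5.trans hI.2.2⟩ ?_, h4, h5⟩
    intro x hx hxK
    have h6 : x ∈ P := Or.inl ⟨hxK, (hPs hu.1).1.trans (h1.le.trans hx.1),
      hx.2.trans (h3.le.trans (hPs hv).2)⟩
    exact not_mem_gap (h1.trans_le hx.1) (hx.2.trans_lt h3) h6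
  -- the primitives on the gaps
  have hgp : ∀ u : ℝ, ∃ A : ℝ → ℝ, u ∈ gl P d → ContinuousOn A (Icc u (nx P u)) ∧
      ∀ s t, u < s → s < t → t < nx P u → IsPrim φ A s t := by
    intro u
    by_cases hu : u ∈ gl P d
    swap
    · exact ⟨0, fun h => absurd h hu⟩
    have h1 : ∀ s t, u < s → s < t → t < nx P u → ∃ q r : ℚ, u < pt a b q ∧ q < r ∧
        pt a b r < nx P u ∧ pt a b q < s ∧ t < pt a b r := by
      intro s t hs hst ht
      obtain ⟨q, hq1, hq2⟩ := exists_pt hab hs
      obtain ⟨r, hr1, hr2⟩ := exists_pt hab ht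
      exact ⟨q, r, hq1, (pt_lt hab).1 (hq2.trans (hst.trans hr1)), hr2, hq2, hr1⟩
    obtain ⟨A, hA1, hA2⟩ := gap_prim (φ := φ) hu.2.2 (by
      intro s t hs hst ht
      obtain ⟨q, r, h2, h3, h4, h5, h6⟩ := h1 s t hs hst ht
      obtain ⟨F, hF⟩ := hprimJ q r (hgapU u hu q r h2 h3 h4).1
      exact ⟨F, prim_restr h5.le hst h6.le hF⟩) (by
      intro ε hε
      obtain ⟨k, hk⟩ := exists_nat_one_div_lt hε
      obtain ⟨m, hm⟩ := hUC k
      refine ⟨(b - a) / ((m : ℝ) + 1), by positivity, fun F s t hs hst ht hlen hF => ?_⟩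
      have hFc : ContinuousOn F (Icc s t) := hF.1.1
      refine (dens hab hFc (C := 1 / ((k : ℝ) + 1)) (by positivity) (fun q r hq hqr hr => ?_)
        s ⟨le_rfl, hst.le⟩ t ⟨hst.le, le_rfl⟩).trans hk.le
      have h2 := hgapU u hu q r (hs.trans hq) hqr (hr.trans ht)
      rw [← hval q r (hU.val _ h2.1) F (prim_restr hq.le ((pt_lt hab).2 hqr) hr.le hF)]
      refine hm q r h2.2.1 hqr h2.2.2 h2.1 ?_
      have h3 : pt a b r - pt a b q < (b - a) / ((m : ℝ) + 1) := by linarith
      rw [pt_sub, div_eq_mul_one_div] at h3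
      exact lt_of_mul_lt_mul_left h3 hba.le)
    exact ⟨A, fun _ => ⟨hA1, hA2⟩⟩
  choose Fi hFi using hgp
  -- the bound
  set W : ℝ → Set ℝ := fun u => {z | ∃ q r : ℚ, u < pt a b q ∧ q < r ∧ pt a b r < nx P u ∧
    z = |(Φ (q, r)).1|} with hW
  set ω : ℝ → ℝ := fun u => sSup (W u) with hω
  have hWM : ∀ u ∈ gl P d, ∀ z ∈ W u, z ≤ M := by
    rintro u hu z ⟨q, r, h1, h2, h3, rfl⟩
    obtain ⟨h4, h5, h6⟩ := hgapU u hu q r h1 h2 h3
    have := hVB 1 (fun _ => q) (fun _ => r) (fun _ => ⟨h5, h2, h6, h4⟩) (fun i j hij => by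
      exfalso
      have := Subsingleton.elim i j
      rw [this] at hij
      exact lt_irrefl _ hij)
    simpa using this
  have hWb : ∀ u ∈ gl P d, BddAbove (W u) := fun u hu => ⟨M, hWM u hu⟩
  have hWne : ∀ u ∈ gl P d, (W u).Nonempty := by
    intro u hu
    obtain ⟨q, hq1, hq2⟩ := exists_pt hab hu.2.2
    obtain ⟨r, hr1, hr2⟩ := exists_pt hab hq2
    exact ⟨_, q, r, hq1, (pt_lt hab).1 hr1, hr2, rfl⟩
  have hω0 : ∀ u ∈ gl P d, 0 ≤ ω u := by
    intro u hu
    obtain ⟨z, hz⟩ := hWne u hu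
    obtain ⟨q, r, -, -, -, hz'⟩ := id hz
    exact (by rw [hz']; exact abs_nonneg _ : (0 : ℝ) ≤ z).trans (le_csSup (hWb u hu) hz)
  have hhyp : Hyp P d Fi ω := by
    refine ⟨hPc, hdP, fun x hx => (hPs hx).2, fun u hu => (hFi u hu).1, ?_, ?_⟩
    · intro u hu
      refine dens hab (hFi u hu).1 (hω0 u hu) (fun q r hq hqr hr => ?_)
      rw [← hval q r (hU.val _ (hgapU u hu q r hq hqr hr).1) _
        ((hFi u hu).2 _ _ hq ((pt_lt hab).2 hqr) hr)]
      exact le_csSup (hWb u hu) ⟨q, r, hq, hqr, hr, rfl⟩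
    · refine summable_of_sum_le (c := M) (fun u => hω0 u u.2) (fun T => ?_)
      refine le_of_forall_pos_le_add fun η hη => ?_
      have hη' : 0 < η / (T.card + 1) := by positivity
      have h1 : ∀ u : gl P d, ∃ q r : ℚ, (u : ℝ) < pt a b q ∧ q < r ∧ pt a b r < nx P u ∧
          ω u < |(Φ (q, r)).1| + η / (T.card + 1) := by
        intro u
        obtain ⟨z, ⟨q, r, h1, h2, h3, rfl⟩, hz⟩ := exists_lt_of_lt_csSup (hWne u u.2)
          (show ω u - η / (T.card + 1) < sSup (W u) by
            show ω u - η / (T.card + 1) < ω u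
            linarith)
        exact ⟨q, r, h1, h2, h3, by linarith⟩
      choose q r hq hqr hr hlt using h1
      let e : Fin T.card ↪o gl P d := T.orderEmbOfFin rfl
      have h2 := hVB T.card (fun i => q (e i)) (fun i => r (e i)) (fun i => by
        obtain ⟨h4, h5, h6⟩ := hgapU _ (e i).2 _ _ (hq (e i)) (hqr (e i)) (hr (e i))
        exact ⟨h5, hqr _, h6, h4⟩) (fun i j hij => by
        have hlt' : (e i : ℝ) < e j := (e.lt_iff_lt).2 hij
        have h3 : nx P (e i) ≤ e j := nx_le (e j).2.1 hlt'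
        have h4 : pt a b (r (e i)) < pt a b (q (e j)) := (hr _).trans_le (h3.trans (hq _).le)
        refine ⟨(pt_lt hab).1 h4, fun hcon => ?_⟩
        have h5 : nx P (e i) ∈ P := nx_mem hPc hdP (e i).2
        have h6 : nx P (e i) ∈ KU a b U := by
          rcases h5 with h5 | h5
          · exact h5.1
          · exfalso
            rcases h5 with h5 | h5
            · have := (e i).2.2.2
              have := (hPs (e i).2.1).1
              linarith
            · rw [mem_singleton_iff] at h5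
              have := (e j).2.2.1
              linarith
        exact not_mem_KU hcon (show nx P (e i) ∈ Op a b (r (e i), q (e j)) from
          ⟨Or.inl (hr _), Or.inl (h3.trans_lt (hq _))⟩) h6)
      have h3 : ∑ i : Fin T.card, |(Φ (q (e i), r (e i))).1| = ∑ u ∈ T, |(Φ (q u, r u)).1| := by
        have : T = Finset.map e.toEmbedding Finset.univ := by
          rw [Finset.map_orderEmbOfFin_univ]
        conv_rhs => rw [this]
        rw [Finset.sum_map]
        rfl
      rw [h3] at h2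
      calc ∑ u ∈ T, ω u ≤ ∑ u ∈ T, (|(Φ (q u, r u)).1| + η / (T.card + 1)) :=
            Finset.sum_le_sum fun u _ => (hlt u).le
        _ = ∑ u ∈ T, |(Φ (q u, r u)).1| + T.card * (η / (T.card + 1)) := by
            rw [Finset.sum_add_distrib, Finset.sum_const, nsmul_eq_mul]
        _ ≤ M + η := by
            have : (T.card : ℝ) * (η / (T.card + 1)) ≤ η := by
              rw [mul_div_assoc', div_le_iff₀ (by positivity)]
              nlinarith
            linarith
  -- the integral part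
  set g : ℝ → ℝ := K.indicator φ with hg
  have hφK : AEStronglyMeasurable φ (volume.restrict K) :=
    hφ.mono_measure (Measure.restrict_mono (fun x hx => hIcc hx.2) le_rfl)
  have hgint : Integrable g := by
    rw [hg, integrable_indicator_iff hKc.measurableSet]
    refine ⟨hφK, ?_⟩
    rw [hasFiniteIntegral_iff_enorm]
    have e : Icc c d ∩ KU a b U = K := inter_comm _ _
    refine (lintegral_le_of_trunc (C := M) hφK.enorm (fun n => ?_)).trans_lt
      (ENNReal.natCast_lt_top M)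
    have := hIB n
    unfold IB at this
    rwa [← hc, ← hd, e] at this
  set N : ℝ → ℝ := fun x => ∫ t in c..x, (-g t) with hN
  have hNc : Continuous N := int_continuous hgint.neg c
  set H : ℝ → ℝ := Hs P d Fi with hH
  have hHc : Continuous H := hhyp.continuous
  set G : ℝ → ℝ := fun x => H x - N x with hG
  have hGc : Continuous G := hHc.sub hNc
  have hGac : ACStar G P := by
    have := TaskSub.main H N c d hHc.continuousOn hNc.continuousOn P P hPs hhyp.acstar
      (int_acstar hgint.neg c P)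
    rwa [inter_self] at this
  have hGder : ∀ᵐ x, x ∈ P → HasDerivAt G (φ x) x := by
    have hne1 : ∀ᵐ x : ℝ, x ≠ c := Measure.ae_ne volume c
    have hne2 : ∀ᵐ x : ℝ, x ≠ d := Measure.ae_ne volume d
    filter_upwards [hhyp.deriv, int_deriv hgint.neg c, hne1, hne2] with x h1 h2 h3 h4 hxP
    have hxK : x ∈ K := by
      rcases hxP with hx | hx | hx
      · exact hx
      · exact absurd hx h3
      · exact absurd hx h4
    have h5 := (h1 hxP).sub h2
    have e : (0 : ℝ) - (-g) x = φ x := by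
      simp [hg, indicator_of_mem hxK]
    rw [e] at h5
    exact h5
  have hGgap : ∀ u ∈ gl P d, ∀ s t, u < s → s < t → t < nx P u →
      G t - G s = Fi u t - Fi u s := by
    intro u hu s t hs hst ht
    have h1 := hhyp.on_gap hu (s := s) (t := t) ⟨hs.le, (hst.trans ht).le⟩ ⟨(hs.trans hst).le, ht.le⟩
    have h2 : N t - N s = 0 := by
      rw [hN]
      dsimp only
      have hii : ∀ x y : ℝ, IntervalIntegrable (fun t => -g t) volume x y :=
        fun x y => hgint.neg.intervalIntegrable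
      rw [intervalIntegral.integral_interval_sub_left (hii _ _) (hii _ _)]
      refine intervalIntegral.integral_zero_ae ?_
      refine Eventually.of_forall fun x hx => ?_
      rw [uIoc_of_le hst.le] at hx
      have : x ∉ K := fun hxK =>
        not_mem_gap (hs.trans hx.1) (hx.2.trans_lt ht) (Or.inl hxK : x ∈ P)
      simp [hg, indicator_of_notMem this]
    rw [hG]
    dsimp only
    linarith
  -- the function
  let F : CC a b := ⟨fun x => G x, hGc.comp continuous_subtype_val⟩
  have hFG : ∀ x ∈ Icc a b, ex hab.le F x = G x := by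
    intro x hx
    show IccExtend hab.le F x = G x
    rw [IccExtend_of_mem _ _ hx]
    rfl
  have hFac : ACStar (ex hab.le F) P := acstar_congr (hPs.trans hIcc) hFG hGac
  have hFder : ∀ᵐ x, x ∈ P → HasDerivAt (ex hab.le F) (φ x) x := by
    have hne1 : ∀ᵐ x : ℝ, x ≠ a := Measure.ae_ne volume a
    have hne2 : ∀ᵐ x : ℝ, x ≠ b := Measure.ae_ne volume b
    filter_upwards [hGder, hne1, hne2] with x h1 h2 h3 hxP
    have hx := hIcc (hPs hxP)
    refine (h1 hxP).congr_of_eventuallyEq ?_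
    filter_upwards [Ioo_mem_nhds (lt_of_le_of_ne hx.1 (Ne.symm h2)) (lt_of_le_of_ne hx.2 h3)] with y hy
    exact hFG y ⟨hy.1.le, hy.2.le⟩
  have hexc : Continuous (ex hab.le F) := by
    unfold ex
    exact F.continuous.Icc_extend'
  refine ⟨F, acstar_mono (fun x hx => Or.inl hx) hFac, ?_, ?_⟩
  · filter_upwards [hFder] with x hx hxK using hx (Or.inl hxK)
  · -- the closed set as the closure of a sequence
    have : Nonempty P := ⟨⟨c, hcP⟩⟩
    let p : ℕ → ℝ := fun m => (TopologicalSpace.denseSeq P m : ℝ)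
    have hpP : ∀ m, p m ∈ P := fun m => (TopologicalSpace.denseSeq P m).2
    have hpcl : closure (range p) = P := by
      apply Subset.antisymm
      · refine closure_minimal ?_ hPc
        rintro _ ⟨m, rfl⟩
        exact hpP m
      · intro x hx
        rw [Metric.mem_closure_iff]
        intro ε hε
        obtain ⟨m, hm⟩ := (TopologicalSpace.denseRange_denseSeq P).exists_dist_lt ⟨x, hx⟩ hε
        exact ⟨p m, ⟨m, rfl⟩, hm⟩
    refine glueTask a b hab φ Φ hΦ F p I.1 I.2 ⟨hI, fun n => hPs (hpP n),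
      TaskACc.main _ P p hexc hFac hpP, ?_⟩ ?_
    · intro q r hq hqr hr hav
      have hnP : ∀ x ∈ Icc (pt a b q) (pt a b r), x ∉ P := by
        intro x hx hxP
        obtain ⟨k, hk⟩ := hav
        have hk0 : (0 : ℝ) < 1 / ((k : ℝ) + 1) := by positivity
        rw [← hpcl, Metric.mem_closure_iff] at hxP
        obtain ⟨_, ⟨m, rfl⟩, hm⟩ := hxP _ hk0
        rw [Real.dist_eq, abs_lt] at hm
        rcases hk m with h4 | h4
        · linarith [hx.1]
        · linarith [hx.2]
      have hv : Valid (q, r) := ⟨hI.1.trans hq, hqr, hr.trans hI.2.2⟩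
      have hcq : c ≤ pt a b q := (pt_le hab).2 hq
      have hrd : pt a b r ≤ d := (pt_le hab).2 hr
      have hqr' : pt a b q < pt a b r := (pt_lt hab).2 hqr
      have hqrU : (q, r) ∈ U := hU.cover hab hv (fun x hx hxK =>
        hnP x hx (Or.inl ⟨hxK, hcq.trans hx.1, hx.2.trans hrd⟩))
      refine ⟨hT _ hqrU, ?_⟩
      -- the gap containing it
      set u := sSup (P ∩ Iic (pt a b q)) with hu
      have hPcomp : IsCompact (P ∩ Iic (pt a b q)) :=
        (isCompact_Icc.of_isClosed_subset hPc hPs).inter_right isClosed_Iic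
      have hune : (P ∩ Iic (pt a b q)).Nonempty := ⟨c, hcP, hcq⟩
      have huP : u ∈ P ∩ Iic (pt a b q) := hPcomp.sSup_mem hune
      have hulast : ∀ x ∈ P, x ≤ pt a b q → x ≤ u := fun x hx hxq =>
        le_csSup hPcomp.bddAbove ⟨hx, hxq⟩
      have huq : u < pt a b q := lt_of_le_of_ne huP.2 (fun e =>
        hnP (pt a b q) ⟨le_rfl, hqr'.le⟩ (by rw [← e]; exact huP.1))
      have hud : u < d := huq.trans_le (hqr'.le.trans hrd)
      have hnxP : nx P u ∈ P ∧ u ≤ nx P u := by
        have h2 : BddBelow (P ∩ Ioi u) := ⟨u, fun x hx => le_of_lt hx.2⟩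
        have h3 : (P ∩ Ioi u).Nonempty := ⟨d, hdP, hud⟩
        exact ⟨(hPc.closure_subset_iff.2 inter_subset_left) (csInf_mem_closure h3 h2),
          le_csInf h3 fun x hx => le_of_lt hx.2⟩
      have hrnx : pt a b r < nx P u := by
        unfold nx
        -- every point of `P` beyond `u` is beyond `pt r`
        have h3 : (P ∩ Ioi u).Nonempty := ⟨d, hdP, hud⟩
        have h4 : ∀ x ∈ P ∩ Ioi u, pt a b r < x := by
          intro x hx
          by_contra hcon
          rw [not_lt] at hcon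
          rcases le_or_gt x (pt a b q) with h5 | h5
          · exact absurd (hulast x hx.1 h5) (not_le.2 hx.2)
          · exact hnP x ⟨h5.le, hcon⟩ hx.1
        rcases (le_csInf h3 fun x hx => (h4 x hx).le).lt_or_eq with h5 | h5
        · exact h5
        · exfalso
          exact hnP (pt a b r) ⟨hqr'.le, le_rfl⟩ (by rw [h5]; exact hnxP.1)
      have hugl : u ∈ gl P d := ⟨huP.1, hud, huq.trans (hqr'.trans hrnx)⟩
      rw [hFG _ (hIcc ⟨hcq.trans hqr'.le, hrd⟩), hFG _ (hIcc ⟨hcq, hqr'.le.trans hrd⟩),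
        hGgap u hugl _ _ huq hqr' hrnx]
      exact hval q r hv _ ((hFi u hugl).2 _ _ huq hqr' hrnx)
    · unfold DerivOn
      refine ae_restrict_of_ae ?_
      filter_upwards [hFder] with x hx hxp
      rw [hpcl] at hxp
      exact hx hxp

end Pool.Agent.Zk92.Den
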