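import Mathlib
import Pool.Agent.Q302.DJ.Stmts
import Pool.Agent.Q302.DJ.TaskACc
import Pool.Agent.Zk92.Den.Hsum

/-!
# `AC_*` implies bounded variation in the restricted sense, and the integrability of the derivative
-/

set_option autoImplicit false

namespace Pool.Agent.Zk92.Den

open MeasureTheory Set Filter Topology
open Pool.Agent.Q302.DJ (osc ACStar)
open Pool.Agent.Q302.DJ.TaskACc (le_osc)

/-- the condition in `AC_*` for a finite subfamily -/
theorem finset_form {F : ℝ → ℝ} {K : Set ℝ} {ε δ : ℝ}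
    (h : ∀ (n : ℕ) (x y : Fin n → ℝ), (∀ i, x i ∈ K ∧ y i ∈ K ∧ x i < y i) →
      (∀ i j, i ≠ j → Disjoint (Ioo (x i) (y i)) (Ioo (x j) (y j))) →
      ∑ i, (y i - x i) < δ → ∑ i, osc F (x i) (y i) < ε)
    {ι : Type} [Fintype ι] [DecidableEq ι] (s : Finset ι) (x y : ι → ℝ)
    (h1 : ∀ i ∈ s, x i ∈ K ∧ y i ∈ K ∧ x i < y i)
    (h2 : ∀ i ∈ s, ∀ j ∈ s, i ≠ j → Disjoint (Ioo (x i) (y i)) (Ioo (x j) (y j)))
    (h3 : ∑ i ∈ s, (y i - x i) < δ) : ∑ i ∈ s, osc F (x i) (y i) < ε := by
  have e := s.equivFin.symm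
  have hs : ∀ f : ι → ℝ, ∑ j : Fin s.card, f (e j) = ∑ i ∈ s, f i := by
    intro f
    rw [← Finset.sum_coe_sort s f]
    exact Equiv.sum_comp e (fun i : s => f i)
  have := h s.card (fun j => x (e j)) (fun j => y (e j)) (fun j => h1 _ (e j).2) (fun i j hij =>
    h2 _ (e i).2 _ (e j).2 (fun hc => hij (e.injective (Subtype.ext hc)))) (by
      rw [hs (fun i => y i - x i)]; exact h3)
  rwa [hs (fun i => osc F (x i) (y i))] at this

/-- disjoint intervals in `[p, q]` have total length at most `q - p` -/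
theorem sum_len_le {ι : Type} (s : Finset ι) (x y : ι → ℝ) {p q : ℝ} (hpq : p ≤ q)
    (h1 : ∀ i ∈ s, p ≤ x i ∧ x i < y i ∧ y i ≤ q)
    (h2 : ∀ i ∈ s, ∀ j ∈ s, i ≠ j → Disjoint (Ioo (x i) (y i)) (Ioo (x j) (y j))) :
    ∑ i ∈ s, (y i - x i) ≤ q - p := by
  have h3 : volume (⋃ i ∈ s, Ioo (x i) (y i)) = ∑ i ∈ s, volume (Ioo (x i) (y i)) :=
    measure_biUnion_finset (fun i hi j hj hij => h2 i hi j hj hij) (fun i _ => measurableSet_Ioo)
  have h4 : volume (⋃ i ∈ s, Ioo (x i) (y i)) ≤ volume (Icc p q) := by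
    refine measure_mono (iUnion₂_subset fun i hi z hz => ?_)
    exact ⟨(h1 i hi).1.trans hz.1.le, hz.2.le.trans (h1 i hi).2.2⟩
  rw [h3, Real.volume_Icc] at h4
  simp only [Real.volume_Ioo] at h4
  rw [← ENNReal.ofReal_sum_of_nonneg (fun i hi => (sub_pos.2 (h1 i hi).2.1).le)] at h4
  exact (ENNReal.ofReal_le_ofReal_iff (sub_nonneg.2 hpq)).1 h4

theorem osc_nonneg' {F : ℝ → ℝ} (hF : Continuous F) {c d : ℝ} (h : c ≤ d) : 0 ≤ osc F c d :=
  (abs_nonneg _).trans (le_osc F hF c d c c ⟨le_rfl, h⟩ ⟨le_rfl, h⟩)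

theorem osc_mono {F : ℝ → ℝ} (hF : Continuous F) {c d c' d' : ℝ} (h1 : c ≤ c') (h : c' ≤ d')
    (h2 : d' ≤ d) : osc F c' d' ≤ osc F c d := by
  refine osc_le h fun s hs t ht => ?_
  exact le_osc F hF c d s t ⟨h1.trans hs.1, hs.2.trans h2⟩ ⟨h1.trans ht.1, ht.2.trans h2⟩

open Classical in
/-- `AC_*` implies `VB_*` -/
theorem vb_bound {F : ℝ → ℝ} (hF : Continuous F) {P : Set ℝ} {c d : ℝ} (hcd : c < d)
    (hP : P ⊆ Icc c d) (hAC : ACStar F P) :
    ∃ M : ℝ, 0 ≤ M ∧ ∀ (n : ℕ) (x y : Fin n → ℝ), (∀ i, x i ∈ P ∧ y i ∈ P ∧ x i < y i) →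
      (∀ i j, i ≠ j → Disjoint (Ioo (x i) (y i)) (Ioo (x j) (y j))) →
      ∑ i, osc F (x i) (y i) ≤ M := by
  obtain ⟨δ, hδ, h⟩ := hAC 1 one_pos
  obtain ⟨N, hN⟩ := exists_nat_gt ((d - c) / δ)
  have hN0 : (0 : ℝ) < N := lt_trans (div_pos (sub_pos.2 hcd) hδ) hN
  set w : ℝ := (d - c) / N with hw
  have hw0 : 0 < w := div_pos (sub_pos.2 hcd) hN0
  have hwδ : w < δ := by
    rw [hw, div_lt_iff₀ hN0]
    rw [div_lt_iff₀ hδ] at hN
    linarith
  have hNw : (N : ℝ) * w = d - c := by
    rw [hw]; field_simp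
  set Ω : ℝ := osc F c d with hΩ
  have hΩ0 : 0 ≤ Ω := osc_nonneg' hF hcd.le
  refine ⟨N * 1 + (N + 1) * Ω, by positivity, fun n x y hxy hdis => ?_⟩
  set cell : ℕ → Finset (Fin n) := fun k =>
    Finset.univ.filter fun i => c + k * w ≤ x i ∧ y i ≤ c + (k + 1) * w with hcell
  set crs : ℕ → Finset (Fin n) := fun k =>
    Finset.univ.filter fun i => x i < c + k * w ∧ c + k * w < y i with hcrs
  have hoscn : ∀ i, 0 ≤ osc F (x i) (y i) := fun i => osc_nonneg' hF (hxy i).2.2.le
  have h1 : ∀ i, osc F (x i) (y i) ≤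
      (∑ k ∈ Finset.range N, if i ∈ cell k then osc F (x i) (y i) else 0) +
      ∑ k ∈ Finset.range (N + 1), if i ∈ crs k then osc F (x i) (y i) else 0 := by
    intro i
    have hx := hP (hxy i).1
    have hy := hP (hxy i).2.1
    have hxy' := (hxy i).2.2
    set k : ℕ := ⌊(x i - c) / w⌋₊ with hk
    have hnn : 0 ≤ (x i - c) / w := div_nonneg (sub_nonneg.2 hx.1) hw0.le
    have hk1 : (k : ℝ) * w ≤ x i - c := by
      have := Nat.floor_le hnn
      rwa [le_div_iff₀ hw0] at this
    have hk2 : x i - c < ((k : ℝ) + 1) * w := by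
      have := Nat.lt_floor_add_one ((x i - c) / w)
      rwa [div_lt_iff₀ hw0] at this
    have hkN : k < N := by
      have : (k : ℝ) * w < N * w := by
        rw [hNw]
        have := hy.2
        linarith
      exact_mod_cast lt_of_mul_lt_mul_right this hw0.le
    have hs1 : 0 ≤ ∑ k ∈ Finset.range N, (if i ∈ cell k then osc F (x i) (y i) else 0) :=
      Finset.sum_nonneg fun k _ => by
        split_ifs
        · exact hoscn i
        · exact le_rfl
    have hs2 : 0 ≤ ∑ k ∈ Finset.range (N + 1), (if i ∈ crs k then osc F (x i) (y i) else 0) :=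
      Finset.sum_nonneg fun k _ => by
        split_ifs
        · exact hoscn i
        · exact le_rfl
    by_cases hc : y i ≤ c + (k + 1) * w
    · have hmem : i ∈ cell k := by
        rw [hcell]; simp only [Finset.mem_filter, Finset.mem_univ, true_and]
        exact ⟨by linarith, hc⟩
      have : osc F (x i) (y i) ≤
          ∑ k ∈ Finset.range N, if i ∈ cell k then osc F (x i) (y i) else 0 := by
        refine le_trans (le_of_eq (if_pos hmem).symm) (Finset.single_le_sum
          (f := fun k => if i ∈ cell k then osc F (x i) (y i) else 0) (fun k _ => ?_)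
          (Finset.mem_range.2 hkN))
        split_ifs
        · exact hoscn i
        · exact le_rfl
      linarith
    · rw [not_le] at hc
      have hmem : i ∈ crs (k + 1) := by
        rw [hcrs]; simp only [Finset.mem_filter, Finset.mem_univ, true_and]
        push_cast
        exact ⟨by linarith, hc⟩
      have : osc F (x i) (y i) ≤
          ∑ k ∈ Finset.range (N + 1), if i ∈ crs k then osc F (x i) (y i) else 0 := by
        refine le_trans (le_of_eq (if_pos hmem).symm) (Finset.single_le_sum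
          (f := fun k => if i ∈ crs k then osc F (x i) (y i) else 0) (fun k _ => ?_)
          (Finset.mem_range.2 (Nat.succ_lt_succ hkN)))
        split_ifs
        · exact hoscn i
        · exact le_rfl
      linarith
  have h2 : ∑ i, osc F (x i) (y i) ≤
      (∑ k ∈ Finset.range N, ∑ i ∈ cell k, osc F (x i) (y i)) +
      ∑ k ∈ Finset.range (N + 1), ∑ i ∈ crs k, osc F (x i) (y i) := by
    refine (Finset.sum_le_sum fun i _ => h1 i).trans ?_
    rw [Finset.sum_add_distrib, Finset.sum_comm, Finset.sum_comm (s := Finset.univ)]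
    simp only [Finset.sum_ite_mem, Finset.univ_inter]
    exact le_rfl
  have h3 : ∀ k ∈ Finset.range N, ∑ i ∈ cell k, osc F (x i) (y i) ≤ 1 := by
    intro k _
    refine (finset_form h (cell k) x y (fun i _ => hxy i) (fun i _ j _ hij => hdis i j hij) ?_).le
    refine lt_of_le_of_lt (sum_len_le (cell k) x y (p := c + k * w) (q := c + (k + 1) * w)
      (by nlinarith) (fun i hi => ?_) (fun i _ j _ hij => hdis i j hij)) (by linarith)
    rw [hcell] at hi
    simp only [Finset.mem_filter, Finset.mem_univ, true_and] at hi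
    exact ⟨hi.1, (hxy i).2.2, hi.2⟩
  have h4 : ∀ k ∈ Finset.range (N + 1), ∑ i ∈ crs k, osc F (x i) (y i) ≤ Ω := by
    intro k _
    rcases (crs k).eq_empty_or_nonempty with he | ⟨i, hi⟩
    · rw [he]
      simpa using hΩ0
    · have huniq : crs k = {i} := by
        refine Finset.eq_singleton_iff_unique_mem.2 ⟨hi, fun j hj => ?_⟩
        by_contra hne
        have := hdis j i hne
        rw [Set.disjoint_left] at this
        rw [hcrs] at hi hj
        simp only [Finset.mem_filter, Finset.mem_univ, true_and] at hi hj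
        exact this ⟨hj.1, hj.2⟩ ⟨hi.1, hi.2⟩
      rw [huniq, Finset.sum_singleton]
      exact osc_mono hF (hP (hxy i).1).1 (hxy i).2.2.le (hP (hxy i).2.1).2
  have h5 := Finset.sum_le_sum h3
  have h6 := Finset.sum_le_sum h4
  simp only [Finset.sum_const, Finset.card_range, nsmul_eq_mul] at h5 h6
  push_cast at h6
  linarith

/-- `F` has bounded variation on `P` -/
theorem bv_of_acstar {F : ℝ → ℝ} (hF : Continuous F) {P : Set ℝ} {c d : ℝ} (hcd : c < d)
    (hP : P ⊆ Icc c d) (hAC : ACStar F P) : BoundedVariationOn F P := by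
  obtain ⟨M, hM0, hM⟩ := vb_bound hF hcd hP hAC
  unfold BoundedVariationOn
  refine ne_of_lt (lt_of_le_of_lt ?_ (ENNReal.ofReal_lt_top (r := M)))
  rw [eVariationOn.eVariationOn_eq_strictMonoOn]
  refine iSup_le ?_
  rintro ⟨n, u, hu, hus⟩
  dsimp only
  have h1 := hM n (fun i => u i) (fun i => u (i + 1)) (fun i => ⟨hus _ (by
    exact i.2.le), hus _ (by exact i.2), hu (mem_Iic.2 i.2.le) (mem_Iic.2 i.2) (Nat.lt_succ_self _)⟩) ?_
  · rw [Finset.sum_range]
    have h2 : ∀ i : Fin n, edist (F (u (i + 1))) (F (u i)) ≤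
        ENNReal.ofReal (osc F (u i) (u (i + 1))) := by
      intro i
      have hlt : u i < u (i + 1) := hu (mem_Iic.2 i.2.le) (mem_Iic.2 i.2) (Nat.lt_succ_self _)
      rw [edist_dist, Real.dist_eq]
      exact ENNReal.ofReal_le_ofReal (le_osc F hF _ _ _ _ ⟨hlt.le, le_rfl⟩ ⟨le_rfl, hlt.le⟩)
    refine (Finset.sum_le_sum fun i _ => h2 i).trans ?_
    rw [← ENNReal.ofReal_sum_of_nonneg]
    · exact ENNReal.ofReal_le_ofReal h1
    · intro i _
      exact osc_nonneg' hF (hu (mem_Iic.2 i.2.le) (mem_Iic.2 i.2) (Nat.lt_succ_self _)).le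
  · intro i j hij
    rw [Set.disjoint_left]
    rintro z ⟨h3, h4⟩ ⟨h5, h6⟩
    have hij' : (i : ℕ) ≠ j := fun e => hij (Fin.ext e)
    rcases lt_or_gt_of_ne hij' with h | h
    · have : u (i + 1) ≤ u j := hu.monotoneOn (mem_Iic.2 i.2) (mem_Iic.2 j.2.le) h
      linarith
    · have : u (j + 1) ≤ u i := hu.monotoneOn (mem_Iic.2 j.2) (mem_Iic.2 i.2.le) h
      linarith

/-- the derivative of a function in `AC_*(P)` is integrable on `P` -/
theorem integrableOn_of_acstar {F φ : ℝ → ℝ} (hF : Continuous F) {P : Set ℝ} {c d : ℝ} (hcd : c < d)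
    (hPc : IsClosed P) (hP : P ⊆ Icc c d) (hAC : ACStar F P)
    (hder : ∀ᵐ x, x ∈ P → HasDerivAt F (φ x) x) : IntegrableOn φ P := by
  rcases P.eq_empty_or_nonempty with rfl | hne
  · exact integrableOn_empty
  have hbb : BddBelow P := ⟨c, fun x hx => (hP hx).1⟩
  have hcomp : IsCompact P := isCompact_Icc.of_isClosed_subset hPc hP
  set p0 := sInf P with hp0
  have hp0P : p0 ∈ P := hcomp.sInf_mem hne
  -- the last point of `P` before `x`
  set π : ℝ → ℝ := fun x => sSup (P ∩ Iic (max x p0)) with hπ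
  have hne' : ∀ x, (P ∩ Iic (max x p0)).Nonempty := fun x => ⟨p0, hp0P, mem_Iic.2 (le_max_right x p0)⟩
  have hba' : ∀ x, BddAbove (P ∩ Iic (max x p0)) := fun x => ⟨max x p0, fun y hy => hy.2⟩
  have hπP : ∀ x, π x ∈ P := by
    intro x
    have : IsCompact (P ∩ Iic (max x p0)) := hcomp.inter_right isClosed_Iic
    exact (this.sSup_mem (hne' x)).1
  have hπm : Monotone π := by
    intro x y hxy
    refine csSup_le_csSup (hba' y) (hne' x) ?_
    exact inter_subset_inter_right _ (Iic_subset_Iic.2 (max_le_max hxy le_rfl))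
  have hπid : ∀ x ∈ P, π x = x := by
    intro x hx
    have hmx : max x p0 = x := max_eq_left (csInf_le hbb hx)
    rw [hπ]
    dsimp only
    rw [hmx]
    exact IsGreatest.csSup_eq ⟨⟨hx, mem_Iic.2 le_rfl⟩, fun y hy => hy.2⟩
  have hbv : BoundedVariationOn (F ∘ π) (uIcc c d) := by
    have h1 := bv_of_acstar hF hcd hP hAC
    have h2 := eVariationOn.comp_le_of_monotoneOn F (s := P) (t := uIcc c d) π
      (hπm.monotoneOn _) (fun x _ => hπP x)
    exact ne_of_lt (h2.trans_lt (lt_top_iff_ne_top.2 h1))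
  have hint : IntegrableOn (deriv (F ∘ π)) (Icc c d) := by
    have := hbv.intervalIntegrable_deriv
    rw [intervalIntegrable_iff_integrableOn_Icc_of_le hcd.le] at this
    exact this
  have hcount := (countable_setOfPred_isolated_right_within (s := P)).ae_notMem volume
  have hpu : ∀ᵐ x, x ∈ P → φ x = deriv (F ∘ π) x := by
    filter_upwards [hder, hcount, hbv.ae_differentiableAt_of_mem_uIcc] with x h1 h2 h3 hxP
    have hx := hP hxP
    have h3' := (h3 (by rw [uIcc_of_le hcd.le]; exact hx)).hasDerivAt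
    have hne2 : (𝓝[P ∩ Ioi x] x).NeBot := by
      rw [neBot_iff]
      intro hcon
      exact h2 ⟨hxP, hcon⟩
    have hnot : x ∉ P ∩ Ioi x := fun h => lt_irrefl x (mem_Ioi.1 h.2)
    have h4 := (hasDerivWithinAt_iff_tendsto_slope' hnot).1 ((h1 hxP).hasDerivWithinAt (s := P ∩ Ioi x))
    have h5 := (hasDerivWithinAt_iff_tendsto_slope' hnot).1 (h3'.hasDerivWithinAt (s := P ∩ Ioi x))
    refine tendsto_nhds_unique h4 (h5.congr' ?_)
    filter_upwards [self_mem_nhdsWithin] with y hy
    simp only [slope, Function.comp_apply, hπid y hy.1, hπid x hxP]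
  refine (hint.mono_set hP).congr_fun_ae ?_
  rw [EventuallyEq, ae_restrict_iff' hPc.measurableSet]
  filter_upwards [hpu] with x hx hxP using (hx hxP).symm

end Pool.Agent.Zk92.Den
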