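import Mathlib
import Pool.Agent.Zk92.Den.Basic
import Pool.Agent.Zk92.Den.VBound
import Pool.Agent.Zk92.Den.Harnack

/-!
# The extension of a state
-/

set_option autoImplicit false

namespace Pool.Agent.Zk92.Den

open MeasureTheory Set Filter Topology
open Pool.Agent.Q302.DJ

/-- the extension of the state `U`: the intervals with the property `Pr`, closed under subintervals and
overlapping unions -/
inductive Ext (a b : ℝ) (ψ : ℝ → ENNReal) (Fv : ℚ × ℚ → ℝ) (U : Set (ℚ × ℚ)) : ℚ → ℚ → Prop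
  | base {q r : ℚ} : (q, r) ∈ U → Ext a b ψ Fv U q r
  | step {q r : ℚ} {M : ℕ} : Valid (q, r) → Pr a b ψ U Fv (q, r) M → Ext a b ψ Fv U q r
  | sub {q r q' r' : ℚ} : Ext a b ψ Fv U q r → q ≤ q' → q' < r' → r' ≤ r → Ext a b ψ Fv U q' r'
  | glue {p q p' q' : ℚ} : Ext a b ψ Fv U p q → Ext a b ψ Fv U p' q' → p ≤ p' → p' < q → q ≤ q' →
      Ext a b ψ Fv U p q'

/-- the extension as a set -/
def ext (a b : ℝ) (ψ : ℝ → ENNReal) (Fv : ℚ × ℚ → ℝ) (U : Set (ℚ × ℚ)) : Set (ℚ × ℚ) :=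
  {J | Ext a b ψ Fv U J.1 J.2}

theorem subset_ext {a b : ℝ} {ψ : ℝ → ENNReal} {Fv : ℚ × ℚ → ℝ} {U : Set (ℚ × ℚ)} :
    U ⊆ ext a b ψ Fv U := fun _ hJ => Ext.base hJ

theorem ext_valid {a b : ℝ} {ψ : ℝ → ENNReal} {Fv : ℚ × ℚ → ℝ} {U : Set (ℚ × ℚ)} (hU : St U)
    {q r : ℚ} (h : Ext a b ψ Fv U q r) : Valid (q, r) := by
  induction h with
  | base h => exact hU.val _ h
  | step h _ => exact h
  | sub _ h1 h2 h3 ih => exact ⟨ih.1.trans h1, h2, h3.trans ih.2.2⟩
  | glue _ _ h1 h2 h3 ih1 ih2 => exact ⟨ih1.1, h1.trans_lt (h2.trans_le h3), ih2.2.2⟩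

theorem St.ext {a b : ℝ} {ψ : ℝ → ENNReal} {Fv : ℚ × ℚ → ℝ} {U : Set (ℚ × ℚ)} (hU : St U) :
    St (ext a b ψ Fv U) where
  val := fun _ hJ => ext_valid hU hJ
  sub := fun _ _ _ _ h h1 h2 h3 => Ext.sub h h1 h2 h3
  glue := fun _ _ _ _ h h' h1 h2 h3 => Ext.glue h h' h1 h2 h3

theorem acc_const (F : ℝ → ℝ) (z : ℝ) : ACc F (fun _ => z) := by
  intro k
  refine ⟨0, fun n i j u v h5 _ _ _ => ?_⟩
  rcases Nat.eq_zero_or_pos n with rfl | hn
  · simp only [Finset.univ_eq_empty, Finset.sum_empty]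
    positivity
  · exact absurd (h5 ⟨0, hn⟩) (lt_irrefl _)

theorem derivOn_const (a b : ℝ) (φ F : ℝ → ℝ) (z : ℝ) : DerivOn a b φ F (fun _ => z) := by
  have h7 : ∀ᵐ x ∂(volume.restrict (Icc a b)), x ≠ z := ae_restrict_of_ae (Measure.ae_ne volume z)
  filter_upwards [h7] with x hx hx'
  rw [range_const, closure_singleton] at hx'
  exact absurd hx' hx

theorem ex_continuous {a b : ℝ} (h : a ≤ b) (F : CC a b) : Continuous (ex h F) := by
  unfold ex
  exact F.continuous.Icc_extend'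

theorem ex_mk {a b : ℝ} (h : a ≤ b) {G : ℝ → ℝ} (hG : Continuous G) :
    ∀ x ∈ Icc a b, ex h (⟨fun x => G x, hG.comp continuous_subtype_val⟩ : CC a b) x = G x := by
  intro x hx
  unfold ex
  rw [IccExtend_of_mem _ _ hx]
  rfl

theorem acstar_pair {F : ℝ → ℝ} {c d : ℝ} (hcd : c < d) : ACStar F {c, d} := by
  intro ε hε
  refine ⟨d - c, sub_pos.2 hcd, fun n x y hxy _ hsum => ?_⟩
  rcases Nat.eq_zero_or_pos n with rfl | hn
  · simpa using hε
  · exfalso
    have h1 : ∀ i, d - c ≤ y i - x i := by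
      intro i
      obtain ⟨h1, h2, h3⟩ := hxy i
      simp only [mem_insert_iff, mem_singleton_iff] at h1 h2
      rcases h1 with h1 | h1 <;> rcases h2 with h2 | h2 <;> rw [h1, h2] at h3 ⊢ <;> linarith
    have h2 : y ⟨0, hn⟩ - x ⟨0, hn⟩ ≤ ∑ i, (y i - x i) :=
      Finset.single_le_sum (f := fun i => y i - x i) (fun i _ => (sub_pos.2 (hxy i).2.2).le)
        (Finset.mem_univ _)
    have := h1 ⟨0, hn⟩
    linarith

/-- a true interval of the state is nice -/
theorem nice_base {a b : ℝ} (hab : a < b) {φ : ℝ → ℝ} {U : Set (ℚ × ℚ)} {J : ℚ × ℚ}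
    (hJ : J ∈ U) (hv : Valid J) {F' : ℝ → ℝ} (hF' : IsPrim φ F' (pt a b J.1) (pt a b J.2)) :
    ∃ F : CC a b, Nice a b hab.le φ U J F := by
  set c := pt a b J.1 with hc
  set d := pt a b J.2 with hd
  have hcd : c < d := hv.lt hab
  have hsub : Icc c d ⊆ Icc a b := hv.sub_Icc hab
  have hG : Continuous (fun x => F' (cl c d x)) :=
    hF'.1.1.comp_continuous (continuous_cl c d) (fun x => cl_mem hcd.le x)
  have hex := ex_mk hab.le hG
  set F : CC a b := ⟨fun x => F' (cl c d x), hG.comp continuous_subtype_val⟩ with hF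
  have hK : KU a b U ∩ Icc c d ⊆ {c, d} := by
    rintro x ⟨hx1, hx2⟩
    by_contra hcon
    simp only [mem_insert_iff, mem_singleton_iff, not_or] at hcon
    exact not_mem_KU hJ (show x ∈ Op a b J from ⟨Or.inl (lt_of_le_of_ne hx2.1 (Ne.symm hcon.1)),
      Or.inl (lt_of_le_of_ne hx2.2 hcon.2)⟩) hx1
  refine ⟨F, acstar_mono hK (acstar_pair hcd), ?_, ?_⟩
  · filter_upwards [Measure.ae_ne volume c, Measure.ae_ne volume d] with x h1 h2 hx
    rcases hK hx with h | h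
    · exact absurd h h1
    · exact absurd h h2
  · refine prim_congr (C := 0) hcd (fun x hx => ?_) hF'
    rw [add_zero, hex x (hsub hx)]
    show F' (cl c d x) = F' x
    rw [cl_of_mem hx]

open Classical in
theorem nice_glue {a b : ℝ} (hab : a < b) {φ : ℝ → ℝ} {Φ : Y} (hΦ : TrueInt a b φ Φ)
    {U : Set (ℚ × ℚ)} {p q p' q' : ℚ} (hv1 : Valid (p, q)) (hv2 : Valid (p', q'))
    (h1 : p ≤ p') (h2 : p' < q) (h3 : q ≤ q') {F₁ F₂ : CC a b}
    (n1 : Nice a b hab.le φ U (p, q) F₁) (n2 : Nice a b hab.le φ U (p', q') F₂) :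
    ∃ F : CC a b, Nice a b hab.le φ U (p, q') F := by
  obtain ⟨a1, d1, i1⟩ := n1
  obtain ⟨a2, d2, i2⟩ := n2
  dsimp only at a1 d1 i1 a2 d2 i2
  set f₁ := ex hab.le F₁ with hf₁
  set f₂ := ex hab.le F₂ with hf₂
  have c1 : Continuous f₁ := ex_continuous _ _
  have c2 : Continuous f₂ := ex_continuous _ _
  have hv : Valid (p, q') := ⟨hv1.1, h1.trans_lt (h2.trans_le h3), hv2.2.2⟩
  set Q := pt a b q with hQ
  set A := pt a b p with hA
  set A' := pt a b p' with hA'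
  set B := pt a b q' with hB
  have hAA : A ≤ A' := (pt_le hab).2 h1
  have hAQ : A' < Q := (pt_lt hab).2 h2
  have hQB : Q ≤ B := (pt_le hab).2 h3
  set G : ℝ → ℝ := fun x => f₁ (min x Q) + (f₂ (max x Q) - f₂ Q) with hG
  have hGc : Continuous G := by
    rw [hG]; fun_prop
  have hG1 : ∀ x, x ≤ Q → G x = f₁ x := by
    intro x hx
    rw [hG]
    dsimp only
    rw [min_eq_left hx, max_eq_right hx]
    ring
  set C := f₁ A' - f₂ A' with hC
  have hun : ∀ x ∈ Icc A' Q, f₁ x - f₁ A' = f₂ x - f₂ A' := by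
    intro x hx
    exact uniq φ f₁ f₂ A' Q hAQ (prim_restr hAA hAQ le_rfl i1) (prim_restr le_rfl hAQ hQB i2) x hx
  have hG2 : ∀ x, A' ≤ x → G x = f₂ x + C := by
    intro x hx
    rcases le_total x Q with hxQ | hxQ
    · rw [hG1 x hxQ]
      have := hun x ⟨hx, hxQ⟩
      rw [hC]; linarith
    · have := hun Q ⟨hAQ.le, le_rfl⟩
      rw [hG]
      dsimp only
      rw [min_eq_right hxQ, max_eq_left hxQ, hC]
      linarith
  have hsub : Icc A B ⊆ Icc a b := hv.sub_Icc hab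
  set F : CC a b := ⟨fun x => G x, hGc.comp continuous_subtype_val⟩ with hF
  have hex : ∀ x ∈ Icc a b, ex hab.le F x = G x := ex_mk hab.le hGc
  -- the derivative
  have hder : ∀ᵐ x, x ∈ KU a b U ∩ Icc A B → HasDerivAt (ex hab.le F) (φ x) x := by
    filter_upwards [d1, d2, Measure.ae_ne volume a, Measure.ae_ne volume b] with x e1 e2 e3 e4 hx
    have hxab := hsub hx.2
    have hev : ex hab.le F =ᶠ[𝓝 x] G := by
      filter_upwards [Ioo_mem_nhds (lt_of_le_of_ne hxab.1 (Ne.symm e3))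
        (lt_of_le_of_ne hxab.2 e4)] with y hy
      exact hex y ⟨hy.1.le, hy.2.le⟩
    refine HasDerivAt.congr_of_eventuallyEq ?_ hev
    rcases lt_or_ge x Q with hxQ | hxQ
    · refine (e1 ⟨hx.1, hx.2.1, hxQ.le⟩).congr_of_eventuallyEq ?_
      filter_upwards [Iio_mem_nhds hxQ] with y hy
      exact hG1 y (le_of_lt hy)
    · refine ((e2 ⟨hx.1, hAQ.le.trans hxQ, hx.2.2⟩).add_const C).congr_of_eventuallyEq ?_
      filter_upwards [Ioi_mem_nhds (hAQ.trans_le hxQ)] with y hy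
      exact hG2 y (le_of_lt hy)
  have hprimL : IsPrim φ (ex hab.le F) A Q := by
    refine prim_congr (C := 0) (hAA.trans_lt hAQ) (fun x hx => ?_) i1
    rw [add_zero, hex x (hsub ⟨hx.1, hx.2.trans hQB⟩), hG1 x hx.2]
  have hprimR : IsPrim φ (ex hab.le F) A' B := by
    refine prim_congr (C := C) (hAQ.trans_le hQB) (fun x hx => ?_) i2
    rw [hex x (hsub ⟨hAA.trans hx.1, hx.2⟩), hG2 x hx.1]
  refine ⟨F, ?_, hder, ?_⟩
  · -- AC_*
    refine acstar_congr (G := G) (fun x hx => hsub hx.2) hex ?_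
    intro ε hε
    obtain ⟨δ₁, hδ₁, k1⟩ := a1 (ε / 2) (half_pos hε)
    obtain ⟨δ₂, hδ₂, k2⟩ := a2 (ε / 2) (half_pos hε)
    refine ⟨min (min δ₁ δ₂) (Q - A'), lt_min (lt_min hδ₁ hδ₂) (sub_pos.2 hAQ), ?_⟩
    intro n x y hxy hdis hsum
    have hsum1 := hsum.trans_le ((min_le_left _ _).trans (min_le_left _ _))
    have hsum2 := hsum.trans_le ((min_le_left _ _).trans (min_le_right _ _))
    have hsum3 := hsum.trans_le (min_le_right _ _)
    have hpos : ∀ i, 0 ≤ y i - x i := fun i => (sub_pos.2 (hxy i).2.2).le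
    have hlen : ∀ i, y i - x i < Q - A' := fun i =>
      (Finset.single_le_sum (f := fun i => y i - x i) (fun i _ => hpos i)
        (Finset.mem_univ i)).trans_lt hsum3
    have e1 : ∑ i, osc G (x i) (y i) =
        ∑ i ∈ Finset.univ.filter (fun i => y i ≤ Q), osc G (x i) (y i) +
        ∑ i ∈ Finset.univ.filter (fun i => ¬ y i ≤ Q), osc G (x i) (y i) :=
      (Finset.sum_filter_add_sum_filter_not _ _ _).symm
    have e2 : ∑ i ∈ Finset.univ.filter (fun i => y i ≤ Q), osc G (x i) (y i) < ε / 2 := by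
      have : ∀ i ∈ Finset.univ.filter (fun i => y i ≤ Q), osc G (x i) (y i) = osc f₁ (x i) (y i) := by
        intro i hi
        simp only [Finset.mem_filter, Finset.mem_univ, true_and] at hi
        exact TaskCongr.osc_congr (c := x i) (d := y i) (C := 0) (fun z hz => by
          rw [hG1 z (hz.2.trans hi), add_zero]) ⟨le_rfl, (hxy i).2.2.le⟩ ⟨(hxy i).2.2.le, le_rfl⟩
      rw [Finset.sum_congr rfl this]
      refine finset_form k1 _ x y (fun i hi => ?_) (fun i _ j _ hij => hdis i j hij) ?_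
      · simp only [Finset.mem_filter, Finset.mem_univ, true_and] at hi
        obtain ⟨h4, h5, h6⟩ := hxy i
        exact ⟨⟨h4.1, h4.2.1, h6.le.trans hi⟩, ⟨h5.1, h5.2.1, hi⟩, h6⟩
      · exact (Finset.sum_le_sum_of_subset_of_nonneg (Finset.filter_subset _ _)
          (fun i _ _ => hpos i)).trans_lt hsum1
    have e3 : ∑ i ∈ Finset.univ.filter (fun i => ¬ y i ≤ Q), osc G (x i) (y i) < ε / 2 := by
      have hx' : ∀ i ∈ Finset.univ.filter (fun i => ¬ y i ≤ Q), A' ≤ x i := by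
        intro i hi
        simp only [Finset.mem_filter, Finset.mem_univ, true_and, not_le] at hi
        have := hlen i
        linarith
      have : ∀ i ∈ Finset.univ.filter (fun i => ¬ y i ≤ Q), osc G (x i) (y i) =
          osc f₂ (x i) (y i) := by
        intro i hi
        exact TaskCongr.osc_congr (c := x i) (d := y i) (C := C) (fun z hz => by
          rw [hG2 z ((hx' i hi).trans hz.1)]) ⟨le_rfl, (hxy i).2.2.le⟩ ⟨(hxy i).2.2.le, le_rfl⟩
      rw [Finset.sum_congr rfl this]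
      refine finset_form k2 _ x y (fun i hi => ?_) (fun i _ j _ hij => hdis i j hij) ?_
      · obtain ⟨h4, h5, h6⟩ := hxy i
        exact ⟨⟨h4.1, hx' i hi, h4.2.2⟩, ⟨h5.1, (hx' i hi).trans h6.le, h5.2.2⟩, h6⟩
      · exact (Finset.sum_le_sum_of_subset_of_nonneg (Finset.filter_subset _ _)
          (fun i _ _ => hpos i)).trans_lt hsum2
    linarith
  · -- primitive
    have hval : ∀ s t : ℚ, 0 ≤ s → s < t → t ≤ 1 → IsPrim φ (ex hab.le F) (pt a b s) (pt a b t) →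
        Concl a b Φ (ex hab.le F) s t := fun s t hs hst ht hF =>
      ⟨(hΦ s t hs hst ht).1.2 ⟨_, hF⟩, (hΦ s t hs hst ht).2 _ hF⟩
    refine glueTask a b hab φ Φ hΦ F (fun _ => Q) p q' ⟨hv, fun _ => ⟨hAA.trans hAQ.le, hQB⟩,
      acc_const _ _, ?_⟩ (derivOn_const _ _ _ _ _)
    intro s t hs hst ht ⟨n, hn⟩
    have hpos : (0 : ℝ) < 1 / ((n : ℝ) + 1) := by positivity
    have hs' : A ≤ pt a b s := (pt_le hab).2 hs
    have ht' : pt a b t ≤ B := (pt_le hab).2 ht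
    have hst' : pt a b s < pt a b t := (pt_lt hab).2 hst
    refine hval s t (hv.1.trans hs) hst (ht.trans hv.2.2) ?_
    rcases hn 0 with h5 | h5
    · exact prim_restr (by linarith) hst' ht' hprimR
    · exact prim_restr hs' hst' (by linarith) hprimL

/-- every interval of the extension is nice -/
theorem ext_nice {a b : ℝ} (hab : a < b) {φ : ℝ → ℝ}
    (hφ : AEStronglyMeasurable φ (volume.restrict (Icc a b))) {Φ : Y} (hΦ : TrueInt a b φ Φ)
    {U : Set (ℚ × ℚ)} (hU : St U) (hT : ∀ J ∈ U, (Φ J).2 = true) {q r : ℚ}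
    (h : Ext a b (fun x => ‖φ x‖ₑ) (fun J => (Φ J).1) U q r) :
    ∃ F : CC a b, Nice a b hab.le φ U (q, r) F := by
  induction h with
  | @base q r h =>
    have hv := hU.val _ h
    obtain ⟨F', hF'⟩ := (hΦ q r hv.1 hv.2.1 hv.2.2).1.1 (hT _ h)
    exact nice_base hab h hv hF'
  | @step q r M h h' => exact harnack hab hφ hΦ hU hT h h'
  | @sub q r q' r' h h1 h2 h3 ih =>
    obtain ⟨F, f1, f2, f3⟩ := ih
    have hsub : Icc (pt a b q') (pt a b r') ⊆ Icc (pt a b q) (pt a b r) :=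
      Icc_subset_Icc ((pt_le hab).2 h1) ((pt_le hab).2 h3)
    refine ⟨F, acstar_mono (inter_subset_inter_right _ hsub) f1, ?_, ?_⟩
    · filter_upwards [f2] with x hx hxK using hx ⟨hxK.1, hsub hxK.2⟩
    · exact prim_restr ((pt_le hab).2 h1) ((pt_lt hab).2 h2) ((pt_le hab).2 h3) f3
  | glue h h' h1 h2 h3 ih1 ih2 =>
    obtain ⟨F₁, n1⟩ := ih1
    obtain ⟨F₂, n2⟩ := ih2
    exact nice_glue hab hΦ (ext_valid hU h) (ext_valid hU h') h1 h2 h3 n1 n2

/-- the step for a nice interval -/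
theorem nice_step {a b : ℝ} (hab : a < b) {φ : ℝ → ℝ} {Φ : Y} (hΦ : TrueInt a b φ Φ)
    {U : Set (ℚ × ℚ)} (hU : St U) (hT : ∀ J ∈ U, (Φ J).2 = true) {q r : ℚ} (hv : Valid (q, r))
    {F : CC a b} (hn : Nice a b hab.le φ U (q, r) F) {Ψ : Y}
    (hΨ : ∀ J ∈ U, (Ψ J).2 = true ∧ (Ψ J).1 = (Φ J).1) :
    ∃ p : ℕ → ℝ, Step a b Ψ (ex hab.le F) p q r ∧ DerivOn a b φ (ex hab.le F) p := by
  obtain ⟨n1, n2, n3⟩ := hn
  dsimp only at n1 n2 n3
  have hsub : Icc (pt a b q) (pt a b r) ⊆ Icc a b := hv.sub_Icc hab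
  have key : ∀ p : ℕ → ℝ, (∀ q' r' : ℚ, q ≤ q' → q' < r' → r' ≤ r → Avoid p (pt a b q') (pt a b r') →
      ∀ x ∈ Icc (pt a b q') (pt a b r'), x ∉ KU a b U) →
      ∀ q' r' : ℚ, q ≤ q' → q' < r' → r' ≤ r → Avoid p (pt a b q') (pt a b r') →
        Concl a b Ψ (ex hab.le F) q' r' := by
    intro p hp q' r' h1 h2 h3 h4
    have hv' : Valid (q', r') := ⟨hv.1.trans h1, h2, h3.trans hv.2.2⟩
    have hmem : (q', r') ∈ U := hU.cover hab hv' (hp q' r' h1 h2 h3 h4)
    refine ⟨(hΨ _ hmem).1, ?_⟩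
    rw [(hΨ _ hmem).2]
    exact (hΦ q' r' hv'.1 hv'.2.1 hv'.2.2).2 _
      (prim_restr ((pt_le hab).2 h1) ((pt_lt hab).2 h2) ((pt_le hab).2 h3) n3)
  rcases (KU a b U ∩ Icc (pt a b q) (pt a b r)).eq_empty_or_nonempty with he | hne
  · refine ⟨fun _ => pt a b q, ⟨hv, fun _ => ⟨le_rfl, (hv.lt hab).le⟩, acc_const _ _, ?_⟩,
      derivOn_const _ _ _ _ _⟩
    refine key _ fun q' r' h1 h2 h3 _ x hx hxK => ?_
    have : x ∈ KU a b U ∩ Icc (pt a b q) (pt a b r) :=
      ⟨hxK, ((pt_le hab).2 h1).trans hx.1, hx.2.trans ((pt_le hab).2 h3)⟩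
    rw [he] at this
    exact this
  · set P := KU a b U ∩ Icc (pt a b q) (pt a b r) with hP
    have hPc : IsClosed P := (isClosed_KU a b U).inter isClosed_Icc
    have : Nonempty P := hne.to_subtype
    let p : ℕ → ℝ := fun m => (TopologicalSpace.denseSeq P m : ℝ)
    have hpP : ∀ m, p m ∈ P := fun m => (TopologicalSpace.denseSeq P m).2
    have hpcl : closure (range p) = P := by
      apply Subset.antisymm
      · refine closure_minimal ?_ hPc
        rintro _ ⟨m, rfl⟩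
        exact hpP m
      · intro x hx
        rw [Metric.mem_closure_iff]
        intro ε hε
        obtain ⟨m, hm⟩ := (TopologicalSpace.denseRange_denseSeq P).exists_dist_lt ⟨x, hx⟩ hε
        exact ⟨p m, ⟨m, rfl⟩, hm⟩
    refine ⟨p, ⟨hv, fun n => (hpP n).2, TaskACc.main _ P p (ex_continuous _ _) n1 hpP, ?_⟩, ?_⟩
    · refine key _ fun q' r' h1 h2 h3 hav x hx hxK => ?_
      obtain ⟨k, hk⟩ := hav
      have hk0 : (0 : ℝ) < 1 / ((k : ℝ) + 1) := by positivity
      have hxP : x ∈ P := ⟨hxK, ((pt_le hab).2 h1).trans hx.1, hx.2.trans ((pt_le hab).2 h3)⟩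
      rw [← hpcl, Metric.mem_closure_iff] at hxP
      obtain ⟨_, ⟨m, rfl⟩, hm⟩ := hxP _ hk0
      rw [Real.dist_eq, abs_lt] at hm
      rcases hk m with h4 | h4
      · linarith [hx.1]
      · linarith [hx.2]
    · unfold DerivOn
      refine ae_restrict_of_ae ?_
      filter_upwards [n2] with x hx hxp
      rw [hpcl] at hxp
      exact hx hxp

end Pool.Agent.Zk92.Den
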