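import Mathlib
import Pool.Agent.Zk92.Den.Basic
import Pool.Agent.Zk92.Den.VBound
import Pool.Agent.Zk92.Den.Harnack
import Pool.Agent.Zk92.Den.Ext
import Pool.Agent.Q302.DJ.TaskBaire

/-!
# A good portion of the unresolved set
-/

set_option autoImplicit false

namespace Pool.Agent.Zk92.Den

open MeasureTheory Set Filter Topology
open Pool.Agent.Q302.DJ
open Pool.Agent.Q302.DJ.TaskACc (le_osc)

/-- the variation bound for a finite subfamily -/
theorem vb_finset {F : ℝ → ℝ} {K : Set ℝ} {M : ℝ}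
    (h : ∀ (n : ℕ) (x y : Fin n → ℝ), (∀ i, x i ∈ K ∧ y i ∈ K ∧ x i < y i) →
      (∀ i j, i ≠ j → Disjoint (Ioo (x i) (y i)) (Ioo (x j) (y j))) →
      ∑ i, osc F (x i) (y i) ≤ M)
    {ι : Type} [Fintype ι] [DecidableEq ι] (s : Finset ι) (x y : ι → ℝ)
    (h1 : ∀ i ∈ s, x i ∈ K ∧ y i ∈ K ∧ x i < y i)
    (h2 : ∀ i ∈ s, ∀ j ∈ s, i ≠ j → Disjoint (Ioo (x i) (y i)) (Ioo (x j) (y j))) :
    ∑ i ∈ s, osc F (x i) (y i) ≤ M := by
  have e := s.equivFin.symm
  have hs : ∀ f : ι → ℝ, ∑ j : Fin s.card, f (e j) = ∑ i ∈ s, f i := by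
    intro f
    rw [← Finset.sum_coe_sort s f]
    exact Equiv.sum_comp e (fun i : s => f i)
  have := h s.card (fun j => x (e j)) (fun j => y (e j)) (fun j => h1 _ (e j).2) (fun i j hij =>
    h2 _ (e i).2 _ (e j).2 (fun hc => hij (e.injective (Subtype.ext hc))))
  rwa [hs (fun i => osc F (x i) (y i))] at this

open Classical in
/-- the sum of the increments of `F` over a family of intervals which are separated by points of `K` -/
theorem sep_bound {F : ℝ → ℝ} (hF : Continuous F) {K : Set ℝ} {c d M₀ : ℝ}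
    (hcd : c ≤ d) (hM₀ : 0 ≤ M₀)
    (h : ∀ (n : ℕ) (x y : Fin n → ℝ), (∀ i, x i ∈ K ∧ y i ∈ K ∧ x i < y i) →
      (∀ i j, i ≠ j → Disjoint (Ioo (x i) (y i)) (Ioo (x j) (y j))) →
      ∑ i, osc F (x i) (y i) ≤ M₀)
    (n : ℕ) (x y : Fin n → ℝ) (h1 : ∀ i, c ≤ x i ∧ x i < y i ∧ y i ≤ d)
    (h2 : ∀ i j, i < j → y i < x j ∧ ∃ k ∈ K, y i ≤ k ∧ k ≤ x j) :
    ∑ i, |F (y i) - F (x i)| ≤ 2 * osc F c d + M₀ := by
  have hΩ : 0 ≤ osc F c d := osc_nonneg' hF hcd
  have hle : ∀ i, |F (y i) - F (x i)| ≤ osc F c d := fun i =>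
    le_osc F hF c d _ _ ⟨(h1 i).1.trans (h1 i).2.1.le, (h1 i).2.2⟩
      ⟨(h1 i).1, (h1 i).2.1.le.trans (h1 i).2.2⟩
  -- the separating points
  have hk : ∀ i : ℕ, ∃ k : ℝ, ∀ (h0 : i + 1 < n), k ∈ K ∧ y ⟨i, (Nat.lt_succ_self i).trans h0⟩ ≤ k ∧
      k ≤ x ⟨i + 1, h0⟩ := by
    intro i
    by_cases h0 : i + 1 < n
    · obtain ⟨-, k, hk1, hk2, hk3⟩ := h2 ⟨i, (Nat.lt_succ_self i).trans h0⟩ ⟨i + 1, h0⟩
        (by simp [Fin.lt_def])
      exact ⟨k, fun _ => ⟨hk1, hk2, hk3⟩⟩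
    · exact ⟨0, fun h => absurd h h0⟩
  choose k hk using hk
  have hkm : ∀ i j : ℕ, i ≤ j → j + 1 < n → k i ≤ k j := by
    intro i j hij hj
    rcases hij.eq_or_lt with rfl | hlt
    · exact le_rfl
    · have hi : i + 1 < n := by omega
      have e1 := (hk i hi).2.2
      have e2 := (hk j hj).2.1
      have e3 : x ⟨i + 1, hi⟩ ≤ y ⟨j, (Nat.lt_succ_self j).trans hj⟩ := by
        rcases (show i + 1 ≤ j from hlt).eq_or_lt with h3 | h3
        · subst h3
          exact (h1 _).2.1.le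
        · have := (h2 ⟨i + 1, hi⟩ ⟨j, (Nat.lt_succ_self j).trans hj⟩ (by simpa [Fin.lt_def] using h3)).1
          exact ((h1 _).2.1.trans (this.trans (h1 _).2.1)).le
      exact e1.trans (e3.trans e2)
  set s : Finset (Fin n) := Finset.univ.filter fun i => 0 < (i : ℕ) ∧ (i : ℕ) + 1 < n with hs
  have hsum : ∑ i, |F (y i) - F (x i)| =
      ∑ i ∈ s, |F (y i) - F (x i)| + ∑ i ∈ Finset.univ.filter (fun i : Fin n => ¬ (0 < (i : ℕ) ∧ (i : ℕ) + 1 < n)),
        |F (y i) - F (x i)| := (Finset.sum_filter_add_sum_filter_not _ _ _).symm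
  have hmid : ∑ i ∈ s, |F (y i) - F (x i)| ≤ M₀ := by
    have hmem : ∀ i ∈ s, 0 < (i : ℕ) ∧ (i : ℕ) + 1 < n := fun i hi => (Finset.mem_filter.1 hi).2
    have hbd : ∀ i ∈ s, k ((i : ℕ) - 1) ∈ K ∧ k (i : ℕ) ∈ K ∧ k ((i : ℕ) - 1) ≤ x i ∧ y i ≤ k i := by
      intro i hi
      obtain ⟨e1, e2⟩ := hmem i hi
      have e3 : (i : ℕ) - 1 + 1 < n := by omega
      have e4 : (⟨(i : ℕ) - 1 + 1, e3⟩ : Fin n) = i := Fin.ext (by simp; omega)
      have e5 := hk ((i : ℕ) - 1) e3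
      rw [e4] at e5
      exact ⟨e5.1, (hk i e2).1, e5.2.2, (hk i e2).2.1⟩
    refine (Finset.sum_le_sum (g := fun i : Fin n => osc F (k ((i : ℕ) - 1)) (k i)) fun i hi => ?_).trans
      (vb_finset h s (fun i => k ((i : ℕ) - 1)) (fun i => k i) (fun i hi => ?_) (fun i hi j hj hij => ?_))
    · obtain ⟨-, -, e1, e2⟩ := hbd i hi
      exact le_osc F hF _ _ _ _ ⟨e1.trans (h1 i).2.1.le, e2⟩ ⟨e1, (h1 i).2.1.le.trans e2⟩
    · obtain ⟨e0, e0', e1, e2⟩ := hbd i hi
      exact ⟨e0, e0', lt_of_le_of_lt e1 ((h1 i).2.1.trans_le e2)⟩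
    · have key : ∀ i j : Fin n, i ∈ s → j ∈ s → (i : ℕ) < j → k (i : ℕ) ≤ k ((j : ℕ) - 1) := by
        intro i j hi hj hlt
        exact hkm i ((j : ℕ) - 1) (by omega) (by have := (hmem j hj).2; omega)
      have hij' : (i : ℕ) ≠ j := fun e => hij (Fin.ext e)
      rw [Set.disjoint_left]
      rintro z ⟨h3, h4⟩ ⟨h5, h6⟩
      rcases lt_or_gt_of_ne hij' with hlt | hlt
      · exact absurd (h4.trans_le (key i j hi hj hlt)) (not_lt.2 h5.le)
      · exact absurd (h6.trans_le (key j i hj hi hlt)) (not_lt.2 h3.le)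
  have hend : ∑ i ∈ Finset.univ.filter (fun i : Fin n => ¬ (0 < (i : ℕ) ∧ (i : ℕ) + 1 < n)),
      |F (y i) - F (x i)| ≤ 2 * osc F c d := by
    refine (Finset.sum_le_sum fun i _ => hle i).trans ?_
    rw [Finset.sum_const, nsmul_eq_mul]
    refine mul_le_mul_of_nonneg_right ?_ hΩ
    have : (Finset.univ.filter (fun i : Fin n => ¬ (0 < (i : ℕ) ∧ (i : ℕ) + 1 < n))).card ≤ 2 := by
      refine le_trans (Finset.card_le_card_of_injOn (t := ({0, n - 1} : Finset ℕ)) (fun i => (i : ℕ))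
        ?_ ?_) (Finset.card_le_two)
      · intro i hi
        have hi' := (Finset.mem_filter.1 hi).2
        have := i.2
        simp only [Finset.coe_insert, Finset.coe_singleton, mem_insert_iff, mem_singleton_iff]
        omega
      · intro i _ j _ hij
        exact Fin.ext hij
    exact_mod_cast this
  linarith

/-- a good portion of the unresolved set -/
theorem baire_bounds {a b : ℝ} (hab : a < b) {φ F₀ : ℝ → ℝ} (hFc : Continuous F₀)
    (hF : IsPrim φ F₀ a b) {U : Set (ℚ × ℚ)} (hU : St U) (h01 : ((0 : ℚ), (1 : ℚ)) ∉ U) :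
    ∃ (I : ℚ × ℚ) (M : ℕ), Valid I ∧ I ∉ U ∧
      (∀ (n : ℕ) (x y : Fin n → ℚ), (∀ i, I.1 ≤ x i ∧ x i < y i ∧ y i ≤ I.2) →
        (∀ i j, i < j → y i < x j ∧ (y i, x j) ∉ U) →
        ∑ i, |F₀ (pt a b (y i)) - F₀ (pt a b (x i))| ≤ M) ∧
      ∫⁻ x in Icc (pt a b I.1) (pt a b I.2) ∩ KU a b U, ‖φ x‖ₑ ≤ M := by
  obtain ⟨⟨-, K, hKc, hKu, hK⟩, hder⟩ := hF
  have hne : (KU a b U).Nonempty := by
    by_contra hcon
    rw [not_nonempty_iff_eq_empty] at hcon
    refine h01 (hU.cover hab ⟨le_rfl, one_pos, le_rfl⟩ fun x _ => ?_)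
    rw [hcon]
    exact notMem_empty x
  obtain ⟨z, hz⟩ := hne
  have hPc := isClosed_KU a b U
  have : Nonempty (KU a b U) := ⟨⟨z, hz⟩⟩
  have : CompleteSpace (KU a b U) := hPc.completeSpace_coe
  obtain ⟨n, x₀, hx₀⟩ := nonempty_interior_of_iUnion_of_closed
    (f := fun n => ((↑) : KU a b U → ℝ) ⁻¹' (K n)) (fun n => (hKc n).preimage continuous_subtype_val) (by
      rw [eq_univ_iff_forall]
      intro x
      have hx : (x : ℝ) ∈ Icc a b := x.2.1
      rw [hKu] at hx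
      obtain ⟨n, hn⟩ := mem_iUnion.1 hx
      exact mem_iUnion.2 ⟨n, hn⟩)
  obtain ⟨ε, hε, hball⟩ := Metric.mem_nhds_iff.1 (mem_interior_iff_mem_nhds.1 hx₀)
  have hPK : ∀ y ∈ KU a b U, |y - x₀| < ε → y ∈ K n := by
    intro y hy hyx
    exact hball (show (⟨y, hy⟩ : KU a b U) ∈ Metric.ball x₀ ε from hyx)
  have hba : 0 < b - a := by linarith
  have hx₀' : (x₀ : ℝ) ∈ Icc a b := x₀.2.1
  set t : ℝ := ((x₀ : ℝ) - a) / (b - a) with ht
  have ht' : (x₀ : ℝ) = a + (b - a) * t := by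
    rw [ht]
    field_simp
    ring
  have ht0 : 0 ≤ t := div_nonneg (by linarith [hx₀'.1]) hba.le
  have ht1 : t ≤ 1 := by
    rw [ht, div_le_one hba]
    linarith [hx₀'.2]
  have hη : 0 < ε / (b - a) := div_pos hε hba
  have hηe : (b - a) * (ε / (b - a)) = ε := by
    field_simp
  obtain ⟨q, hq0, hqt, hqη, hq⟩ := TaskBaire.exists_left ht0 hη
  obtain ⟨r, hr1, hrt, hrη, hr⟩ := TaskBaire.exists_right ht1 hη
  have hqr : q < r := by
    have : (q : ℝ) < r := by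
      rcases hq with hq | hq
      · exact hq.trans_le hrt
      · rcases hr with hr | hr
        · exact hqt.trans_lt hr
        · rw [hq, hr]
          norm_num
    exact_mod_cast this
  have hq2 : (x₀ : ℝ) - ε < pt a b q := by
    have := mul_lt_mul_of_pos_left hqη hba
    rw [mul_sub, hηe] at this
    simp only [pt]
    linarith
  have hr2 : pt a b r < (x₀ : ℝ) + ε := by
    have := mul_lt_mul_of_pos_left hrη hba
    rw [mul_add, hηe] at this
    simp only [pt]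
    linarith
  have hxOp : (x₀ : ℝ) ∈ Op a b (q, r) := by
    refine ⟨?_, ?_⟩
    · rcases hq with hq | hq
      · left
        have := mul_lt_mul_of_pos_left hq hba
        simp only [pt]
        linarith
      · exact Or.inr hq
    · rcases hr with hr | hr
      · left
        have := mul_lt_mul_of_pos_left hr hba
        simp only [pt]
        linarith
      · exact Or.inr hr
  have hv : Valid (q, r) := ⟨hq0, hqr, hr1⟩
  set c := pt a b q with hc
  set d := pt a b r with hd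
  have hcd : c < d := hv.lt hab
  have hsub : Icc c d ⊆ Icc a b := hv.sub_Icc hab
  set P := Icc c d ∩ KU a b U with hP
  have hPclosed : IsClosed P := isClosed_Icc.inter hPc
  have hPs : P ⊆ Icc c d := inter_subset_left
  have hPKn : P ⊆ K n := by
    intro y hy
    refine hPK y hy.2 ?_
    rw [abs_lt]
    constructor <;> linarith [hy.1.1, hy.1.2]
  have hAC : ACStar F₀ P := acstar_mono hPKn (hK n)
  obtain ⟨M₀, hM₀, hvb⟩ := vb_bound hFc hcd hPs hAC
  have hint : IntegrableOn φ P := by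
    refine integrableOn_of_acstar hFc hcd hPclosed hPs hAC ?_
    rw [ae_restrict_iff' measurableSet_Icc] at hder
    filter_upwards [hder] with x hx hxP using hx (hsub (hPs hxP))
  have hfin : ∫⁻ x in P, ‖φ x‖ₑ < ⊤ := by
    have := hint.2
    rwa [hasFiniteIntegral_iff_enorm] at this
  obtain ⟨M, hM⟩ := exists_nat_ge (max (2 * osc F₀ c d + M₀) (∫⁻ x in P, ‖φ x‖ₑ).toReal)
  refine ⟨(q, r), M, hv, fun hc => not_mem_KU hc hxOp x₀.2, ?_, ?_⟩
  · intro n x y h1 h2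
    refine (sep_bound hFc (K := P) hcd.le hM₀ hvb n (fun i => pt a b (x i)) (fun i => pt a b (y i))
      (fun i => ⟨(pt_le hab).2 (h1 i).1, (pt_lt hab).2 (h1 i).2.1, (pt_le hab).2 (h1 i).2.2⟩)
      (fun i j hij => ?_)).trans ((le_max_left _ _).trans hM)
    obtain ⟨h3, h4⟩ := h2 i j hij
    refine ⟨(pt_lt hab).2 h3, ?_⟩
    have hv' : Valid (y i, x j) := ⟨hq0.trans ((h1 i).1.trans (h1 i).2.1.le), h3,
      ((h1 j).2.1.le.trans (h1 j).2.2).trans hr1⟩
    by_contra hcon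
    push Not at hcon
    refine h4 (hU.cover hab hv' fun z hz hzK => ?_)
    refine absurd hz.2 (not_le.2 (hcon z ⟨⟨?_, ?_⟩, hzK⟩ hz.1))
    · exact ((pt_le hab).2 ((h1 i).1.trans (h1 i).2.1.le)).trans hz.1
    · exact hz.2.trans ((pt_le hab).2 ((h1 j).2.1.le.trans (h1 j).2.2))
  · rw [← ENNReal.ofReal_toReal hfin.ne]
    refine (ENNReal.ofReal_le_ofReal ((le_max_right _ _).trans hM)).trans ?_
    rw [ENNReal.ofReal_natCast]

end Pool.Agent.Zk92.Den
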