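import Mathlib
import Pool.Agent.Zk92.Den.Basic
import Pool.Agent.Zk92.Den.VBound
import Pool.Agent.Zk92.Den.Harnack
import Pool.Agent.Zk92.Den.Baire

/-!
# A certificate of non-integrability
-/

set_option autoImplicit false

namespace Pool.Agent.Zk92.Den

open MeasureTheory Set Filter Topology
open Pool.Agent.Q302.DJ

/-- the intervals of rank at most `x` -/
def Us (r : ℚ × ℚ → ℝ) (x : ℝ) : Set (ℚ × ℚ) := {J | Valid J ∧ r J ≤ x ∧ r J < 1}

/-- the intervals which appear in the stages `s 0, s 1, ...` -/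
def Uw (r : ℚ × ℚ → ℝ) (s : ℕ → ℝ) : Set (ℚ × ℚ) := {J | ∃ n, J ∈ Us r (s n)}

/-- the threshold condition -/
def Th (a b : ℝ) (ψ : ℝ → ENNReal) (U V : Set (ℚ × ℚ)) (Fv : ℚ × ℚ → ℝ) (I : ℚ × ℚ) (M n : ℕ) :
    Prop :=
  VB U V Fv I M ∧ IB a b ψ V I n M

/-- a certificate of non-integrability -/
structure Cert (a b : ℝ) (h : a ≤ b) (D : CC a b → (ℕ → ℝ) → Prop) (ψ : ℝ → ENNReal)
    (r Fv : ℚ × ℚ → ℝ) (s : ℚ × ℚ → ℕ → ℕ → ℝ) (G : ℚ × ℚ → CC a b) (p : ℚ × ℚ → ℕ → ℝ) :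
    Prop where
  nonneg : ∀ J, Valid J → 0 ≤ r J
  sub : ∀ q t q' t' : ℚ, Valid (q, t) → q ≤ q' → q' < t' → t' ≤ t → r (q', t') ≤ r (q, t)
  glue : ∀ u v u' v' : ℚ, Valid (u, v) → Valid (u', v') → u ≤ u' → u' < v → v ≤ v' →
    r (u, v') ≤ max (r (u, v)) (r (u', v'))
  one_le : 1 ≤ r (0, 1)
  step : ∀ J, Valid J → r J < 1 →
    Step a b (fun J' => (Fv J', decide (r J' < r J))) (ex h (G J)) (p J) J.1 J.2 ∧ D (G J) (p J) ∧
      Fv J = ex h (G J) (pt a b J.2) - ex h (G J) (pt a b J.1)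
  s_zero : ∀ I M, Valid I → s I M 0 = 0
  s_mono : ∀ I M n, Valid I → s I M n ≤ s I M (n + 1)
  s_min : ∀ I M n (α : ℚ), Valid I → (α : ℝ) < s I M (n + 1) →
    Th a b ψ (Us r (s I M n)) (Us r α) Fv I M n → Us r α ⊆ Us r (s I M n)
  s_th : ∀ I M n, Valid I → s I M (n + 1) = 1 ∨
    Th a b ψ (Us r (s I M n)) (Us r (s I M (n + 1))) Fv I M n
  s_lim : ∀ I M, Valid I → (∀ α : ℚ, (α : ℝ) < 1 → ∃ n, (α : ℝ) < s I M n) ∨
    (∀ α : ℚ, (α : ℝ) < r I → ∃ n, (α : ℝ) < s I M n) ∨ ¬ Pr a b ψ (Uw r (s I M)) Fv I M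
  top : ∀ I M, Valid I → r I < 1 ∨ ¬ Pr a b ψ (Us r 1) Fv I M

theorem ib_of_lintegral {a b : ℝ} (hab : a < b) {φ : ℝ → ℝ} {ψ : ℝ → ENNReal}
    (hψ : ∀ᵐ x ∂(volume.restrict (Icc a b)), ψ x = ‖φ x‖ₑ) {U V : Set (ℚ × ℚ)} (hUV : U ⊆ V)
    {I : ℚ × ℚ} (hI : Valid I) {n M : ℕ}
    (h : ∫⁻ x in Icc (pt a b I.1) (pt a b I.2) ∩ KU a b U, ‖φ x‖ₑ ≤ M) : IB a b ψ V I n M := by
  unfold IB
  calc ∫⁻ x in Icc (pt a b I.1) (pt a b I.2) ∩ KU a b V, min (ψ x) n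
      ≤ ∫⁻ x in Icc (pt a b I.1) (pt a b I.2) ∩ KU a b V, ψ x :=
        lintegral_mono fun x => min_le_left _ _
    _ = ∫⁻ x in Icc (pt a b I.1) (pt a b I.2) ∩ KU a b V, ‖φ x‖ₑ := by
        refine lintegral_congr_ae ?_
        refine ae_mono (Measure.restrict_mono ?_ le_rfl) hψ
        exact inter_subset_left.trans (hI.sub_Icc hab)
    _ ≤ ∫⁻ x in Icc (pt a b I.1) (pt a b I.2) ∩ KU a b U, ‖φ x‖ₑ :=
        lintegral_mono_set (inter_subset_inter_right _ (KU_anti hUV))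
    _ ≤ M := h

theorem uc_of_continuous {a b : ℝ} (hab : a < b) {F₀ : ℝ → ℝ} (hF : Continuous F₀)
    {V : Set (ℚ × ℚ)} {Fv : ℚ × ℚ → ℝ} (hv : ∀ J ∈ V, Fv J = F₀ (pt a b J.2) - F₀ (pt a b J.1))
    {I : ℚ × ℚ} (hI : Valid I) : UC V Fv I := by
  intro k
  have hu := isCompact_Icc.uniformContinuousOn_of_continuous (s := Icc a b) hF.continuousOn
  rw [Metric.uniformContinuousOn_iff] at hu
  obtain ⟨δ, hδ, h⟩ := hu (1 / ((k : ℝ) + 1)) (by positivity)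
  have hba : 0 < b - a := sub_pos.2 hab
  obtain ⟨m, hm⟩ := exists_nat_gt ((b - a) / δ)
  have hm0 : (0 : ℝ) < (m : ℝ) + 1 := by positivity
  refine ⟨m, fun x y h1 h2 h3 h4 h5 => ?_⟩
  rw [hv _ h4]
  have e1 : pt a b x ∈ Icc a b := ⟨(hI.le_left hab).trans ((pt_le hab).2 h1),
    ((pt_le hab).2 (h2.le.trans h3)).trans (hI.right_le hab)⟩
  have e2 : pt a b y ∈ Icc a b := ⟨(hI.le_left hab).trans ((pt_le hab).2 (h1.trans h2.le)),
    ((pt_le hab).2 h3).trans (hI.right_le hab)⟩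
  have e3 : dist (pt a b y) (pt a b x) < δ := by
    rw [Real.dist_eq, pt_sub, abs_of_pos (mul_pos hba (by
      have : (x : ℝ) < y := by exact_mod_cast h2
      linarith))]
    calc (b - a) * ((y : ℝ) - x) < (b - a) * (1 / ((m : ℝ) + 1)) := mul_lt_mul_of_pos_left h5 hba
      _ ≤ δ := by
        rw [mul_one_div, div_le_iff₀ hm0]
        rw [div_lt_iff₀ hδ] at hm
        nlinarith
  have := h _ e2 _ e1 e3
  rw [Real.dist_eq] at this
  exact this.le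

section
variable {a b : ℝ} {h : a ≤ b} {D : CC a b → (ℕ → ℝ) → Prop} {ψ : ℝ → ENNReal}
    {r Fv : ℚ × ℚ → ℝ} {s : ℚ × ℚ → ℕ → ℕ → ℝ} {G : ℚ × ℚ → CC a b} {p : ℚ × ℚ → ℕ → ℝ}

theorem Us_mono {r : ℚ × ℚ → ℝ} {x y : ℝ} (hxy : x ≤ y) : Us r x ⊆ Us r y :=
  fun _ hJ => ⟨hJ.1, hJ.2.1.trans hxy, hJ.2.2⟩

theorem Cert.st (hC : Cert a b h D ψ r Fv s G p) (x : ℝ) : St (Us r x) where
  val := fun J hJ => hJ.1
  sub := by
    rintro q t q' t' ⟨h1, h2, h3⟩ h4 h5 h6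
    have h7 := hC.sub q t q' t' h1 h4 h5 h6
    exact ⟨⟨h1.1.trans h4, h5, h6.trans h1.2.2⟩, h7.trans h2, h7.trans_lt h3⟩
  glue := by
    rintro u v u' v' ⟨h1, h2, h3⟩ ⟨h1', h2', h3'⟩ h4 h5 h6
    have h7 := hC.glue u v u' v' h1 h1' h4 h5 h6
    exact ⟨⟨h1.1, h4.trans_lt (h5.trans_le h6), h1'.2.2⟩, h7.trans (max_le h2 h2'),
      h7.trans_lt (max_lt h3 h3')⟩

theorem Cert.zo (hC : Cert a b h D ψ r Fv s G p) (x : ℝ) : ((0 : ℚ), (1 : ℚ)) ∉ Us r x :=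
  fun hc => absurd hc.2.2 (not_lt.2 hC.one_le)

end

/-- the soundness of a certificate -/
theorem Cert.elim {a b : ℝ} (hab : a < b) {φ F₁ : ℝ → ℝ} (hF₁ : IsPrim φ F₁ a b)
    {D : CC a b → (ℕ → ℝ) → Prop} (hD : ∀ F p, D F p → DerivOn a b φ (ex hab.le F) p)
    {ψ : ℝ → ENNReal} (hψ : ∀ᵐ x ∂(volume.restrict (Icc a b)), ψ x = ‖φ x‖ₑ)
    {r Fv : ℚ × ℚ → ℝ} {s : ℚ × ℚ → ℕ → ℕ → ℝ} {G : ℚ × ℚ → CC a b} {p : ℚ × ℚ → ℕ → ℝ}
    (hC : Cert a b hab.le D ψ r Fv s G p) : False := by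
  classical
  -- a continuous primitive
  obtain ⟨F₀, hFc, hF⟩ : ∃ F₀ : ℝ → ℝ, Continuous F₀ ∧ IsPrim φ F₀ a b := by
    refine ⟨fun x => F₁ (cl a b x), hF₁.1.1.comp_continuous (continuous_cl a b)
      (fun x => cl_mem hab.le x), prim_congr (C := 0) hab (fun x hx => ?_) hF₁⟩
    rw [add_zero, cl_of_mem hx]
  set Δ : ℚ × ℚ → ℝ := fun J => F₀ (pt a b J.2) - F₀ (pt a b J.1) with hΔ
  have hΦ : TrueInt a b φ (fun J => (Δ J, true)) := by
    intro q t h1 h2 h3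
    have h4 : IsPrim φ F₀ (pt a b q) (pt a b t) := by
      refine prim_restr ?_ ((pt_lt hab).2 h2) ?_ hF
      · have := (pt_le hab).2 h1
        rwa [pt_zero] at this
      · have := (pt_le hab).2 h3
        rwa [pt_one] at this
    refine ⟨⟨fun _ => ⟨F₀, h4⟩, fun _ => rfl⟩, fun F h5 => ?_⟩
    have := uniq φ F₀ F _ _ ((pt_lt hab).2 h2) h4 h5 _ (right_mem_Icc.2 ((pt_lt hab).2 h2).le)
    rw [hΔ]
    exact this
  -- soundness
  have hsound : ∀ J, Valid J → r J < 1 → (∀ J', Valid J' → r J' < r J → Fv J' = Δ J') →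
      Fv J = Δ J := by
    intro J hJ hr hlt
    obtain ⟨⟨g1, g2, g3, g4⟩, g5, g6⟩ := hC.step J hJ hr
    have hp : IsPrim φ (ex hab.le (G J)) (pt a b J.1) (pt a b J.2) := by
      refine glueTask a b hab φ _ hΦ (G J) (p J) J.1 J.2 ⟨g1, g2, g3, ?_⟩ (hD _ _ g5)
      intro q' r' k1 k2 k3 k4
      obtain ⟨k5, k6⟩ := g4 q' r' k1 k2 k3 k4
      have k7 : r (q', r') < r J := of_decide_eq_true k5
      refine ⟨rfl, ?_⟩
      dsimp only at k6 ⊢
      rw [← k6, hlt (q', r') ⟨hJ.1.trans k1, k2, k3.trans hJ.2.2⟩ k7]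
    rw [g6]
    exact ((hΦ J.1 J.2 hJ.1 hJ.2.1 hJ.2.2).2 _ hp).symm
  by_cases hall : ∀ J, Valid J → r J < 1 → Fv J = Δ J
  · -- all the resolved intervals are true
    obtain ⟨I, M, hI, hIU, hvb, hint⟩ := baire_bounds hab hFc hF (hC.st 1) (hC.zo 1)
    rcases hC.top I M hI with h1 | h1
    · exact hIU ⟨hI, h1.le, h1⟩
    · refine h1 ⟨?_, ?_, fun n => ib_of_lintegral hab hψ Subset.rfl hI hint⟩
      · intro n x y h2 h3
        refine le_trans (le_of_eq (Finset.sum_congr rfl fun i _ => ?_))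
          (hvb n x y (fun i => ⟨(h2 i).1, (h2 i).2.1, (h2 i).2.2.1⟩) h3)
        obtain ⟨-, -, -, h4⟩ := h2 i
        rw [hall _ h4.1 h4.2.2]
      · exact uc_of_continuous hab hFc (fun J hJ => hall J hJ.1 hJ.2.2) hI
  · push Not at hall
    obtain ⟨J₀, hJ₀, hJ₀1, hJ₀f⟩ := hall
    set S : Set ℝ := {x | ∃ J, Valid J ∧ r J < 1 ∧ Fv J ≠ Δ J ∧ x = r J} with hS
    have hSne : S.Nonempty := ⟨_, J₀, hJ₀, hJ₀1, hJ₀f, rfl⟩
    have hSb : BddBelow S := ⟨0, by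
      rintro x ⟨J, h1, -, -, rfl⟩
      exact hC.nonneg J h1⟩
    set xs : ℝ := sInf S with hxs
    have hxs0 : 0 ≤ xs := le_csInf hSne (by
      rintro x ⟨J, h1, -, -, rfl⟩
      exact hC.nonneg J h1)
    have hxs1 : xs < 1 := (csInf_le hSb ⟨J₀, hJ₀, hJ₀1, hJ₀f, rfl⟩).trans_lt hJ₀1
    have hlow : ∀ J, Valid J → r J < xs → Fv J = Δ J := by
      intro J h1 h2
      by_contra h3
      exact absurd (csInf_le hSb ⟨J, h1, h2.trans hxs1, h3, rfl⟩) (not_le.2 h2)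
    have hle : ∀ J, Valid J → r J ≤ xs → Fv J = Δ J := by
      intro J h1 h2
      rcases h2.eq_or_lt with h3 | h3
      · exact hsound J h1 (h2.trans_lt hxs1) fun J' h4 h5 => hlow J' h4 (h5.trans_le h2)
      · exact hlow J h1 h3
    have hfalse : ∀ α : ℝ, xs < α → ∃ J, Valid J ∧ r J < 1 ∧ xs < r J ∧ r J < α := by
      intro α hα
      obtain ⟨x, ⟨J, h1, h2, h3, rfl⟩, h4⟩ := exists_lt_of_csInf_lt hSne hα
      refine ⟨J, h1, h2, ?_, h4⟩
      by_contra h5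
      exact h3 (hle J h1 (not_lt.1 h5))
    obtain ⟨I, M, hI, hIU, hvb, hint⟩ := baire_bounds hab hFc hF (hC.st xs) (hC.zo xs)
    -- the variation bound for the stages
    have hVB : ∀ x y : ℝ, x ≤ xs → (∀ J, J ∉ Us r y → J ∉ Us r xs) →
        VB (Us r x) (Us r y) Fv I M := by
      intro x y hx hy n u v h2 h3
      refine le_trans (le_of_eq (Finset.sum_congr rfl fun i _ => ?_))
        (hvb n u v (fun i => ⟨(h2 i).1, (h2 i).2.1, (h2 i).2.2.1⟩)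
          (fun i j hij => ⟨(h3 i j hij).1, hy _ (h3 i j hij).2⟩))
      obtain ⟨-, -, -, h4⟩ := h2 i
      rw [hle _ h4.1 (h4.2.1.trans hx)]
    -- the sequence is bounded
    have hs : ∀ n, s I M n ≤ xs := by
      intro n
      induction n with
      | zero => rw [hC.s_zero I M hI]; exact hxs0
      | succ n ih =>
        by_contra hcon
        push Not at hcon
        obtain ⟨α, h1, h2⟩ := exists_rat_btwn hcon
        have h3 := hC.s_min I M n α hI h2 ⟨hVB _ _ ih fun J hJ hJ' => hJ (Us_mono h1.le hJ'),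
          ib_of_lintegral hab hψ (Us_mono h1.le) hI hint⟩
        obtain ⟨J, h4, h5, h6, h7⟩ := hfalse α h1
        have h8 := h3 (show J ∈ Us r α from ⟨h4, h7.le, h5⟩)
        linarith [h8.2.1]
    rcases hC.s_lim I M hI with h1 | h1 | h1
    · obtain ⟨α, h2, h3⟩ := exists_rat_btwn hxs1
      obtain ⟨n, h4⟩ := h1 α h3
      linarith [hs n]
    · rcases le_or_gt (r I) xs with h2 | h2
      · exact hIU ⟨hI, h2, h2.trans_lt hxs1⟩
      · obtain ⟨α, h3, h4⟩ := exists_rat_btwn h2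
        obtain ⟨n, h5⟩ := h1 α h4
        linarith [hs n]
    · have hth : ∀ n, Th a b ψ (Us r (s I M n)) (Us r (s I M (n + 1))) Fv I M n := by
        intro n
        rcases hC.s_th I M n hI with h2 | h2
        · have := hs (n + 1)
          linarith
        · exact h2
      have hmono : Monotone (s I M) := monotone_nat_of_le_succ fun n => hC.s_mono I M n hI
      have hsub : ∀ n, Us r (s I M n) ⊆ Uw r (s I M) := fun n J hJ => ⟨n, hJ⟩
      refine h1 ⟨?_, ?_, fun n => ?_⟩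
      · intro n x y h2 h3
        choose m hm using fun i => (h2 i).2.2.2
        set N := Finset.univ.sup m with hN
        refine (hth N).1 n x y (fun i => ⟨(h2 i).1, (h2 i).2.1, (h2 i).2.2.1,
          Us_mono (hmono (Finset.le_sup (Finset.mem_univ i))) (hm i)⟩) fun i j hij =>
          ⟨(h3 i j hij).1, fun hc => (h3 i j hij).2 (hsub _ hc)⟩
      · refine uc_of_continuous hab hFc (fun J hJ => ?_) hI
        obtain ⟨n, hn⟩ := hJ
        exact hle J hn.1 (hn.2.1.trans (hs n))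
      · refine le_trans ?_ ((hth n).2)
        exact lintegral_mono_set (inter_subset_inter_right _ (KU_anti (hsub _)))

end Pool.Agent.Zk92.Den
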