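import Mathlib
import Pool.Agent.Zk92.Den.Basic
import Pool.Agent.Zk92.Den.Pseudo
import Pool.Agent.Q302.DJ.TaskMeasA
import Pool.Agent.Q302.DJ.TaskMeasD
import Pool.Agent.Q302.DJ.TaskAn

/-!
# The set of the certificates is Borel
-/

set_option autoImplicit false

namespace Pool.Agent.Zk92.Den

open MeasureTheory Set Filter Topology
open Pool.Agent.Q302.DJ

section general
variable {Z : Type} [MeasurableSpace Z]

theorem ms_le {f g : Z → ℝ} (hf : Measurable f) (hg : Measurable g) :
    Measurable fun z => f z ≤ g z := measurableSet_setOfPred.1 (measurableSet_le hf hg)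

theorem ms_lt {f g : Z → ℝ} (hf : Measurable f) (hg : Measurable g) :
    Measurable fun z => f z < g z := measurableSet_setOfPred.1 (measurableSet_lt hf hg)

theorem ms_eq {f g : Z → ℝ} (hf : Measurable f) (hg : Measurable g) :
    Measurable fun z => f z = g z := measurableSet_setOfPred.1 (measurableSet_eq_fun hf hg)

theorem ms_const (P : Prop) : Measurable fun _ : Z => P := measurable_const

variable {U V : Z → Set (ℚ × ℚ)} {Fv : Z → ℚ × ℚ → ℝ}

theorem ms_VB (hU : ∀ J, Measurable fun z => J ∈ U z) (hV : ∀ J, Measurable fun z => J ∈ V z)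
    (hF : ∀ J, Measurable fun z => Fv z J) (I : ℚ × ℚ) (M : ℕ) :
    Measurable fun z => VB (U z) (V z) (Fv z) I M := by
  unfold VB
  refine Measurable.forall fun n => Measurable.forall fun x => Measurable.forall fun y =>
    Measurable.imp (Measurable.forall fun i => ?_) (Measurable.imp (Measurable.forall fun i =>
      Measurable.forall fun j => Measurable.imp (ms_const _) ?_) ?_)
  · exact (ms_const _).and ((ms_const _).and ((ms_const _).and (hU _)))
  · exact (ms_const _).and (hV _).not
  · exact ms_le (Finset.measurable_sum _ fun i _ => (hF _).abs) measurable_const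

theorem ms_UC (hU : ∀ J, Measurable fun z => J ∈ U z) (hF : ∀ J, Measurable fun z => Fv z J)
    (I : ℚ × ℚ) : Measurable fun z => UC (U z) (Fv z) I := by
  unfold UC
  refine Measurable.forall fun k => Measurable.exists fun m => Measurable.forall fun x =>
    Measurable.forall fun y => Measurable.imp (ms_const _) (Measurable.imp (ms_const _)
      (Measurable.imp (ms_const _) (Measurable.imp (hU _) (Measurable.imp (ms_const _) ?_))))
  exact ms_le (hF _).abs measurable_const

theorem ms_IB {a b : ℝ} {ψ : Z → ℝ → ENNReal}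
    (hψ : Measurable fun w : Z × ℝ => ψ w.1 w.2) (hU : ∀ J, Measurable fun z => J ∈ U z)
    (I : ℚ × ℚ) (n M : ℕ) : Measurable fun z => IB a b (ψ z) (U z) I n M := by
  set S : Set (Z × ℝ) := {w | w.2 ∈ Icc (pt a b I.1) (pt a b I.2) ∩ KU a b (U w.1)} with hS
  have hSm : MeasurableSet S := by
    have e : S = {w | w.2 ∈ Icc (pt a b I.1) (pt a b I.2) ∧ w.2 ∈ Icc a b ∧
        ¬ ∃ J : ℚ × ℚ, J ∈ U w.1 ∧ w.2 ∈ Op a b J} := by
      ext w
      simp only [hS, KU, mem_ofPred_eq, mem_inter_iff, Set.mem_sdiff, mem_iUnion, exists_prop]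
    rw [e]
    refine measurableSet_setOfPred.2 ?_
    have h1 : ∀ {T : Set ℝ}, MeasurableSet T → Measurable fun w : Z × ℝ => w.2 ∈ T := by
      intro T hT
      exact measurableSet_setOfPred.1 (measurable_snd hT)
    refine (h1 measurableSet_Icc).and ((h1 measurableSet_Icc).and (Measurable.not
      (Measurable.exists fun J => Measurable.and ?_ (h1 (isOpen_Op a b J).measurableSet))))
    exact (hU J).comp measurable_fst
  have hf : Measurable (S.indicator fun w : Z × ℝ => min (ψ w.1 w.2) n) :=
    (hψ.min measurable_const).indicator hSm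
  have h2 := Measurable.lintegral_prod_right' (ν := volume) hf
  have h3 : ∀ z, IB a b (ψ z) (U z) I n M ↔
      ∫⁻ x, S.indicator (fun w : Z × ℝ => min (ψ w.1 w.2) n) (z, x) ≤ M := by
    intro z
    unfold IB
    rw [← lintegral_indicator (measurableSet_Icc.inter (isClosed_KU a b (U z)).measurableSet)]
    refine Iff.of_eq (congrArg (· ≤ (M : ENNReal)) (lintegral_congr fun x => ?_))
    by_cases hx : x ∈ Icc (pt a b I.1) (pt a b I.2) ∩ KU a b (U z)
    · rw [indicator_of_mem hx, indicator_of_mem (show (z, x) ∈ S from hx)]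
    · rw [indicator_of_notMem hx, indicator_of_notMem (show (z, x) ∉ S from hx)]
  simp_rw [h3]
  exact measurableSet_setOfPred.1 (measurableSet_le h2 measurable_const)

theorem ms_Th {a b : ℝ} {ψ : Z → ℝ → ENNReal}
    (hψ : Measurable fun w : Z × ℝ => ψ w.1 w.2) (hU : ∀ J, Measurable fun z => J ∈ U z)
    (hV : ∀ J, Measurable fun z => J ∈ V z) (hF : ∀ J, Measurable fun z => Fv z J)
    (I : ℚ × ℚ) (M n : ℕ) : Measurable fun z => Th a b (ψ z) (U z) (V z) (Fv z) I M n :=
  (ms_VB hU hV hF I M).and (ms_IB hψ hV I n M)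

theorem ms_Pr {a b : ℝ} {ψ : Z → ℝ → ENNReal}
    (hψ : Measurable fun w : Z × ℝ => ψ w.1 w.2) (hU : ∀ J, Measurable fun z => J ∈ U z)
    (hF : ∀ J, Measurable fun z => Fv z J) (I : ℚ × ℚ) (M : ℕ) :
    Measurable fun z => Pr a b (ψ z) (U z) (Fv z) I M :=
  (ms_VB hU hU hF I M).and ((ms_UC hU hF I).and (Measurable.forall fun n => ms_IB hψ hU I n M))

theorem ms_Us {r : Z → ℚ × ℚ → ℝ} (hr : ∀ J, Measurable fun z => r z J) {c : Z → ℝ}
    (hc : Measurable c) (J : ℚ × ℚ) : Measurable fun z => J ∈ Us (r z) (c z) :=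
  (ms_const _).and ((ms_le (hr J) hc).and (ms_lt (hr J) measurable_const))

theorem ms_Uw {r : Z → ℚ × ℚ → ℝ} (hr : ∀ J, Measurable fun z => r z J) {c : Z → ℕ → ℝ}
    (hc : ∀ n, Measurable fun z => c z n) (J : ℚ × ℚ) : Measurable fun z => J ∈ Uw (r z) (c z) :=
  Measurable.exists fun n => ms_Us hr (hc n) J

theorem ms_sub (hU : ∀ J, Measurable fun z => J ∈ U z) (hV : ∀ J, Measurable fun z => J ∈ V z) :
    Measurable fun z => U z ⊆ V z := by
  have : (fun z => U z ⊆ V z) = fun z => ∀ J, J ∈ U z → J ∈ V z := rfl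
  rw [this]
  exact Measurable.forall fun J => (hU J).imp (hV J)

end general

/-- the absolute value of the limit of the sequence -/
noncomputable def psi {a b : ℝ} (h : a ≤ b) (g : ℕ → CC a b) (x : ℝ) : ENNReal :=
  Filter.liminf (fun n => ENNReal.ofReal |ex h (g n) x|) atTop

theorem psi_ae {a b : ℝ} (h : a ≤ b) {g : ℕ → CC a b} {φ : ℝ → ℝ} (hg : LimIs h g φ) :
    ∀ᵐ x ∂(volume.restrict (Icc a b)), psi h g x = ‖φ x‖ₑ := by
  filter_upwards [hg] with x hx
  have h1 : Tendsto (fun n => ENNReal.ofReal |ex h (g n) x|) atTop (𝓝 (ENNReal.ofReal |φ x|)) :=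
    ENNReal.tendsto_ofReal hx.abs
  unfold psi
  rw [h1.liminf_eq, ← Real.norm_eq_abs, ofReal_norm]

/-- the space of the sequences and the certificates -/
abbrev ZZ (a b : ℝ) : Type := (ℕ → CC a b) × (ℚ × ℚ → ℝ) × (ℚ × ℚ → ℝ) ×
  (ℚ × ℚ → ℕ → ℕ → ℝ) × (ℚ × ℚ → CC a b) × (ℚ × ℚ → ℕ → ℝ)

/-- the sequence with its certificate -/
def CertG {a b : ℝ} (h : a ≤ b) (z : ZZ a b) : Prop :=
  Cert a b h (fun F p => DerivG h z.1 (ex h F) p) (psi h z.1) z.2.1 z.2.2.1 z.2.2.2.1 z.2.2.2.2.1
    z.2.2.2.2.2

theorem polish_prod {X Y : Type} [TopologicalSpace X] [TopologicalSpace Y] (_ : PolishSpace X)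
    (_ : PolishSpace Y) : PolishSpace (X × Y) := inferInstance

theorem polish_pi {ι X : Type} [Countable ι] [TopologicalSpace X] (_ : PolishSpace X) :
    PolishSpace (ι → X) := inferInstance

instance polishZZ (a b : ℝ) : PolishSpace (ZZ a b) :=
  polish_prod (polish_pi inferInstance) (polish_prod (polish_pi inferInstance)
    (polish_prod (polish_pi inferInstance) (polish_prod (polish_pi (polish_pi (polish_pi
    inferInstance))) (polish_prod (polish_pi inferInstance) (polish_pi (polish_pi
    inferInstance))))))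

theorem borel_CertG {a b : ℝ} (h : a < b) :
    @MeasurableSet (ZZ a b) (borel _) {z | CertG h.le z} := by
  let m1 : MeasurableSpace (ZZ a b) := borel _
  have : BorelSpace (ZZ a b) := ⟨rfl⟩
  have cg : Continuous fun z : ZZ a b => z.1 := continuous_fst
  have cr : ∀ J, Continuous fun z : ZZ a b => z.2.1 J := fun J => by fun_prop
  have cF : ∀ J, Continuous fun z : ZZ a b => z.2.2.1 J := fun J => by fun_prop
  have cs : ∀ I M n, Continuous fun z : ZZ a b => z.2.2.2.1 I M n := fun I M n => by fun_prop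
  have cG : ∀ J, Continuous fun z : ZZ a b => z.2.2.2.2.1 J := fun J => by fun_prop
  have cp : ∀ J, Continuous fun z : ZZ a b => z.2.2.2.2.2 J := fun J => by fun_prop
  have cpn : ∀ J n, Continuous fun z : ZZ a b => z.2.2.2.2.2 J n := fun J n => by fun_prop
  have hr : ∀ J, Measurable fun z : ZZ a b => z.2.1 J := fun J => (cr J).measurable
  have hF : ∀ J, Measurable fun z : ZZ a b => z.2.2.1 J := fun J => (cF J).measurable
  have hs : ∀ I M n, Measurable fun z : ZZ a b => z.2.2.2.1 I M n := fun I M n =>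
    (cs I M n).measurable
  have hp : ∀ J n, Measurable fun z : ZZ a b => z.2.2.2.2.2 J n := fun J n => (cpn J n).measurable
  have hex : ∀ J x, Measurable fun z : ZZ a b => ex h.le (z.2.2.2.2.1 J) x := fun J x =>
    ((TaskMeasD.cont_ex h.le).comp ((cG J).prodMk continuous_const)).measurable
  have hψ : Measurable fun w : ZZ a b × ℝ => psi h.le w.1.1 w.2 := by
    unfold psi
    refine Measurable.liminf fun n => ?_
    refine (Continuous.measurable ?_).ennreal_ofReal
    refine Continuous.abs ((TaskMeasD.cont_ex h.le).comp (Continuous.prodMk ?_ continuous_snd))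
    exact (continuous_apply n).comp (continuous_fst.comp continuous_fst)
  have hUc : ∀ (c : ℝ) (J : ℚ × ℚ), Measurable fun z : ZZ a b => J ∈ Us z.2.1 c := fun c J =>
    ms_Us hr measurable_const J
  have hUs : ∀ I M n (J : ℚ × ℚ), Measurable fun z : ZZ a b => J ∈ Us z.2.1 (z.2.2.2.1 I M n) :=
    fun I M n J => ms_Us hr (hs I M n) J
  have hAv : ∀ J (c d : ℝ), Measurable fun z : ZZ a b => Avoid (z.2.2.2.2.2 J) c d := by
    intro J c d
    unfold Avoid
    exact Measurable.exists fun n => Measurable.forall fun m =>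
      (ms_lt (hp J m) measurable_const).or (ms_lt measurable_const (hp J m))
  have hStep : ∀ J, Measurable fun z : ZZ a b => Step a b
      (fun J' => (z.2.2.1 J', decide (z.2.1 J' < z.2.1 J))) (ex h.le (z.2.2.2.2.1 J))
      (z.2.2.2.2.2 J) J.1 J.2 := by
    intro J
    unfold Step
    refine (ms_const _).and (Measurable.and ?_ (Measurable.and ?_ ?_))
    · exact Measurable.forall fun n => (ms_le measurable_const (hp J n)).and
        (ms_le (hp J n) measurable_const)
    · have hA := TaskMeasA.main a b h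
      exact measurableSet_setOfPred.1 (TaskAn.borel_preimage hA ((cG J).prodMk (cp J)))
    · refine Measurable.forall fun q' => Measurable.forall fun r' => (ms_const _).imp
        ((ms_const _).imp ((ms_const _).imp ((hAv J _ _).imp ?_)))
      unfold Concl
      simp only [decide_eq_true_eq]
      exact (ms_lt (hr _) (hr _)).and (ms_eq (hF _) ((hex J _).sub (hex J _)))
  have hDer : ∀ J, Measurable fun z : ZZ a b =>
      DerivG h.le z.1 (ex h.le (z.2.2.2.2.1 J)) (z.2.2.2.2.2 J) := by
    intro J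
    exact measurableSet_setOfPred.1 (TaskAn.borel_preimage (TaskMeasD.main a b h)
      (cg.prodMk ((cG J).prodMk (cp J))))
  have e : {z : ZZ a b | CertG h.le z} = {z : ZZ a b |
      (∀ J, Valid J → 0 ≤ z.2.1 J) ∧
      (∀ q t q' t' : ℚ, Valid (q, t) → q ≤ q' → q' < t' → t' ≤ t →
        z.2.1 (q', t') ≤ z.2.1 (q, t)) ∧
      (∀ u v u' v' : ℚ, Valid (u, v) → Valid (u', v') → u ≤ u' → u' < v → v ≤ v' →
        z.2.1 (u, v') ≤ max (z.2.1 (u, v)) (z.2.1 (u', v'))) ∧
      1 ≤ z.2.1 (0, 1) ∧
      (∀ J, Valid J → z.2.1 J < 1 →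
        Step a b (fun J' => (z.2.2.1 J', decide (z.2.1 J' < z.2.1 J)))
          (ex h.le (z.2.2.2.2.1 J)) (z.2.2.2.2.2 J) J.1 J.2 ∧
        DerivG h.le z.1 (ex h.le (z.2.2.2.2.1 J)) (z.2.2.2.2.2 J) ∧
        z.2.2.1 J = ex h.le (z.2.2.2.2.1 J) (pt a b J.2) -
          ex h.le (z.2.2.2.2.1 J) (pt a b J.1)) ∧
      (∀ I M, Valid I → z.2.2.2.1 I M 0 = 0) ∧
      (∀ I M n, Valid I → z.2.2.2.1 I M n ≤ z.2.2.2.1 I M (n + 1)) ∧
      (∀ I M n (α : ℚ), Valid I → (α : ℝ) < z.2.2.2.1 I M (n + 1) →
        Th a b (psi h.le z.1) (Us z.2.1 (z.2.2.2.1 I M n)) (Us z.2.1 α) z.2.2.1 I M n →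
          Us z.2.1 α ⊆ Us z.2.1 (z.2.2.2.1 I M n)) ∧
      (∀ I M n, Valid I → z.2.2.2.1 I M (n + 1) = 1 ∨
        Th a b (psi h.le z.1) (Us z.2.1 (z.2.2.2.1 I M n)) (Us z.2.1 (z.2.2.2.1 I M (n + 1)))
          z.2.2.1 I M n) ∧
      (∀ I M, Valid I → (∀ α : ℚ, (α : ℝ) < 1 → ∃ n, (α : ℝ) < z.2.2.2.1 I M n) ∨
        (∀ α : ℚ, (α : ℝ) < z.2.1 I → ∃ n, (α : ℝ) < z.2.2.2.1 I M n) ∨
        ¬ Pr a b (psi h.le z.1) (Uw z.2.1 (z.2.2.2.1 I M)) z.2.2.1 I M) ∧
      (∀ I M, Valid I → z.2.1 I < 1 ∨
        ¬ Pr a b (psi h.le z.1) (Us z.2.1 1) z.2.2.1 I M)} := by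
    ext z
    constructor
    · rintro ⟨h1, h2, h3, h4, h5, h6, h7, h8, h9, h10, h11⟩
      exact ⟨h1, h2, h3, h4, h5, h6, h7, h8, h9, h10, h11⟩
    · rintro ⟨h1, h2, h3, h4, h5, h6, h7, h8, h9, h10, h11⟩
      exact ⟨h1, h2, h3, h4, h5, h6, h7, h8, h9, h10, h11⟩
  rw [e]
  refine measurableSet_setOfPred.2 ?_
  refine Measurable.and ?_ (Measurable.and ?_ (Measurable.and ?_ (Measurable.and ?_
    (Measurable.and ?_ (Measurable.and ?_ (Measurable.and ?_ (Measurable.and ?_
    (Measurable.and ?_ (Measurable.and ?_ ?_)))))))))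
  · exact Measurable.forall fun J => (ms_const _).imp (ms_le measurable_const (hr J))
  · exact Measurable.forall fun q => Measurable.forall fun t => Measurable.forall fun q' =>
      Measurable.forall fun t' => (ms_const _).imp ((ms_const _).imp ((ms_const _).imp
        ((ms_const _).imp (ms_le (hr _) (hr _)))))
  · exact Measurable.forall fun u => Measurable.forall fun v => Measurable.forall fun u' =>
      Measurable.forall fun v' => (ms_const _).imp ((ms_const _).imp ((ms_const _).imp
        ((ms_const _).imp ((ms_const _).imp (ms_le (hr _) ((hr _).max (hr _)))))))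
  · exact ms_le measurable_const (hr _)
  · exact Measurable.forall fun J => (ms_const _).imp ((ms_lt (hr J) measurable_const).imp
      ((hStep J).and ((hDer J).and (ms_eq (hF J) ((hex J _).sub (hex J _))))))
  · exact Measurable.forall fun I => Measurable.forall fun M => (ms_const _).imp
      (ms_eq (hs I M 0) measurable_const)
  · exact Measurable.forall fun I => Measurable.forall fun M => Measurable.forall fun n =>
      (ms_const _).imp (ms_le (hs _ _ _) (hs _ _ _))
  · exact Measurable.forall fun I => Measurable.forall fun M => Measurable.forall fun n =>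
      Measurable.forall fun α => (ms_const _).imp ((ms_lt measurable_const (hs _ _ _)).imp
        ((ms_Th hψ (hUs I M n) (hUc α) hF I M n).imp (ms_sub (hUc α) (hUs I M n))))
  · exact Measurable.forall fun I => Measurable.forall fun M => Measurable.forall fun n =>
      (ms_const _).imp ((ms_eq (hs _ _ _) measurable_const).or
        (ms_Th hψ (hUs I M n) (hUs I M (n + 1)) hF I M n))
  · exact Measurable.forall fun I => Measurable.forall fun M => (ms_const _).imp
      (Measurable.or (Measurable.forall fun α => (ms_const _).imp (Measurable.exists fun n =>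
        ms_lt measurable_const (hs _ _ _))) (Measurable.or (Measurable.forall fun α =>
          (ms_lt measurable_const (hr I)).imp (Measurable.exists fun n =>
            ms_lt measurable_const (hs _ _ _)))
          (ms_Pr hψ (fun J => ms_Uw hr (fun n => hs I M n) J) hF I M).not))
  · exact Measurable.forall fun I => Measurable.forall fun M => (ms_const _).imp
      ((ms_lt (hr I) measurable_const).or (ms_Pr hψ (hUc 1) hF I M).not)

end Pool.Agent.Zk92.Den
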