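import Mathlib

/-!
# Transfinite iteration on the subsets of a countable set, and real ranks
-/

set_option autoImplicit false

namespace Pool.Agent.Zk92.Den

open Set

/-- a measure-like function on the subsets of a countable set -/
structure Wt (X : Type) where
  e : Set X → ℝ
  empty : e ∅ = 0
  le_one : ∀ U, e U ≤ 1
  mono : ∀ U V, U ⊆ V → e U ≤ e V
  smono : ∀ U V, U ⊆ V → ∀ x ∈ V, x ∉ U → e U < e V
  cont : ∀ (ι : Type 1) (f : ι → Set X) (α : ℝ), Nonempty ι → (∀ i j, f i ⊆ f j ∨ f j ⊆ f i) →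
    (∀ i, e (f i) ≤ α) → e (⋃ i, f i) ≤ α

theorem exists_wt (X : Type) [Countable X] : Nonempty (Wt X) := by
  classical
  have : Encodable X := Encodable.ofCountable X
  obtain ⟨w, hw, c, hc, hc1⟩ := posSumOfEncodable (one_pos : (0 : ℝ) < 1) X
  have hs : Summable w := hc.summable
  have hi : ∀ U : Set X, Summable (U.indicator w) := fun U => hs.indicator U
  have hle : ∀ U V : Set X, U ⊆ V → ∀ x, U.indicator w x ≤ V.indicator w x := fun U V h x =>
    indicator_le_indicator_of_subset h (fun x => (hw x).le) x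
  refine ⟨⟨fun U => ∑' x, U.indicator w x, by simp, fun U => ?_, fun U V h => ?_,
    fun U V h x hx hxU => ?_, fun ι f α hι hf hα => ?_⟩⟩
  · refine ((hi U).tsum_le_tsum (fun x => indicator_le_self' (fun x _ => (hw x).le) x) hs).trans ?_
    rw [hc.tsum_eq]
    exact hc1
  · exact (hi U).tsum_le_tsum (hle U V h) (hi V)
  · refine Summable.tsum_lt_tsum (i := x) (hle U V h) ?_ (hi U) (hi V)
    rw [indicator_of_notMem hxU, indicator_of_mem hx]
    exact hw x
  · refine (hi _).tsum_le_of_sum_le fun s => ?_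
    have hd : DirectedOn (fun i j => f i ⊆ f j) (univ : Set ι) := by
      intro i _ j _
      rcases hf i j with h | h
      · exact ⟨j, mem_univ _, h, Subset.rfl⟩
      · exact ⟨i, mem_univ _, Subset.rfl, h⟩
    set t : Finset X := s.filter (fun x => x ∈ ⋃ i, f i) with ht
    obtain ⟨i, -, h⟩ := hd.exists_mem_subset_of_finset_subset_biUnion (s := t) (by
      exact @univ_nonempty ι hι) (by
      intro x hx
      rw [biUnion_univ]
      exact (Finset.mem_filter.1 hx).2)
    refine le_trans ?_ (hα i)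
    refine le_trans ?_ ((hi (f i)).sum_le_tsum s fun x _ => indicator_nonneg (fun x _ => (hw x).le) x)
    refine Finset.sum_le_sum fun x hx => ?_
    by_cases hxU : x ∈ ⋃ i, f i
    · have : x ∈ f i := h (Finset.mem_filter.2 ⟨hx, hxU⟩)
      rw [indicator_of_mem hxU, indicator_of_mem this]
    · rw [indicator_of_notMem hxU]
      exact indicator_nonneg (fun x _ => (hw x).le) x

section
variable {X : Type} (E : Set X → Set X)

/-- the transfinite iteration of `E` -/
noncomputable def Hi (E : Set X → Set X) (ξ : Ordinal.{0}) : Set X :=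
  E (⋃ η : Set.Iio ξ, Hi E η.1)
termination_by ξ
decreasing_by exact η.2

/-- the union of the earlier stages -/
noncomputable def pre (ξ : Ordinal.{0}) : Set X := ⋃ η : Set.Iio ξ, Hi E η.1

theorem Hi_eq (ξ : Ordinal.{0}) : Hi E ξ = E (pre E ξ) := by
  rw [Hi]
  rfl

theorem mem_pre {ξ : Ordinal.{0}} {x : X} : x ∈ pre E ξ ↔ ∃ η, η < ξ ∧ x ∈ Hi E η := by
  unfold pre
  simp only [mem_iUnion, Subtype.exists, mem_Iio, exists_prop]

theorem pre_zero : pre E 0 = ∅ := by
  ext x
  rw [mem_pre]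
  simp

theorem Hi_sub_pre {η ξ : Ordinal.{0}} (h : η < ξ) : Hi E η ⊆ pre E ξ := fun _ hx =>
  (mem_pre E).2 ⟨η, h, hx⟩

theorem pre_mono {η ξ : Ordinal.{0}} (h : η ≤ ξ) : pre E η ⊆ pre E ξ := by
  intro x hx
  obtain ⟨ζ, h1, h2⟩ := (mem_pre E).1 hx
  exact (mem_pre E).2 ⟨ζ, h1.trans_le h, h2⟩

/-- the sets which appear in the iteration -/
def Res : Set X := {x | ∃ ξ, x ∈ Hi E ξ}

/-- the stage of an element -/
noncomputable def stg (x : X) : Ordinal.{0} := sInf {ξ | x ∈ Hi E ξ}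

open Classical in
/-- the rank of an element -/
noncomputable def rk (W : Wt X) (x : X) : ℝ := if x ∈ Res E then W.e (pre E (stg E x)) else 1

/-- the elements of rank at most `α` -/
def Lev (W : Wt X) (α : ℝ) : Set X := {x | x ∈ Res E ∧ rk E W x ≤ α}

variable {E}

theorem pre_sub_Hi (hE : ∀ U, U ⊆ E U) (ξ : Ordinal.{0}) : pre E ξ ⊆ Hi E ξ := by
  rw [Hi_eq]
  exact hE _

theorem Hi_mono (hE : ∀ U, U ⊆ E U) {η ξ : Ordinal.{0}} (h : η ≤ ξ) : Hi E η ⊆ Hi E ξ := by
  rcases h.eq_or_lt with rfl | h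
  · exact Subset.rfl
  · exact (Hi_sub_pre E h).trans (pre_sub_Hi hE ξ)

theorem mem_stg {x : X} (hx : x ∈ Res E) : x ∈ Hi E (stg E x) :=
  csInf_mem (s := {ξ | x ∈ Hi E ξ}) hx

theorem stg_le {x : X} {ξ : Ordinal.{0}} (hx : x ∈ Hi E ξ) : stg E x ≤ ξ := csInf_le' hx

theorem notMem_pre {x : X} : x ∉ pre E (stg E x) := by
  intro hc
  obtain ⟨η, h1, h2⟩ := (mem_pre E).1 hc
  exact absurd (stg_le h2) (not_le.2 h1)

variable {W : Wt X}

theorem rk_res {x : X} (hx : x ∈ Res E) : rk E W x = W.e (pre E (stg E x)) := if_pos hx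

theorem rk_not {x : X} (hx : x ∉ Res E) : rk E W x = 1 := if_neg hx

theorem e_pre_lt {x : X} (hE : ∀ U, U ⊆ E U) (hx : x ∈ Res E) : W.e (pre E (stg E x)) < 1 :=
  (W.smono _ _ (pre_sub_Hi hE _) x (mem_stg hx) notMem_pre).trans_le (W.le_one _)

theorem rk_lt_one (hE : ∀ U, U ⊆ E U) {x : X} : rk E W x < 1 ↔ x ∈ Res E := by
  constructor
  · intro h
    by_contra hc
    rw [rk_not hc] at h
    exact lt_irrefl _ h
  · intro h
    rw [rk_res h]
    exact e_pre_lt hE h

theorem rk_le_one {x : X} : rk E W x ≤ 1 := by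
  by_cases h : x ∈ Res E
  · rw [rk_res h]; exact W.le_one _
  · rw [rk_not h]

theorem rk_nonneg {x : X} : 0 ≤ rk E W x := by
  by_cases h : x ∈ Res E
  · rw [rk_res h, ← W.empty]; exact W.mono _ _ (empty_subset _)
  · rw [rk_not h]; exact zero_le_one

theorem rk_le {x : X} {ξ : Ordinal.{0}} (h : x ∈ Hi E ξ) : rk E W x ≤ W.e (pre E ξ) := by
  rw [rk_res ⟨ξ, h⟩]
  exact W.mono _ _ (pre_mono E (stg_le h))

theorem rk_lt (_hE : ∀ U, U ⊆ E U) {x y : X} (hy : y ∈ Res E) (h : x ∈ pre E (stg E y)) :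
    rk E W x < rk E W y := by
  obtain ⟨η, h1, h2⟩ := (mem_pre E).1 h
  have h3 : stg E x < stg E y := (stg_le h2).trans_lt h1
  rw [rk_res ⟨η, h2⟩, rk_res hy]
  exact W.smono _ _ (pre_mono E h3.le) x h notMem_pre

theorem lev_pre (hE : ∀ U, U ⊆ E U) (ξ : Ordinal.{0}) : Lev E W (W.e (pre E ξ)) = Hi E ξ := by
  ext x
  constructor
  · rintro ⟨h1, h2⟩
    rw [rk_res h1] at h2
    rcases le_or_gt (stg E x) ξ with h3 | h3
    · exact Hi_mono hE h3 (mem_stg h1)
    · have h4 : pre E ξ = pre E (stg E x) := by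
        refine (pre_mono E h3.le).antisymm fun y hy => ?_
        by_contra hyc
        exact absurd h2 (not_le.2 (W.smono _ _ (pre_mono E h3.le) y hy hyc))
      rw [Hi_eq, h4, ← Hi_eq E]
      exact mem_stg h1
  · intro h
    exact ⟨⟨ξ, h⟩, rk_le h⟩

theorem lev_one : Lev E W 1 = Res E := by
  ext x
  exact ⟨fun h => h.1, fun h => ⟨h, rk_le_one⟩⟩

theorem lev_mono {α β : ℝ} (h : α ≤ β) : Lev E W α ⊆ Lev E W β := fun _ hx => ⟨hx.1, hx.2.trans h⟩

theorem lev_eq (hE : ∀ U, U ⊆ E U) (α : ℝ) (hne : (Lev E W α).Nonempty) :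
    ∃ η, Lev E W α = Hi E η ∧ W.e (pre E η) ≤ α := by
  set S := Lev E W α with hS
  have hbdd : BddAbove (stg E '' S) := Ordinal.bddAbove_of_small
  have hne' : (stg E '' S).Nonempty := hne.image _
  set η := sSup (stg E '' S) with hη
  have h1 : W.e (pre E η) ≤ α := by
    by_cases hat : ∃ x ∈ S, stg E x = η
    · obtain ⟨x, hx, hxη⟩ := hat
      rw [← hxη, ← rk_res hx.1]
      exact hx.2
    · push Not at hat
      have h2 : pre E η = ⋃ i : ULift.{1} S, pre E (stg E i.down.1) := by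
        ext y
        rw [mem_iUnion]
        constructor
        · intro hy
          obtain ⟨ζ, h3, h4⟩ := (mem_pre E).1 hy
          obtain ⟨_, ⟨x, hx, rfl⟩, h5⟩ := exists_lt_of_lt_csSup hne' h3
          exact ⟨⟨⟨x, hx⟩⟩, Hi_sub_pre E h5 h4⟩
        · rintro ⟨⟨⟨x, hx⟩⟩, hy⟩
          exact pre_mono E (le_csSup hbdd ⟨x, hx, rfl⟩) hy
      rw [h2]
      refine W.cont _ _ _ ?_ (fun i j => ?_) (fun i => ?_)
      · obtain ⟨x, hx⟩ := hne
        exact ⟨⟨⟨x, hx⟩⟩⟩
      · rcases le_total (stg E i.down.1) (stg E j.down.1) with h | h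
        · exact Or.inl (pre_mono E h)
        · exact Or.inr (pre_mono E h)
      · have := i.down.2.2
        rwa [rk_res i.down.2.1] at this
  refine ⟨η, ?_, h1⟩
  ext x
  constructor
  · intro hx
    exact Hi_mono hE (le_csSup hbdd ⟨x, hx, rfl⟩) (mem_stg hx.1)
  · intro hx
    exact ⟨⟨η, hx⟩, (rk_le hx).trans h1⟩

/-- the iteration stops -/
theorem res_closed (hE : ∀ U, U ⊆ E U) : E (Res E) ⊆ Res E := by
  have hbdd : BddAbove (stg E '' Res E) := Ordinal.bddAbove_of_small
  set η := sSup (stg E '' Res E) with hη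
  have h1 : Res E = pre E (Order.succ η) := by
    ext x
    constructor
    · intro hx
      exact (mem_pre E).2 ⟨η, Order.lt_succ η, Hi_mono hE (le_csSup hbdd ⟨x, hx, rfl⟩) (mem_stg hx)⟩
    · intro hx
      obtain ⟨ζ, -, h⟩ := (mem_pre E).1 hx
      exact ⟨ζ, h⟩
  intro x hx
  rw [h1, ← Hi_eq E] at hx
  exact ⟨_, hx⟩

open Classical in
/-- the next stage -/
noncomputable def nxt (E : Set X → Set X) (T : ℕ → Set X → Set X → Prop) (n : ℕ) :
    Option Ordinal.{0} → Option Ordinal.{0}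
  | none => none
  | some ξ => if ∃ ζ, T n (Hi E ξ) (Hi E ζ) ∧ ¬ Hi E ζ ⊆ Hi E ξ then
      some (sInf {ζ | T n (Hi E ξ) (Hi E ζ) ∧ ¬ Hi E ζ ⊆ Hi E ξ}) else none

/-- the sequence of the stages -/
noncomputable def sq (E : Set X → Set X) (T : ℕ → Set X → Set X → Prop) : ℕ → Option Ordinal.{0}
  | 0 => some 0
  | n + 1 => nxt E T n (sq E T n)

/-- the value of a stage -/
noncomputable def vl (E : Set X → Set X) (W : Wt X) : Option Ordinal.{0} → ℝ
  | none => 1
  | some ξ => W.e (pre E ξ)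

theorem nxt_some (hE : ∀ U, U ⊆ E U) {T : ℕ → Set X → Set X → Prop} {n : ℕ} {ξ : Ordinal.{0}} :
    (nxt E T n (some ξ) = none ∧ ∀ ζ, T n (Hi E ξ) (Hi E ζ) → Hi E ζ ⊆ Hi E ξ) ∨
    (∃ ζ, nxt E T n (some ξ) = some ζ ∧ T n (Hi E ξ) (Hi E ζ) ∧ ξ < ζ ∧
      ∀ η, T n (Hi E ξ) (Hi E η) → ¬ Hi E η ⊆ Hi E ξ → ζ ≤ η) := by
  classical
  by_cases h : ∃ ζ, T n (Hi E ξ) (Hi E ζ) ∧ ¬ Hi E ζ ⊆ Hi E ξ
  · right
    have h1 := csInf_mem (s := {ζ | T n (Hi E ξ) (Hi E ζ) ∧ ¬ Hi E ζ ⊆ Hi E ξ}) h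
    refine ⟨_, if_pos h, h1.1, ?_, fun η h2 h3 => csInf_le' ⟨h2, h3⟩⟩
    by_contra h2
    exact h1.2 (Hi_mono hE (not_lt.1 h2))
  · left
    refine ⟨if_neg h, fun ζ hζ => ?_⟩
    by_contra hc
    exact h ⟨ζ, hζ, hc⟩

theorem exists_seq (hE : ∀ U, U ⊆ E U) (T : ℕ → Set X → Set X → Prop) (Q : Set X → Prop) (I : X)
    (hQ : ∀ U, Q U → I ∈ E U) : ∃ s : ℕ → ℝ, s 0 = 0 ∧ (∀ n, s n ≤ s (n + 1)) ∧
      (∀ n (α : ℝ), α < s (n + 1) → T n (Lev E W (s n)) (Lev E W α) →
        Lev E W α ⊆ Lev E W (s n)) ∧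
      (∀ n, s (n + 1) = 1 ∨ T n (Lev E W (s n)) (Lev E W (s (n + 1)))) ∧
      ((∃ n, s n = 1) ∨ (∀ α : ℝ, α < rk E W I → ∃ n, α < s n) ∨
        ¬ Q {x | ∃ n, x ∈ Lev E W (s n)}) := by
  classical
  refine ⟨fun n => vl E W (sq E T n), ?_, fun n => ?_, fun n α hα hT => ?_, fun n => ?_, ?_⟩
  · show W.e (pre E 0) = 0
    rw [pre_zero, W.empty]
  · show vl E W (sq E T n) ≤ vl E W (nxt E T n (sq E T n))
    rcases hn : sq E T n with - | ξ
    · exact le_rfl
    · rcases nxt_some hE (T := T) (n := n) (ξ := ξ) with ⟨h1, -⟩ | ⟨ζ, h1, -, h2, -⟩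
      · rw [h1]
        exact W.le_one _
      · rw [h1]
        exact W.mono _ _ (pre_mono E h2.le)
  · have hα' : α < vl E W (nxt E T n (sq E T n)) := hα
    dsimp only at hT ⊢
    rcases hn : sq E T n with - | ξ
    · show Lev E W α ⊆ Lev E W 1
      rw [lev_one]
      exact fun x hx => hx.1
    · rw [hn] at hα' hT
      rcases (Lev E W α).eq_empty_or_nonempty with h0 | h0
      · rw [h0]; exact empty_subset _
      · obtain ⟨η, h1, h2⟩ := lev_eq hE α h0
        have e1 : Lev E W (vl E W (some ξ)) = Hi E ξ := lev_pre hE ξ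
        rw [e1, h1] at hT ⊢
        rcases nxt_some hE (T := T) (n := n) (ξ := ξ) with ⟨h3, h4⟩ | ⟨ζ, h3, -, h4, h5⟩
        · exact h4 _ hT
        · by_contra hc
          have h6 := h5 η hT hc
          rw [h3] at hα'
          have h7 : W.e (pre E ζ) ≤ W.e (pre E η) := W.mono _ _ (pre_mono E h6)
          have h8 : α < W.e (pre E ζ) := hα'
          linarith
  · show vl E W (nxt E T n (sq E T n)) = 1 ∨
      T n (Lev E W (vl E W (sq E T n))) (Lev E W (vl E W (nxt E T n (sq E T n))))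
    rcases hn : sq E T n with - | ξ
    · exact Or.inl rfl
    · rcases nxt_some hE (T := T) (n := n) (ξ := ξ) with ⟨h3, h4⟩ | ⟨ζ, h3, h4, -, -⟩
      · left
        rw [h3]
        rfl
      · right
        rw [h3]
        have e1 : Lev E W (vl E W (some ξ)) = Hi E ξ := lev_pre hE ξ
        have e2 : Lev E W (vl E W (some ζ)) = Hi E ζ := lev_pre hE ζ
        rw [e1, e2]
        exact h4
  · by_cases hnone : ∃ n, sq E T n = none
    · obtain ⟨n, hn⟩ := hnone
      left
      refine ⟨n, ?_⟩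
      show vl E W (sq E T n) = 1
      rw [hn]
      rfl
    · right
      push Not at hnone
      choose x hx using fun n => Option.ne_none_iff_exists'.1 (hnone n)
      have hlt : ∀ n, x n < x (n + 1) := by
        intro n
        have h1 : sq E T (n + 1) = nxt E T n (sq E T n) := rfl
        rw [hx n, hx (n + 1)] at h1
        rcases nxt_some hE (T := T) (n := n) (ξ := x n) with ⟨h3, h4⟩ | ⟨ζ, h3, h4, h5, -⟩
        · rw [h3] at h1
          exact absurd h1 (by simp)
        · rw [h3] at h1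
          rw [Option.some.inj h1]
          exact h5
      have hval : ∀ n, vl E W (sq E T n) = W.e (pre E (x n)) := by
        intro n
        rw [hx n]
        rfl
      by_cases hq : Q {y | ∃ n, y ∈ Lev E W (vl E W (sq E T n))}
      · left
        set l : Ordinal.{0} := ⨆ n, x n with hl
        have hxl : ∀ n, x n < l := fun n => (hlt n).trans_le (Ordinal.le_iSup x (n + 1))
        have hpre : {y | ∃ n, y ∈ Lev E W (vl E W (sq E T n))} = pre E l := by
          ext y
          rw [mem_pre]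
          constructor
          · rintro ⟨n, hn⟩
            rw [hval, lev_pre hE] at hn
            exact ⟨x n, hxl n, hn⟩
          · rintro ⟨ζ, h1, h2⟩
            obtain ⟨n, hn⟩ := Ordinal.lt_iSup_iff.1 h1
            refine ⟨n, ?_⟩
            rw [hval, lev_pre hE]
            exact Hi_mono hE hn.le h2
        rw [hpre] at hq
        have hI := hQ _ hq
        rw [← Hi_eq E] at hI
        have h1 := rk_le (W := W) hI
        intro α hα
        by_contra hcon
        push Not at hcon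
        have h2 : W.e (⋃ i : ULift.{1} ℕ, Hi E (x i.down)) ≤ α := by
          refine W.cont _ _ _ ⟨⟨0⟩⟩ (fun i j => ?_) (fun i => ?_)
          · rcases le_total (x i.down) (x j.down) with h | h
            · exact Or.inl (Hi_mono hE h)
            · exact Or.inr (Hi_mono hE h)
          · refine le_trans (W.mono _ _ (Hi_sub_pre E (hlt i.down))) ?_
            rw [← hval]
            exact hcon _
        have h3 : (⋃ i : ULift.{1} ℕ, Hi E (x i.down)) = pre E l := by
          rw [← hpre]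
          ext y
          simp only [mem_iUnion, mem_ofPred_eq]
          constructor
          · rintro ⟨i, hi⟩
            refine ⟨i.down, ?_⟩
            rw [hval, lev_pre hE]
            exact hi
          · rintro ⟨n, hn⟩
            refine ⟨⟨n⟩, ?_⟩
            rw [hval, lev_pre hE] at hn
            exact hn
        rw [h3] at h2
        linarith
      · exact Or.inr hq

end

end Pool.Agent.Zk92.Den
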