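import Mathlib
import Pool.Agent.Zk92.Den.Basic
import Pool.Agent.Zk92.Den.Ext
import Pool.Agent.Zk92.Den.Hier
import Pool.Agent.Zk92.Den.Pseudo
import Pool.Agent.Q302.DJ.TaskTrue

/-!
# The certificate of a function which is not integrable
-/

set_option autoImplicit false

namespace Pool.Agent.Zk92.Den

open MeasureTheory Set Filter Topology
open Pool.Agent.Q302.DJ

theorem hi_true {a b : ℝ} (hab : a < b) {φ : ℝ → ℝ}
    (hφ : AEStronglyMeasurable φ (volume.restrict (Icc a b))) {Φ : Y} (hΦ : TrueInt a b φ Φ)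
    (ξ : Ordinal.{0}) :
    (St (pre (ext a b (fun x => ‖φ x‖ₑ) (fun J => (Φ J).1)) ξ) ∧
      ∀ J ∈ pre (ext a b (fun x => ‖φ x‖ₑ) (fun J => (Φ J).1)) ξ, (Φ J).2 = true) ∧
    (St (Hi (ext a b (fun x => ‖φ x‖ₑ) (fun J => (Φ J).1)) ξ) ∧
      ∀ J ∈ Hi (ext a b (fun x => ‖φ x‖ₑ) (fun J => (Φ J).1)) ξ, (Φ J).2 = true) := by
  set E := ext a b (fun x => ‖φ x‖ₑ) (fun J => (Φ J).1) with hEdef
  have hE : ∀ U, U ⊆ E U := fun U => subset_ext
  induction ξ using WellFoundedLT.induction with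
  | _ ξ ih =>
    have hp : St (pre E ξ) := by
      refine ⟨fun J hJ => ?_, fun q r q' r' hJ h1 h2 h3 => ?_, fun p q p' q' hJ hJ' h1 h2 h3 => ?_⟩
      · obtain ⟨η, h, h'⟩ := (mem_pre E).1 hJ
        exact (ih η h).2.1.val J h'
      · obtain ⟨η, h, h'⟩ := (mem_pre E).1 hJ
        exact (mem_pre E).2 ⟨η, h, (ih η h).2.1.sub q r q' r' h' h1 h2 h3⟩
      · obtain ⟨η, k1, k2⟩ := (mem_pre E).1 hJ
        obtain ⟨ζ, k3, k4⟩ := (mem_pre E).1 hJ'
        refine (mem_pre E).2 ⟨max η ζ, max_lt k1 k3, (ih _ (max_lt k1 k3)).2.1.glue p q p' q' ?_ ?_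
          h1 h2 h3⟩
        · exact Hi_mono hE (le_max_left _ _) k2
        · exact Hi_mono hE (le_max_right _ _) k4
    have hpt : ∀ J ∈ pre E ξ, (Φ J).2 = true := by
      intro J hJ
      obtain ⟨η, h, h'⟩ := (mem_pre E).1 hJ
      exact (ih η h).2.2 J h'
    refine ⟨⟨hp, hpt⟩, ?_⟩
    rw [Hi_eq]
    refine ⟨hp.ext, fun J hJ => ?_⟩
    have hv := hp.ext.val J hJ
    obtain ⟨F, hF⟩ := ext_nice hab hφ hΦ hp hpt (q := J.1) (r := J.2) hJ
    exact (hΦ J.1 J.2 hv.1 hv.2.1 hv.2.2).1.2 ⟨_, hF.2.2⟩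

theorem exists_cert {a b : ℝ} (hab : a < b) {φ : ℝ → ℝ}
    (hφ : AEStronglyMeasurable φ (volume.restrict (Icc a b))) (hnot : ¬ ∃ F, IsPrim φ F a b) :
    ∃ (r Fv : ℚ × ℚ → ℝ) (s : ℚ × ℚ → ℕ → ℕ → ℝ) (G : ℚ × ℚ → CC a b) (p : ℚ × ℚ → ℕ → ℝ),
      Cert a b hab.le (fun F p => DerivOn a b φ (ex hab.le F) p) (fun x => ‖φ x‖ₑ) r Fv s G p := by
  classical
  obtain ⟨Φ, hΦ⟩ := TaskTrue.main uniq a b φ hab
  obtain ⟨W⟩ := exists_wt (ℚ × ℚ)
  set ψ : ℝ → ENNReal := fun x => ‖φ x‖ₑ with hψ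
  set Fv : ℚ × ℚ → ℝ := fun J => (Φ J).1 with hFv
  set E := ext a b ψ Fv with hEdef
  have hE : ∀ U, U ⊆ E U := fun U => subset_ext
  have htrue := hi_true hab hφ hΦ
  rw [← hψ, ← hFv, ← hEdef] at htrue
  have hval : ∀ J ∈ Res E, Valid J := fun J ⟨ξ, hJ⟩ => (htrue ξ).2.1.val J hJ
  have hUs : ∀ x, Us (rk E W) x = Lev E W x := by
    intro x
    ext J
    constructor
    · rintro ⟨h1, h2, h3⟩
      exact ⟨(rk_lt_one hE).1 h3, h2⟩
    · rintro ⟨h1, h2⟩
      exact ⟨hval J h1, h2, (rk_lt_one hE).2 h1⟩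
  have h01 : ((0 : ℚ), (1 : ℚ)) ∉ Res E := by
    rintro ⟨ξ, hξ⟩
    have h1 := (htrue ξ).2.2 _ hξ
    have h2 := (hΦ 0 1 le_rfl one_pos le_rfl).1.1 h1
    rw [pt_zero, pt_one] at h2
    exact hnot h2
  -- the witnesses for the steps
  have hstep : ∀ J, ∃ (F : CC a b) (p : ℕ → ℝ), Valid J → rk E W J < 1 →
      Step a b (fun J' => (Fv J', decide (rk E W J' < rk E W J))) (ex hab.le F) p J.1 J.2 ∧
      DerivOn a b φ (ex hab.le F) p ∧
      Fv J = ex hab.le F (pt a b J.2) - ex hab.le F (pt a b J.1) := by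
    intro J
    by_cases hJ : Valid J ∧ rk E W J < 1
    · obtain ⟨hv, hr⟩ := hJ
      have hres : J ∈ Res E := (rk_lt_one hE).1 hr
      have hst := htrue (stg E J)
      have hmem : J ∈ E (pre E (stg E J)) := by
        rw [← Hi_eq E]
        exact mem_stg hres
      obtain ⟨F, hF⟩ := ext_nice hab hφ hΦ hst.1.1 hst.1.2 (q := J.1) (r := J.2) hmem
      obtain ⟨p, hp1, hp2⟩ := nice_step hab hΦ hst.1.1 hst.1.2 (q := J.1) (r := J.2) hv hF
        (Ψ := fun J' => (Fv J', decide (rk E W J' < rk E W J))) (fun J' hJ' =>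
          ⟨decide_eq_true (rk_lt hE hres hJ'), rfl⟩)
      exact ⟨F, p, fun _ _ => ⟨hp1, hp2, (hΦ J.1 J.2 hv.1 hv.2.1 hv.2.2).2 _ hF.2.2⟩⟩
    · exact ⟨0, fun _ => 0, fun h1 h2 => absurd ⟨h1, h2⟩ hJ⟩
  choose G p hGp using hstep
  -- the sequences
  have hseq : ∀ (I : ℚ × ℚ) (M : ℕ), ∃ s : ℕ → ℝ, Valid I → s 0 = 0 ∧ (∀ n, s n ≤ s (n + 1)) ∧
      (∀ n (α : ℝ), α < s (n + 1) →
        Th a b ψ (Lev E W (s n)) (Lev E W α) Fv I M n → Lev E W α ⊆ Lev E W (s n)) ∧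
      (∀ n, s (n + 1) = 1 ∨ Th a b ψ (Lev E W (s n)) (Lev E W (s (n + 1))) Fv I M n) ∧
      ((∃ n, s n = 1) ∨ (∀ α : ℝ, α < rk E W I → ∃ n, α < s n) ∨
        ¬ Pr a b ψ {x | ∃ n, x ∈ Lev E W (s n)} Fv I M) := by
    intro I M
    by_cases hI : Valid I
    · obtain ⟨s, hs⟩ := exists_seq (W := W) hE (fun n U V => Th a b ψ U V Fv I M n)
        (fun U => Pr a b ψ U Fv I M) I (fun U hU => Ext.step hI hU)
      exact ⟨s, fun _ => hs⟩
    · exact ⟨fun _ => 0, fun h => absurd h hI⟩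
  choose s hs using hseq
  refine ⟨rk E W, Fv, s, G, p, ⟨fun J _ => rk_nonneg, ?_, ?_, ?_, fun J hv hr => hGp J hv hr,
    fun I M hI => (hs I M hI).1, fun I M n hI => (hs I M hI).2.1 n, ?_, ?_, ?_, ?_⟩⟩
  · intro q t q' t' hv h1 h2 h3
    by_cases hres : (q, t) ∈ Res E
    · rw [rk_res hres]
      exact rk_le ((htrue _).2.1.sub q t q' t' (mem_stg hres) h1 h2 h3)
    · rw [rk_not hres]
      exact rk_le_one
  · intro u v u' v' hv hv' h1 h2 h3
    by_cases hres : (u, v) ∈ Res E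
    · by_cases hres' : (u', v') ∈ Res E
      · have hg : (u, v') ∈ Hi E (max (stg E (u, v)) (stg E (u', v'))) :=
          (htrue _).2.1.glue u v u' v' (Hi_mono hE (le_max_left _ _) (mem_stg hres))
            (Hi_mono hE (le_max_right _ _) (mem_stg hres')) h1 h2 h3
        have h4 := rk_le (W := W) hg
        rw [rk_res hres, rk_res hres']
        rcases le_total (stg E (u, v)) (stg E (u', v')) with h | h
        · rw [max_eq_right h] at h4
          exact h4.trans (le_max_right _ _)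
        · rw [max_eq_left h] at h4
          exact h4.trans (le_max_left _ _)
      · rw [rk_not hres']
        exact rk_le_one.trans (le_max_right _ _)
    · rw [rk_not hres]
      exact rk_le_one.trans (le_max_left _ _)
  · rw [rk_not h01]
  · intro I M n α hI h1 h2
    rw [hUs, hUs] at h2 ⊢
    exact (hs I M hI).2.2.1 n α h1 h2
  · intro I M n hI
    rw [hUs, hUs]
    exact (hs I M hI).2.2.2.1 n
  · intro I M hI
    rcases (hs I M hI).2.2.2.2 with ⟨n, hn⟩ | h | h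
    · left
      intro α hα
      exact ⟨n, by rw [hn]; exact hα⟩
    · right; left
      intro α hα
      exact h α hα
    · right; right
      have e1 : Uw (rk E W) (s I M) = {x | ∃ n, x ∈ Lev E W (s I M n)} := by
        unfold Uw
        simp_rw [hUs]
      rw [e1]
      exact h
  · intro I M hI
    rw [hUs, lev_one]
    by_cases hpr : Pr a b ψ (Res E) Fv I M
    · left
      exact (rk_lt_one hE).2 (res_closed hE (Ext.step hI hpr))
    · exact Or.inr hpr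

end Pool.Agent.Zk92.Den
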