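import Mathlib
import Pool.Agent.Zk92.Den.Basic
import Pool.Agent.Zk92.Den.Pseudo
import Pool.Agent.Zk92.Den.Truth
import Pool.Agent.Zk92.Den.Meas
import Pool.Agent.Q302.DJ.Asm
import Pool.Agent.Q302.DJ.TaskMetric
import Pool.Agent.Q302.DJ.TaskLim
import Pool.Agent.Q302.DJ.TaskSurj
import Pool.Agent.Q302.DJ.TaskCont
import Pool.Agent.Q302.DJ.TaskFast
import Pool.Agent.Q302.DJ.TaskDeriv

/-!
# The set of the Denjoy integrable functions is coanalytic
-/

set_option autoImplicit false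

namespace Pool.Agent.Zk92.Den

open MeasureTheory Set Filter Topology
open Pool.Agent.Q302.DJ

theorem ib_congr {a b : ℝ} (hab : a < b) {ψ ψ' : ℝ → ENNReal}
    (hψ : ∀ᵐ x ∂(volume.restrict (Icc a b)), ψ x = ψ' x) {U : Set (ℚ × ℚ)} {I : ℚ × ℚ}
    (hI : Valid I) {n M : ℕ} : IB a b ψ U I n M ↔ IB a b ψ' U I n M := by
  unfold IB
  rw [lintegral_congr_ae]
  have h1 : ∀ᵐ x ∂(volume.restrict (Icc (pt a b I.1) (pt a b I.2) ∩ KU a b U)), ψ x = ψ' x :=
    ae_mono (Measure.restrict_mono (inter_subset_left.trans (hI.sub_Icc hab)) le_rfl) hψ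
  filter_upwards [h1] with x hx
  rw [hx]

theorem Cert.congr {a b : ℝ} (hab : a < b) {D D' : CC a b → (ℕ → ℝ) → Prop}
    {ψ ψ' : ℝ → ENNReal} (hD : ∀ F p, D F p → D' F p)
    (hψ : ∀ᵐ x ∂(volume.restrict (Icc a b)), ψ x = ψ' x)
    {r Fv : ℚ × ℚ → ℝ} {s : ℚ × ℚ → ℕ → ℕ → ℝ} {G : ℚ × ℚ → CC a b} {p : ℚ × ℚ → ℕ → ℝ}
    (hC : Cert a b hab.le D ψ r Fv s G p) : Cert a b hab.le D' ψ' r Fv s G p := by
  have hTh : ∀ {U V : Set (ℚ × ℚ)} {I : ℚ × ℚ} {M n : ℕ}, Valid I →
      (Th a b ψ U V Fv I M n ↔ Th a b ψ' U V Fv I M n) := by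
    intro U V I M n hI
    unfold Th
    rw [ib_congr hab hψ hI]
  have hPr : ∀ {U : Set (ℚ × ℚ)} {I : ℚ × ℚ} {M : ℕ}, Valid I →
      (Pr a b ψ U Fv I M ↔ Pr a b ψ' U Fv I M) := by
    intro U I M hI
    unfold Pr
    simp_rw [ib_congr hab hψ hI]
  obtain ⟨h1, h2, h3, h4, h5, h6, h7, h8, h9, h10, h11⟩ := hC
  refine ⟨h1, h2, h3, h4, fun J hJ hr => ?_, h6, h7, fun I M n α hI hα hT => ?_, fun I M n hI => ?_,
    fun I M hI => ?_, fun I M hI => ?_⟩
  · obtain ⟨k1, k2, k3⟩ := h5 J hJ hr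
    exact ⟨k1, hD _ _ k2, k3⟩
  · exact h8 I M n α hI hα ((hTh hI).2 hT)
  · rw [← hTh hI]
    exact h9 I M n hI
  · rw [← hPr hI]
    exact h10 I M hI
  · rw [← hPr hI]
    exact h11 I M hI

/-- **The set of the Denjoy integrable functions is coanalytic.** -/
theorem coanalytic (a b : ℝ) (hab : a < b) :
    letI := metricM TaskMetric.main a b
    AnalyticSet ({f : M a b | ∃ F, IsPrim f.rep F a b}ᶜ) := by
  let _ := metricM TaskMetric.main a b
  -- the limit
  have huniq : ∀ (g : ℕ → CC a b), Fast hab.le g → ∀ f f' : M a b, LimIs hab.le g f.rep →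
      LimIs hab.le g f'.rep → f = f' := by
    intro g hg f f' hf hf'
    apply (TaskMetric.main a b).2.2.2
    apply le_antisymm
    · apply le_of_forall_pos_le_add
      intro ε hε
      obtain ⟨N, δ, hδ, h⟩ := TaskCont.main a b hab.le g hg ε hε
      have := h g hg (by rw [dist_self]; exact hδ) f f' hf hf'
      linarith
    · have : 0 ≤ dist f f' := dist_nonneg
      exact this
  classical
  have : Nonempty (M a b) := ⟨(0 : ℝ →ₘ[volume.restrict (Icc a b)] ℝ)⟩
  let π : (ℕ → CC a b) → M a b := fun g =>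
    if h : Fast hab.le g then Classical.choose (taskLim a b hab.le g h) else Classical.arbitrary _
  have hπ : ∀ g, Fast hab.le g → LimIs hab.le g (π g).rep := by
    intro g hg
    have : π g = Classical.choose (taskLim a b hab.le g hg) := dif_pos hg
    rw [this]
    exact Classical.choose_spec (taskLim a b hab.le g hg)
  have hπc : ContinuousOn π {g | Fast hab.le g} := by
    intro g hg
    rw [ContinuousWithinAt, Metric.tendsto_nhds]
    intro ε hε
    obtain ⟨N, δ, hδ, h⟩ := TaskCont.main a b hab.le g hg ε hε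
    have hopen : {g' : ℕ → CC a b | dist (g' N) (g N) < δ} ∈ 𝓝 g :=
      (isOpen_lt ((continuous_apply N).dist continuous_const) continuous_const).mem_nhds
        (by simpa using hδ)
    filter_upwards [mem_nhdsWithin_of_mem_nhds hopen, self_mem_nhdsWithin] with g' h1 h2
    rw [dist_comm]
    exact h g' h2 (by rw [dist_comm]; exact h1) _ _ (hπ g hg) (hπ g' h2)
  have hfast : AnalyticSet {z : ZZ a b | Fast hab.le z.1} :=
    ((TaskFast.main a b hab.le).preimage continuous_fst).analyticSet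
  have hcert : AnalyticSet {z : ZZ a b | CertG hab.le z} :=
    TaskAn.analytic_of_borel (borel_CertG hab)
  have hset : AnalyticSet ({z : ZZ a b | Fast hab.le z.1} ∩ {z : ZZ a b | CertG hab.le z}) := by
    rw [inter_eq_iInter]
    refine AnalyticSet.iInter fun c => ?_
    cases c
    · exact hcert
    · exact hfast
  have key : {f : M a b | ∃ F, IsPrim f.rep F a b}ᶜ = (fun z : ZZ a b => π z.1) ''
      ({z : ZZ a b | Fast hab.le z.1} ∩ {z : ZZ a b | CertG hab.le z}) := by
    ext f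
    constructor
    · intro hf
      obtain ⟨g, hg, hgf⟩ := TaskSurj.main a b hab.le f
      have hae : AEStronglyMeasurable f.rep (volume.restrict (Icc a b)) :=
        AEEqFun.aestronglyMeasurable (show ℝ →ₘ[volume.restrict (Icc a b)] ℝ from f)
      obtain ⟨r, Fv, s, G, p, hC⟩ := exists_cert hab hae hf
      refine ⟨(g, r, Fv, s, G, p), ⟨hg, ?_⟩, huniq g hg _ _ (hπ g hg) hgf⟩
      refine hC.congr hab (fun F p h => (TaskDeriv.main a b hab g f.rep F p hgf).2 h) ?_
      filter_upwards [psi_ae hab.le hgf] with x hx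
      exact hx.symm
    · rintro ⟨z, ⟨hz1, hz2⟩, rfl⟩ ⟨F, hF⟩
      have h1 := hπ z.1 hz1
      exact Cert.elim hab hF (fun F p h => (TaskDeriv.main a b hab z.1 _ F p h1).1 h)
        (psi_ae hab.le h1) hz2
  rw [key]
  refine hset.image_of_continuousOn ?_
  exact hπc.comp continuous_fst.continuousOn (fun z hz => hz.1)

end Pool.Agent.Zk92.Den
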